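import Pool.Agent.Lib.MP_417c68_gt_N.Defs

/-!
# MP_417c68_gt, project N, module Conn: a symmetric `Y` with `v ⬝ exp(Y) v' ≠ 0` and
`w' ⬝ exp(-Y) w ≠ 0`

PROOF.
* Derivatives: `f t = v ⬝ᵥ exp (t • Z) *ᵥ v'` has derivative `v ⬝ᵥ Z *ᵥ v'` at `0`, and
  `g t = w' ⬝ᵥ exp (-(t • Z)) *ᵥ w` has derivative `-(w' ⬝ᵥ Z *ᵥ w)` at `0`.
* `near`: if `v ⬝ᵥ v' ≠ 0` or `v ⬝ᵥ Z *ᵥ v' ≠ 0` then `f t ≠ 0` for all `t ≠ 0` close to `0`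
  (continuity at `0`, or `HasDerivAt.eventually_ne`).  The same for `g`.  So some `t` is good for
  both.
* Choice of `Z` (symmetric, trace `0`).  If `v ⬝ᵥ v' = 0` put `Z₁ = vw v v' + vw v' v`: symmetric of
  trace `2 (v ⬝ᵥ v') = 0`, `v ⬝ᵥ Z₁ *ᵥ v' = (v ⬝ᵥ v) (v' ⬝ᵥ v') + (v ⬝ᵥ v')² ≠ 0`.  If `w ⬝ᵥ w' = 0`
  put `Z₂ = vw w w' + vw w' w`.  Take `Z = 0`, `Z₁`, `Z₂`, and if both scalar products vanish
  `Z = Z₁ + l • Z₂` with a real `l` such that `v ⬝ᵥ Z₁ v' + l (v ⬝ᵥ Z₂ v') ≠ 0` and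
  `w' ⬝ᵥ Z₁ w + l (w' ⬝ᵥ Z₂ w) ≠ 0`: as `v ⬝ᵥ Z₁ v' ≠ 0` and `w' ⬝ᵥ Z₂ w ≠ 0`, each condition
  excludes at most one `l`; one of `l = 0, 1, 2` is good.
-/

noncomputable section

namespace Pool.Agent.MP417N

open Matrix NormedSpace

variable {d : ℕ}

/-- the functional `M ↦ v ⬝ᵥ M *ᵥ v'` -/
private def connF (v v' : Fin d → ℝ) : Mt d →ₗ[ℝ] ℝ where
  toFun M := v ⬝ᵥ M *ᵥ v'
  map_add' M N := by rw [Matrix.add_mulVec, dotProduct_add]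
  map_smul' c M := by rw [Matrix.smul_mulVec, dotProduct_smul, RingHom.id_apply]

private theorem connF_apply (v v' : Fin d → ℝ) (M : Mt d) : connF v v' M = v ⬝ᵥ M *ᵥ v' := rfl

private theorem connF_one (v v' : Fin d → ℝ) : connF v v' 1 = v ⬝ᵥ v' := by
  rw [connF_apply, Matrix.one_mulVec]

section

attribute [local instance] Matrix.linftyOpNormedRing Matrix.linftyOpNormedAlgebra

private theorem conn_near (v v' : Fin d → ℝ) (Z : Mt d)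
    (h : v ⬝ᵥ v' ≠ 0 ∨ v ⬝ᵥ Z *ᵥ v' ≠ 0) :
    ∀ᶠ t : ℝ in nhdsWithin 0 {0}ᶜ, v ⬝ᵥ exp (t • Z) *ᵥ v' ≠ 0 := by
  have h1 : HasDerivAt (fun t : ℝ => exp (t • Z)) (exp ((0 : ℝ) • Z) * Z) 0 :=
    hasDerivAt_exp_smul_const Z (0 : ℝ)
  have h2 : HasDerivAt (fun t : ℝ => connF v v' (exp (t • Z)))
      (connF v v' (exp ((0 : ℝ) • Z) * Z)) 0 :=
    ((LinearMap.toContinuousLinearMap (connF v v')).hasFDerivAt.comp_hasDerivAt (0 : ℝ) h1)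
  rw [zero_smul, exp_zero, one_mul] at h2
  rcases h with h | h
  · have h3 : connF v v' (exp ((0 : ℝ) • Z)) ≠ 0 := by
      rw [zero_smul, exp_zero, connF_one]
      exact h
    exact (h2.continuousAt.eventually_ne h3).filter_mono nhdsWithin_le_nhds
  · exact h2.eventually_ne (c := 0) h

end

private theorem conn_vec (v a b c : Fin d → ℝ) :
    v ⬝ᵥ (vw a b *ᵥ c) = (v ⬝ᵥ a) * (b ⬝ᵥ c) := by
  rw [vw, Matrix.vecMulVec_mulVec]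
  simp [dotProduct_smul, mul_comm]

private theorem conn_one {a b : Fin d → ℝ} (ha : a ≠ 0) (hb : b ≠ 0) (h : a ⬝ᵥ b = 0) :
    ∃ Z : Mt d, Zᵀ = Z ∧ Z.trace = 0 ∧ a ⬝ᵥ Z *ᵥ b ≠ 0 := by
  refine ⟨vw a b + vw b a, ?_, ?_, ?_⟩
  · rw [vw, vw, Matrix.transpose_add, Matrix.transpose_vecMulVec, Matrix.transpose_vecMulVec,
      add_comm]
  · rw [vw, vw, Matrix.trace_add, Matrix.trace_vecMulVec, Matrix.trace_vecMulVec,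
      dotProduct_comm b a, h, add_zero]
  · rw [Matrix.add_mulVec, dotProduct_add, conn_vec, conn_vec, h, zero_mul, add_zero]
    exact mul_ne_zero (fun h1 => ha (dotProduct_self_eq_zero.1 h1))
      (fun h1 => hb (dotProduct_self_eq_zero.1 h1))

private theorem conn_Z {v v' w w' : Fin d → ℝ} (hv : v ≠ 0) (hv' : v' ≠ 0) (hw : w ≠ 0)
    (hw' : w' ≠ 0) : ∃ Z : Mt d, Zᵀ = Z ∧ Z.trace = 0 ∧ (v ⬝ᵥ v' ≠ 0 ∨ v ⬝ᵥ Z *ᵥ v' ≠ 0) ∧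
      (w' ⬝ᵥ w ≠ 0 ∨ w' ⬝ᵥ Z *ᵥ w ≠ 0) := by
  by_cases h1 : v ⬝ᵥ v' = 0
  · obtain ⟨Z1, a1, b1, c1⟩ := conn_one hv hv' h1
    by_cases h2 : w' ⬝ᵥ w = 0
    · obtain ⟨Z2, a2, b2, c2⟩ := conn_one hw' hw h2
      have key : ∀ l : ℝ, v ⬝ᵥ Z1 *ᵥ v' + l * (v ⬝ᵥ Z2 *ᵥ v') ≠ 0 →
          w' ⬝ᵥ Z1 *ᵥ w + l * (w' ⬝ᵥ Z2 *ᵥ w) ≠ 0 →
          ∃ Z : Mt d, Zᵀ = Z ∧ Z.trace = 0 ∧ (v ⬝ᵥ v' ≠ 0 ∨ v ⬝ᵥ Z *ᵥ v' ≠ 0) ∧
            (w' ⬝ᵥ w ≠ 0 ∨ w' ⬝ᵥ Z *ᵥ w ≠ 0) := by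
        intro l h3 h4
        have e : ∀ a b : Fin d → ℝ, a ⬝ᵥ (Z1 + l • Z2) *ᵥ b =
            a ⬝ᵥ Z1 *ᵥ b + l * (a ⬝ᵥ Z2 *ᵥ b) := by
          intro a b
          rw [Matrix.add_mulVec, Matrix.smul_mulVec, dotProduct_add, dotProduct_smul,
            smul_eq_mul]
        refine ⟨Z1 + l • Z2, ?_, ?_, Or.inr ?_, Or.inr ?_⟩
        · rw [Matrix.transpose_add, Matrix.transpose_smul, a1, a2]
        · rw [Matrix.trace_add, Matrix.trace_smul, b1, b2, smul_zero, add_zero]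
        · rw [e]
          exact h3
        · rw [e]
          exact h4
      by_cases h5 : w' ⬝ᵥ Z1 *ᵥ w = 0
      · by_cases h6 : v ⬝ᵥ Z1 *ᵥ v' + 1 * (v ⬝ᵥ Z2 *ᵥ v') = 0
        · refine key 2 ?_ ?_
          · intro h7
            apply c1
            linarith
          · rw [h5, zero_add]
            exact mul_ne_zero two_ne_zero c2
        · refine key 1 h6 ?_
          rw [h5, zero_add, one_mul]
          exact c2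
      · refine key 0 ?_ ?_
        · rw [zero_mul, add_zero]
          exact c1
        · rw [zero_mul, add_zero]
          exact h5
    · exact ⟨Z1, a1, b1, Or.inr c1, Or.inl h2⟩
  · by_cases h2 : w' ⬝ᵥ w = 0
    · obtain ⟨Z2, a2, b2, c2⟩ := conn_one hw' hw h2
      exact ⟨Z2, a2, b2, Or.inl h1, Or.inr c2⟩
    · exact ⟨0, by simp, by simp, Or.inl h1, Or.inl h2⟩

theorem conn {v v' w w' : Fin d → ℝ} (hv : v ≠ 0) (hv' : v' ≠ 0) (hw : w ≠ 0) (hw' : w' ≠ 0) :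
    ∃ Y : Mt d, Yᵀ = Y ∧ Y.trace = 0 ∧ v ⬝ᵥ exp Y *ᵥ v' ≠ 0 ∧ w' ⬝ᵥ exp (-Y) *ᵥ w ≠ 0 := by
  obtain ⟨Z, hs, ht, h1, h2⟩ := conn_Z hv hv' hw hw'
  have h3 : w' ⬝ᵥ w ≠ 0 ∨ w' ⬝ᵥ (-Z) *ᵥ w ≠ 0 := by
    rcases h2 with h2 | h2
    · exact Or.inl h2
    · right
      rw [Matrix.neg_mulVec, dotProduct_neg]
      exact neg_ne_zero.2 h2
  obtain ⟨t, h4, h5⟩ := ((conn_near v v' Z h1).and (conn_near w' w (-Z) h3)).exists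
  refine ⟨t • Z, ?_, ?_, h4, ?_⟩
  · rw [Matrix.transpose_smul, hs]
  · rw [Matrix.trace_smul, ht, smul_zero]
  · rw [smul_neg] at h5
    exact h5

end Pool.Agent.MP417N
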