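import Pool.Agent.Lib.MP_417c68_gt_N.Defs

/-!
# MP_417c68_gt, project N, module Lim: the limit of `s⁻⁸ Phi (D g D')`

PROOFS.
* `Phi_smul`: `adL (a • g) (b • h) = (a * b) • adL g h`, `adL (b • h) (a • g) = (a * b) • adL h g`.
* `Phi_cont`: `Phi P Q g h = ∑ i j, (g * Q (h * P (ee i j) * g) * h) i j` (the trace of an
  endomorphism `f` of `Mt d` is `∑ i j, (f (ee i j)) i j`: `LinearMap.trace_eq_matrix_trace` for
  `Matrix.stdBasis`), `P`, `Q` are continuous (finite dimension).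
* `Phi_rank_one`: `adL (vw v v') (vw w' w) x = mi (vw v' w') x • vw v w` and
  `adL (vw w' w) (vw v v') x = mi (vw w v) x • vw w' v'`, so the endomorphism is
  `x ↦ (mi (vw w v) (P x) * mi (vw v' w') (Q (vw w' v'))) • vw v w`, of trace
  `mi (vw w v) (P (vw v w)) * mi (vw v' w') (Q (vw w' v'))` (use `Phi_sum` and
  `∑ i j, mi (vw w v) (P (ee i j)) * vw v w i j = mi (vw w v) (P (vw v w))`).
* `phi_lim`: `s⁻¹ • Dm v w s → vw v v` and `s⁻¹ • Dm v w s⁻¹ → vw w w` for `s → ∞`.  So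
  `(s⁻¹)² • (Dm v w s * g * Dm v' w' s) → vw v v * g * vw v' v' = (v ⬝ g v') • vw v v'` and
  `(s⁻¹)² • (Dm v' w' s⁻¹ * h * Dm v w s⁻¹) → vw w' w' * h * vw w w = (w' ⬝ h w) • vw w' w`.
  By `Phi_smul` (with `a = b = (s⁻¹)²`) the left side is `Phi` at these two matrices; `Phi_cont`,
  `Phi_smul`, `Phi_rank_one`.
-/

noncomputable section

namespace Pool.Agent.MP417N

open Matrix Filter Topology

variable {d : ℕ}

private theorem lim_tri (a b c e : Fin d → ℝ) (X : Mt d) :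
    vw a b * X * vw c e = (b ⬝ᵥ X *ᵥ c) • vw a e := by
  rw [vw, vw, vw, Matrix.mul_assoc, Matrix.mul_vecMulVec, Matrix.vecMulVec_mul_vecMulVec,
    Matrix.vecMulVec_smul]

private theorem lim_mi (w v : Fin d → ℝ) (X : Mt d) : w ⬝ᵥ X *ᵥ v = mi X (vw w v) := by
  rw [mi_sum, dotProduct, Finset.sum_comm]
  refine Finset.sum_congr rfl fun i _ => ?_
  rw [Matrix.mulVec, dotProduct, Finset.mul_sum]
  refine Finset.sum_congr rfl fun j _ => ?_
  rw [vw, Matrix.vecMulVec_apply]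
  ring

/-- the pairing as a linear map -/
private def limT (y : Mt d) : Mt d →ₗ[ℝ] ℝ where
  toFun x := mi x y
  map_add' x z := mi_add_left x z y
  map_smul' c x := by rw [RingHom.id_apply, smul_eq_mul]; exact mi_smul_left c x y

private theorem lim_exp (x : Mt d) : x = ∑ i, ∑ j, x i j • ee i j := by
  conv_lhs => rw [Matrix.matrix_eq_sum_single x]
  refine Finset.sum_congr rfl fun i _ => Finset.sum_congr rfl fun j _ => ?_
  rw [ee, Matrix.smul_single, smul_eq_mul, mul_one]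

private theorem lim_a (v w : Fin d → ℝ) :
    Tendsto (fun s : ℝ => s⁻¹ • Dm v w s) atTop (𝓝 (vw v v)) := by
  have h0 : Tendsto (fun s : ℝ => s⁻¹) atTop (𝓝 0) := tendsto_inv_atTop_zero
  have h1 : Tendsto (fun s : ℝ => s⁻¹ • (1 : Mt d) + (1 - s⁻¹) • vw v v +
      (s⁻¹ * (s⁻¹ - 1)) • vw w w) atTop
      (𝓝 ((0 : ℝ) • (1 : Mt d) + (1 - (0 : ℝ)) • vw v v + ((0 : ℝ) * (0 - 1)) • vw w w)) :=
    ((h0.smul_const _).add ((h0.const_sub 1).smul_const _)).add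
      ((h0.mul (h0.sub_const 1)).smul_const _)
  rw [zero_smul, zero_add, sub_zero, one_smul, zero_mul, zero_smul, add_zero] at h1
  refine h1.congr' ?_
  filter_upwards [eventually_ne_atTop (0 : ℝ)] with s hs
  rw [Dm, smul_add, smul_add, smul_smul, smul_smul, mul_sub s⁻¹ s, inv_mul_cancel₀ hs, mul_one]

private theorem lim_b (v w : Fin d → ℝ) :
    Tendsto (fun s : ℝ => s⁻¹ • Dm v w s⁻¹) atTop (𝓝 (vw w w)) := by
  have h0 : Tendsto (fun s : ℝ => s⁻¹) atTop (𝓝 0) := tendsto_inv_atTop_zero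
  have h1 : Tendsto (fun s : ℝ => s⁻¹ • (1 : Mt d) + (s⁻¹ * (s⁻¹ - 1)) • vw v v +
      (1 - s⁻¹) • vw w w) atTop
      (𝓝 ((0 : ℝ) • (1 : Mt d) + ((0 : ℝ) * (0 - 1)) • vw v v + (1 - (0 : ℝ)) • vw w w)) :=
    ((h0.smul_const _).add ((h0.mul (h0.sub_const 1)).smul_const _)).add
      ((h0.const_sub 1).smul_const _)
  rw [zero_smul, zero_add, sub_zero, one_smul, zero_mul, zero_smul, zero_add] at h1
  refine h1.congr' ?_
  filter_upwards [eventually_ne_atTop (0 : ℝ)] with s hs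
  rw [Dm, smul_add, smul_add, smul_smul, smul_smul, inv_inv, mul_sub (s⁻¹) s, inv_mul_cancel₀ hs,
    mul_one]

theorem Phi_sum (P Q : Mt d →ₗ[ℝ] Mt d) (g h : Mt d) :
    Phi P Q g h = ∑ i, ∑ j, (g * Q (h * P (ee i j) * g) * h) i j := by
  rw [Phi, LinearMap.trace_eq_matrix_trace ℝ (Matrix.stdBasis ℝ (Fin d) (Fin d)), Matrix.trace,
    Fintype.sum_prod_type]
  refine Finset.sum_congr rfl fun i _ => Finset.sum_congr rfl fun j _ => ?_
  rw [Matrix.diag_apply, LinearMap.toMatrix_apply, Matrix.stdBasis_eq_single]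
  rfl

theorem Phi_smul (P Q : Mt d →ₗ[ℝ] Mt d) (g h : Mt d) (a b : ℝ) :
    Phi P Q (a • g) (b • h) = (a * b) ^ 2 * Phi P Q g h := by
  rw [Phi_sum, Phi_sum, Finset.mul_sum]
  refine Finset.sum_congr rfl fun i _ => ?_
  rw [Finset.mul_sum]
  refine Finset.sum_congr rfl fun j _ => ?_
  have h1 : a • g * Q (b • h * P (ee i j) * a • g) * b • h =
      ((a * b) ^ 2) • (g * Q (h * P (ee i j) * g) * h) := by
    rw [Matrix.smul_mul b h, Matrix.smul_mul b, Matrix.mul_smul _ a, smul_smul, map_smul,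
      Matrix.smul_mul a g, Matrix.mul_smul g, smul_smul, Matrix.smul_mul, Matrix.mul_smul _ b,
      smul_smul]
    refine congrArg (· • (g * Q (h * P (ee i j) * g) * h)) ?_
    ring
  rw [h1, Matrix.smul_apply, smul_eq_mul]

theorem Phi_cont (P Q : Mt d →ₗ[ℝ] Mt d) : Continuous fun p : Mt d × Mt d => Phi P Q p.1 p.2 := by
  have hP : Continuous P := LinearMap.continuous_of_finiteDimensional P
  have hQ : Continuous Q := LinearMap.continuous_of_finiteDimensional Q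
  have h1 : (fun p : Mt d × Mt d => Phi P Q p.1 p.2) =
      fun p : Mt d × Mt d => ∑ i, ∑ j, (p.1 * Q (p.2 * P (ee i j) * p.1) * p.2) i j :=
    funext fun p => Phi_sum P Q p.1 p.2
  rw [h1]
  refine continuous_finsetSum _ fun i _ => continuous_finsetSum _ fun j _ => ?_
  have h2 : Continuous fun p : Mt d × Mt d => p.2 * P (ee i j) * p.1 :=
    (continuous_snd.matrix_mul continuous_const).matrix_mul continuous_fst
  have h3 : Continuous fun p : Mt d × Mt d => p.1 * Q (p.2 * P (ee i j) * p.1) * p.2 :=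
    (continuous_fst.matrix_mul (hQ.comp h2)).matrix_mul continuous_snd
  exact h3.matrix_elem i j

theorem Phi_rank_one (P Q : Mt d →ₗ[ℝ] Mt d) (v w v' w' : Fin d → ℝ) :
    Phi P Q (vw v v') (vw w' w) = mi (P (vw v w)) (vw w v) * mi (Q (vw w' v')) (vw v' w') := by
  have h1 : ∀ i j, (vw v v' * Q (vw w' w * P (ee i j) * vw v v') * vw w' w) i j =
      vw v w i j * mi (P (ee i j)) (vw w v) * mi (Q (vw w' v')) (vw v' w') := by
    intro i j
    rw [lim_tri w' w v v', map_smul, Matrix.mul_smul, Matrix.smul_mul, lim_tri v v' w' w,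
      smul_smul, Matrix.smul_apply, smul_eq_mul, lim_mi, lim_mi]
    ring
  have h2 : mi (P (vw v w)) (vw w v) = ∑ i, ∑ j, vw v w i j * mi (P (ee i j)) (vw w v) := by
    have h3 : limT (vw w v) (P (vw v w)) =
        limT (vw w v) (P (∑ i, ∑ j, vw v w i j • ee i j)) := by
      rw [← lim_exp (vw v w)]
    rw [map_sum, map_sum] at h3
    refine h3.trans (Finset.sum_congr rfl fun i _ => ?_)
    rw [map_sum, map_sum]
    refine Finset.sum_congr rfl fun j _ => ?_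
    rw [map_smul, map_smul, smul_eq_mul]
    rfl
  rw [Phi_sum, h2, Finset.sum_mul]
  refine Finset.sum_congr rfl fun i _ => ?_
  rw [Finset.sum_mul]
  exact Finset.sum_congr rfl fun j _ => h1 i j

theorem phi_lim (P Q : Mt d →ₗ[ℝ] Mt d) (g h : Mt d) (v w v' w' : Fin d → ℝ) :
    Tendsto (fun s : ℝ => (s⁻¹) ^ 8 * Phi P Q (Dm v w s * g * Dm v' w' s)
      (Dm v' w' s⁻¹ * h * Dm v w s⁻¹)) atTop
      (𝓝 ((v ⬝ᵥ g *ᵥ v') ^ 2 * (w' ⬝ᵥ h *ᵥ w) ^ 2 *
        (mi (P (vw v w)) (vw w v) * mi (Q (vw w' v')) (vw v' w')))) := by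
  have hg : Tendsto (fun s : ℝ => (s⁻¹ • Dm v w s) * g * (s⁻¹ • Dm v' w' s)) atTop
      (𝓝 (vw v v * g * vw v' v')) :=
    ((lim_a v w).mul tendsto_const_nhds).mul (lim_a v' w')
  have hh : Tendsto (fun s : ℝ => (s⁻¹ • Dm v' w' s⁻¹) * h * (s⁻¹ • Dm v w s⁻¹)) atTop
      (𝓝 (vw w' w' * h * vw w w)) :=
    ((lim_b v' w').mul tendsto_const_nhds).mul (lim_b v w)
  have h1 := ((Phi_cont P Q).tendsto (vw v v * g * vw v' v', vw w' w' * h * vw w w)).comp
    (hg.prodMk_nhds hh)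
  have h2 : Phi P Q (vw v v * g * vw v' v') (vw w' w' * h * vw w w) =
      (v ⬝ᵥ g *ᵥ v') ^ 2 * (w' ⬝ᵥ h *ᵥ w) ^ 2 *
        (mi (P (vw v w)) (vw w v) * mi (Q (vw w' v')) (vw v' w')) := by
    rw [lim_tri, lim_tri, Phi_smul, Phi_rank_one, mul_pow]
  rw [← h2]
  refine h1.congr fun s => ?_
  have e1 : (s⁻¹ • Dm v w s) * g * (s⁻¹ • Dm v' w' s) =
      (s⁻¹ * s⁻¹) • (Dm v w s * g * Dm v' w' s) := by
    rw [Matrix.smul_mul, Matrix.smul_mul, Matrix.mul_smul, smul_smul]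
  have e2 : (s⁻¹ • Dm v' w' s⁻¹) * h * (s⁻¹ • Dm v w s⁻¹) =
      (s⁻¹ * s⁻¹) • (Dm v' w' s⁻¹ * h * Dm v w s⁻¹) := by
    rw [Matrix.smul_mul, Matrix.smul_mul, Matrix.mul_smul, smul_smul]
  have e3 : ((s⁻¹ * s⁻¹) * (s⁻¹ * s⁻¹)) ^ 2 = (s⁻¹) ^ 8 := by ring
  show Phi P Q ((s⁻¹ • Dm v w s) * g * (s⁻¹ • Dm v' w' s))
    ((s⁻¹ • Dm v' w' s⁻¹) * h * (s⁻¹ • Dm v w s⁻¹)) = _
  rw [e1, e2, Phi_smul, e3]

end Pool.Agent.MP417N
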