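import Pool.Agent.Lib.MP_417c68_gt_N.Dexp
import Pool.Agent.Lib.MP_417c68_gt_N.Lim
import Pool.Agent.Lib.MP_417c68_gt_N.Conn

/-!
# MP_417c68_gt, project N, module Alt: if `Phi` is constant then one of the projections is null

PROOF.  Suppose that neither `P` nor `Q` is null: `v ⬝ᵥ w = 0`, `mi (P (vw v w)) (vw w v) ≠ 0`, and
`v' ⬝ᵥ w' = 0`, `mi (Q (vw w' v')) (vw v' w') ≠ 0` (the definition of `Null Q` for the pair
`w'`, `v'`).  None of the four vectors is `0` (`vw 0 w = 0`).  Dividing by the norms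
(`vw (a • v) (b • w) = (a * b) • vw v w`) we may assume `v ⬝ᵥ v = 1` etc.  Take `Y` from `conn` and
put `g = exp Y`, `h = exp (-Y)`.  For `s = exp t` the pairs `(Dm v w s, Dm v w s⁻¹)` and
`(Dm v' w' s, Dm v' w' s⁻¹)` are in `𝒢` (`exp_Dm` for `t` and `-t`, `h2` for
`t • (vw v v - vw w w)`, which is symmetric of trace `0`), so by `h1` the pair
`(Dm v w s * g * Dm v' w' s, Dm v' w' s⁻¹ * h * Dm v w s⁻¹)` is in `𝒢` and `Phi` has the value `c`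
there, for all `s > 0`.  So the function of `phi_lim` is `(s⁻¹)^8 * c` for `s > 0`, it tends to `0`;
uniqueness of limits gives
`(v ⬝ᵥ g *ᵥ v')² (w' ⬝ᵥ h *ᵥ w)² mi (P (vw v w)) (vw w v) mi (Q (vw w' v')) (vw v' w') = 0`, a
contradiction.
-/

noncomputable section

namespace Pool.Agent.MP417N

open Matrix NormedSpace

variable {d : ℕ}

private theorem Alt_vw (a b : ℝ) (v w : Fin d → ℝ) : vw (a • v) (b • w) = (a * b) • vw v w := by
  ext i j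
  simp only [vw, Matrix.vecMulVec_apply, Matrix.smul_apply, Pi.smul_apply, smul_eq_mul]
  ring

private theorem Alt_unit {v : Fin d → ℝ} (hv : v ≠ 0) :
    ∃ a : ℝ, a ≠ 0 ∧ (a • v) ⬝ᵥ (a • v) = 1 := by
  have h1 : 0 < v ⬝ᵥ v := by
    refine lt_of_le_of_ne ?_ ?_
    · unfold dotProduct
      exact Finset.sum_nonneg fun i _ => mul_self_nonneg (v i)
    · intro h
      exact hv (dotProduct_self_eq_zero.1 h.symm)
  have h2 : 0 < Real.sqrt (v ⬝ᵥ v) := Real.sqrt_pos.2 h1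
  refine ⟨(Real.sqrt (v ⬝ᵥ v))⁻¹, inv_ne_zero h2.ne', ?_⟩
  rw [smul_dotProduct, dotProduct_smul, smul_eq_mul, smul_eq_mul, ← mul_assoc, ← mul_inv,
    Real.mul_self_sqrt h1.le, inv_mul_cancel₀ h1.ne']

private theorem Alt_null {P : Mt d →ₗ[ℝ] Mt d} (h : ¬ Null P) :
    ∃ v w : Fin d → ℝ, v ⬝ᵥ v = 1 ∧ w ⬝ᵥ w = 1 ∧ v ⬝ᵥ w = 0 ∧
      mi (P (vw v w)) (vw w v) ≠ 0 := by
  unfold Null at h
  push Not at h
  obtain ⟨v, w, h1, h2⟩ := h
  have hv : v ≠ 0 := by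
    rintro rfl
    apply h2
    have h3 : vw (0 : Fin d → ℝ) w = 0 := by
      ext i j
      simp [vw, Matrix.vecMulVec_apply]
    rw [h3, map_zero, mi_zero_left]
  have hw : w ≠ 0 := by
    rintro rfl
    apply h2
    have h3 : vw v (0 : Fin d → ℝ) = 0 := by
      ext i j
      simp [vw, Matrix.vecMulVec_apply]
    rw [h3, map_zero, mi_zero_left]
  obtain ⟨a, ha, ha1⟩ := Alt_unit hv
  obtain ⟨b, hb, hb1⟩ := Alt_unit hw
  refine ⟨a • v, b • w, ha1, hb1, ?_, ?_⟩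
  · rw [smul_dotProduct, dotProduct_smul, h1, smul_zero, smul_zero]
  · rw [Alt_vw, Alt_vw, map_smul, mi_smul_left, mi_smul_right]
    exact mul_ne_zero (mul_ne_zero ha hb) (mul_ne_zero (mul_ne_zero hb ha) h2)

private theorem Alt_mem {𝒢 : Set (Mt d × Mt d)}
    (h2 : ∀ Y : Mt d, Yᵀ = Y → Y.trace = 0 → (exp Y, exp (-Y)) ∈ 𝒢) {v w : Fin d → ℝ}
    (hv : v ⬝ᵥ v = 1) (hw : w ⬝ᵥ w = 1) (hvw : v ⬝ᵥ w = 0) {s : ℝ} (hs : 0 < s) :
    (Dm v w s, Dm v w s⁻¹) ∈ 𝒢 := by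
  have hsym : (vw v v - vw w w)ᵀ = vw v v - vw w w := by
    rw [Matrix.transpose_sub, vw_transpose, vw_transpose]
  have htr : (vw v v - vw w w).trace = 0 := by
    have h3 : ∀ u : Fin d → ℝ, (vw u u).trace = u ⬝ᵥ u := fun u => by
      simp [vw, Matrix.trace, Matrix.vecMulVec_apply, dotProduct]
    rw [Matrix.trace_sub, h3, h3, hv, hw, sub_self]
  have h3 := h2 (Real.log s • (vw v v - vw w w)) (by rw [Matrix.transpose_smul, hsym])
    (by rw [Matrix.trace_smul, htr, smul_zero])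
  rw [← neg_smul, exp_Dm hv hw hvw, exp_Dm hv hw hvw, Real.exp_neg, Real.exp_log hs] at h3
  exact h3

theorem null_alt {P Q : Mt d →ₗ[ℝ] Mt d} {𝒢 : Set (Mt d × Mt d)}
    (h1 : ∀ p ∈ 𝒢, ∀ q ∈ 𝒢, (p.1 * q.1, q.2 * p.2) ∈ 𝒢)
    (h2 : ∀ Y : Mt d, Yᵀ = Y → Y.trace = 0 → (exp Y, exp (-Y)) ∈ 𝒢) {c : ℝ}
    (h3 : ∀ p ∈ 𝒢, Phi P Q p.1 p.2 = c) : Null P ∨ Null Q := by
  by_contra hcon
  push Not at hcon
  obtain ⟨v, w, hv, hw, hvw, hP⟩ := Alt_null hcon.1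
  obtain ⟨w', v', hw', hv', hwv', hQ⟩ := Alt_null hcon.2
  have hne : ∀ u : Fin d → ℝ, u ⬝ᵥ u = 1 → u ≠ 0 := by
    rintro u hu rfl
    rw [dotProduct_zero] at hu
    exact zero_ne_one hu
  have hvw' : v' ⬝ᵥ w' = 0 := by
    rw [dotProduct_comm]
    exact hwv'
  obtain ⟨Y, hY1, hY2, hY3, hY4⟩ := conn (hne v hv) (hne v' hv') (hne w hw) (hne w' hw')
  have hg := h2 Y hY1 hY2
  have hval : ∀ s : ℝ, 0 < s → Phi P Q (Dm v w s * exp Y * Dm v' w' s)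
      (Dm v' w' s⁻¹ * exp (-Y) * Dm v w s⁻¹) = c := by
    intro s hs
    have e1 := h1 _ (Alt_mem h2 hv hw hvw hs) _ hg
    have e2 := h1 _ e1 _ (Alt_mem h2 hv' hw' hvw' hs)
    have e3 := h3 _ e2
    have e4 : Dm v' w' s⁻¹ * exp (-Y) * Dm v w s⁻¹ =
        Dm v' w' s⁻¹ * (exp (-Y) * Dm v w s⁻¹) := Matrix.mul_assoc _ _ _
    rw [e4]
    exact e3
  have hlim := phi_lim P Q (exp Y) (exp (-Y)) v w v' w'
  have hlim0 : Filter.Tendsto (fun s : ℝ => (s⁻¹) ^ 8 * c) Filter.atTop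
      (nhds ((0 : ℝ) ^ 8 * c)) := (tendsto_inv_atTop_zero.pow 8).mul_const c
  have hev : (fun s : ℝ => (s⁻¹) ^ 8 * Phi P Q (Dm v w s * exp Y * Dm v' w' s)
      (Dm v' w' s⁻¹ * exp (-Y) * Dm v w s⁻¹)) =ᶠ[Filter.atTop]
      fun s : ℝ => (s⁻¹) ^ 8 * c := by
    filter_upwards [Filter.eventually_gt_atTop (0 : ℝ)] with s hs
    rw [hval s hs]
  have huniq := tendsto_nhds_unique (hlim.congr' hev) hlim0
  rw [zero_pow (by norm_num), zero_mul] at huniq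
  have hne2 := mul_ne_zero (mul_ne_zero (pow_ne_zero 2 hY3) (pow_ne_zero 2 hY4))
    (mul_ne_zero hP hQ)
  exact hne2 huniq

end Pool.Agent.MP417N
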