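import Pool.Agent.Lib.MP_417c68_gt_N.GDefs
import Pool.Agent.Lib.MP_417c68_gt_P.J.Crit

/-!
# MP_417c68_gt, project N, module Cen: complementary Lie triples in a simple block have no centre

PROOFS.
* `slq_cen`: let `X = em i x` commute with `P j`, `x` symmetric traceless.  For `a ≠ b` `x`
  commutes with `ee a a - ee b b` and with `ee a b + ee b a` (`SLQ.mem`), so `x` is diagonal with
  equal diagonal entries (`(bk x (ee a a - ee b b)) a b = -2 x a b`,
  `(bk x (ee a b + ee b a)) a b = x a a - x b b`), and the trace is `0`.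
* `cen_pair`: the proof of `twoA_cen` in `P/J/Rk.lean` and its use in `twoAP` (`P/J/Crit.lean`): take
  `⟨B⟩ := bridge hG hK`, `B.dn (P j)` is an ideal (lemma `crit_ideal` in `P/J/Crit.lean`, it is
  private there: copy it), its centre is `⊥` by `slq_cen` (`crit_of_T`, as in `twoAP`), the
  subtriples `B.dn C`, `B.dn A` are complementary (`B.disj_iff`, `B.finrank_up`), so
  `S.cen (B.dn C) = ⊥` by `LTS.nc` (`twoA_cen`, private in `P/J/Rk.lean`: copy it).  An `X ∈ C` which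
  commutes with `C` gives an element of `S.cen (B.dn C)`, so it is `0`.
* `exists_noncom`: otherwise every element of `C` would commute with `C` and be `0`.
-/

noncomputable section

namespace Pool.Agent.MP417N

open Matrix NormedSpace Pool.Agent.MP_417c68_gt Module

variable {n m : ℕ} {N : Fin n → ℕ} {i : Fin n} {G : Subgroup (Alg N)ˣ}
  {P : Fin m → Submodule ℝ (Alg N)}

private theorem cen_twoA {E : Type} [NormedAddCommGroup E] [NormedSpace ℝ E]
    [FiniteDimensional ℝ E] {S : Pool.Agent.MP417P.LTS E}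
    {K : Subgroup (Pool.Agent.MP417P.LTS.GLE E)} (hK : S.Grp K) {I : Submodule ℝ E}
    (hIs : S.Sub I) (hc : S.cen I = ⊥) {A B : Submodule ℝ E} (hAI : A ≤ I) (hBI : B ≤ I)
    (hdim : finrank ℝ A + finrank ℝ B = finrank ℝ I)
    (hd : ∀ k ∈ K, ∀ x ∈ A, ∀ y ∈ B, x = k.1 y → x = 0) : S.cen A = ⊥ := by
  let R : Pool.Agent.MP417P.LTS I := S.res I hIs
  have hA : finrank ℝ (A.comap I.subtype) = finrank ℝ A :=
    (Submodule.comapSubtypeEquivOfLe hAI).finrank_eq
  have hB : finrank ℝ (B.comap I.subtype) = finrank ℝ B :=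
    (Submodule.comapSubtypeEquivOfLe hBI).finrank_eq
  have hcp : Pool.Agent.MP417P.LTS.Cp R.Inn (A.comap I.subtype) (B.comap I.subtype) := by
    refine ⟨fun k hk x hx y hy hxy => ?_, by rw [hA, hB, hdim]⟩
    obtain ⟨m, hm, hm1, _⟩ := Pool.Agent.MP417P.LTS.inn_ext (S := S) (S' := R) (f := I.subtype)
      (fun x y z => rfl) hk
    refine Subtype.ext (hd m (hK.inn hm) x.1 hx y.1 hy ?_)
    have h1 := hm1 y
    rw [← hxy] at h1
    exact h1.symm
  have h1 := S.cen_res_map hIs (R.nc (S.cen_res hIs hc) hcp)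
  rw [Submodule.map_comap_subtype, inf_eq_right.2 hAI] at h1
  exact h1

private theorem cen_comm {X Y : Alg N} (hX : ∀ i, (X i)ᵀ = X i) (hY : ∀ i, (Y i)ᵀ = Y i)
    (h : br (br X Y) X = 0) : X * Y = Y * X := by
  funext i
  have h1 : (X i * Y i - Y i * X i) * X i - X i * (X i * Y i - Y i * X i) = 0 := congrFun h i
  have h2 : fr (X i * Y i - Y i * X i) = 0 := by
    have e1 : (X i * Y i - Y i * X i)ᵀ = -(X i * Y i - Y i * X i) := by
      rw [Matrix.transpose_sub, Matrix.transpose_mul, Matrix.transpose_mul, hX, hY, neg_sub]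
    obtain ⟨A, hA⟩ : ∃ A, A = X i * Y i - Y i * X i := ⟨_, rfl⟩
    rw [← hA] at h1 e1 ⊢
    have e2 : (A * A).trace = 0 := by
      have e3 : A * A = A * X i * Y i - A * Y i * X i := by
        nth_rewrite 2 [hA]
        rw [mul_sub, mul_assoc, mul_assoc]
      rw [e3, Matrix.trace_sub, Matrix.trace_mul_comm (A * Y i) (X i), ← mul_assoc,
        ← Matrix.trace_sub, ← sub_mul, h1, Matrix.zero_mul, Matrix.trace_zero]
    rw [fr, e1, Matrix.neg_mul, Matrix.trace_neg, e2, neg_zero]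
  exact sub_eq_zero.1 (fr_eq_zero h2)

private theorem cen_sym (hG : SelfAdj G) (x : pS G) (i : Fin n) : (x.1 i)ᵀ = x.1 i :=
  ((mem_pS hG.closed).1 x.2).1 i

private theorem cen_of_T (hG : SelfAdj G) (B : Bdg G) {x y : pS G}
    (h : B.S.T (B.φ x) (B.φ y) = 0) : x.1 * y.1 = y.1 * x.1 := by
  refine cen_comm (cen_sym hG x) (cen_sym hG y) ?_
  rw [← B.T_eq x y x, h, LinearMap.zero_apply, map_zero]
  rfl

private theorem cen_T_of (B : Bdg G) {x y : pS G} (h : x.1 * y.1 = y.1 * x.1) :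
    B.S.T (B.φ x) (B.φ y) = 0 := by
  refine LinearMap.ext fun z => ?_
  obtain ⟨w, rfl⟩ := B.φ.surjective z
  have h1 := B.T_eq x y w
  rw [br, br, h, sub_self, zero_mul, mul_zero, sub_self] at h1
  have h2 : B.φ.symm (B.S.T (B.φ x) (B.φ y) (B.φ w)) = 0 := Subtype.ext h1
  rw [LinearMap.zero_apply]
  exact (LinearEquiv.map_eq_zero_iff _).1 h2

private theorem cen_ideal (hG : SelfAdj G) (hP : Ideals G P) (B : Bdg G) (j : Fin m) :
    ∀ x y, ∀ z ∈ B.dn (P j), B.S.T x y z ∈ B.dn (P j) := by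
  obtain ⟨π, hπ, hr⟩ := dcm hG hP B
  intro x y z hz
  rw [← hr] at hz ⊢
  obtain ⟨u, rfl⟩ := hz
  have h := hπ.two j
  have h1 : (LinearMap.id - π j : B.E →ₗ[ℝ] B.E) (π j u) = 0 := by
    rw [LinearMap.sub_apply, hπ.orth, if_pos rfl]
    exact sub_self _
  have h2 := h.hom₂ x y (π j u)
  rw [h1, map_zero] at h2
  have h3 := h.add (B.S.T x y (π j u))
  rw [h2, add_zero] at h3
  rw [← h3]
  exact LinearMap.mem_range_self _ _

private theorem cen_slq_offdiag {Q : Submodule ℝ (Alg N)} (hQ : SLQ i Q) {x : Mt (N i)}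
    (h : ∀ y : Mt (N i), yᵀ = y → y.trace = 0 → x * y = y * x) {a b : Fin (N i)}
    (hab : a ≠ b) : x a b = 0 := by
  have h1 := h (Matrix.single a a 1 - Matrix.single b b 1)
    (by rw [Matrix.transpose_sub, Matrix.transpose_single, Matrix.transpose_single])
    (by rw [Matrix.trace_sub, Matrix.trace_single_eq_same, Matrix.trace_single_eq_same, sub_self])
  have h2 := congrFun (congrFun h1 a) b
  rw [mul_sub, sub_mul, Matrix.sub_apply, Matrix.sub_apply] at h2
  rw [Matrix.mul_single_apply_of_ne _ _ _ _ _ hab.symm,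
    Matrix.mul_single_apply_same, Matrix.single_mul_apply_same,
    Matrix.single_mul_apply_of_ne _ _ _ _ _ hab] at h2
  linarith

private theorem cen_slq_diag {Q : Submodule ℝ (Alg N)} (hQ : SLQ i Q) {x : Mt (N i)}
    (h : ∀ y : Mt (N i), yᵀ = y → y.trace = 0 → x * y = y * x) (a b : Fin (N i)) :
    x a a = x b b := by
  by_cases hab : a = b
  · rw [hab]
  have h1 := h (Matrix.single a b 1 + Matrix.single b a 1)
    (by rw [Matrix.transpose_add, Matrix.transpose_single, Matrix.transpose_single, add_comm])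
    (by rw [Matrix.trace_add, Matrix.trace_single_eq_of_ne _ _ _ hab,
      Matrix.trace_single_eq_of_ne _ _ _ (Ne.symm hab), add_zero])
  have h2 := congrFun (congrFun h1 a) b
  rw [mul_add, add_mul, Matrix.add_apply, Matrix.add_apply] at h2
  rw [Matrix.mul_single_apply_same, Matrix.mul_single_apply_of_ne _ _ _ _ _ (Ne.symm hab),
    Matrix.single_mul_apply_same, Matrix.single_mul_apply_of_ne _ _ _ _ _ hab] at h2
  linarith

theorem slq_cen {Q : Submodule ℝ (Alg N)} (hQ : SLQ i Q) {X : Alg N} (hX : X ∈ Q)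
    (h : ∀ Y ∈ Q, X * Y = Y * X) : X = 0 := by
  have hx := (hQ X).1 hX
  have h1 : ∀ y : Mt (N i), yᵀ = y → y.trace = 0 → X i * y = y * X i := by
    intro y hy hy0
    have h2 := congrFun (h (em i y) (hQ.mem.2 ⟨hy, hy0⟩)) i
    have h3 : X i * (em i y : Alg N) i = (em i y : Alg N) i * X i := h2
    rwa [em_same] at h3
  have h2 : ∀ a b : Fin (N i), a ≠ b → X i a b = 0 := fun a b hab => cen_slq_offdiag hQ h1 hab
  have h3 : ∀ a : Fin (N i), X i a a = 0 := by
    intro a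
    have h4 : (X i).trace = ∑ _b : Fin (N i), X i a a := by
      rw [Matrix.trace]
      exact Finset.sum_congr rfl fun b _ => cen_slq_diag hQ h1 b a
    rw [hx.2.2, Finset.sum_const, Finset.card_univ, Fintype.card_fin, nsmul_eq_mul] at h4
    have h5 : (N i : ℝ) ≠ 0 := by
      have : 0 < N i := lt_of_le_of_lt (Nat.zero_le _) a.2
      positivity
    rcases mul_eq_zero.1 h4.symm with h6 | h6
    · exact absurd h6 h5
    · exact h6
  funext i'
  by_cases hi : i' = i
  · subst hi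
    ext a b
    by_cases hab : a = b
    · subst hab
      exact h3 a
    · exact h2 a b hab
  · exact hx.1 i' hi

theorem cen_pair (hG : SelfAdj G) (hK : Kconn G) (hP : Ideals G P) {j : Fin m}
    (hc : ∀ X ∈ P j, (∀ Y ∈ P j, X * Y = Y * X) → X = 0) {A C : Submodule ℝ (Alg N)}
    (hA : Trp A) (hC : Trp C) (hAP : A ≤ P j) (hCP : C ≤ P j)
    (hd : finrank ℝ A + finrank ℝ C = finrank ℝ (P j))
    (hdis : ∀ k ∈ G, Orth k → ∀ x ∈ A, ∀ y ∈ C, x = cA k y → x = 0) {X : Alg N} (hX : X ∈ C)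
    (h : ∀ Y ∈ C, X * Y = Y * X) : X = 0 := by
  obtain ⟨B⟩ := bridge hG hK
  have hle := Ideals.le hG hP j
  have hI := cen_ideal hG hP B j
  have hIs : B.S.Sub (B.dn (P j)) := fun x _ y _ z hz => hI x y z hz
  have hfr : ∀ V : Submodule ℝ (Alg N), V ≤ pS G → finrank ℝ (B.dn V) = finrank ℝ V := by
    intro V hV
    rw [← B.finrank_up, B.up_dn hV]
  have hcI : B.S.cen (B.dn (P j)) = ⊥ := by
    rw [eq_bot_iff]
    intro x hx
    obtain ⟨X, rfl⟩ := B.φ.surjective x
    obtain ⟨h1, h2⟩ := Pool.Agent.MP417P.LTS.mem_cen.1 hx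
    have h3 := hc X.1 (B.mem_dn.1 h1) (fun Y hY => by
      exact cen_of_T hG B (x := X) (y := ⟨Y, hle hY⟩) (h2 _ (B.mem_dn.2 hY)))
    have h4 : X = 0 := Subtype.ext h3
    rw [h4, map_zero]
    exact Submodule.zero_mem _
  have hmono : ∀ V : Submodule ℝ (Alg N), V ≤ P j → B.dn V ≤ B.dn (P j) := by
    intro V hV x hx
    obtain ⟨X, rfl⟩ := B.φ.surjective x
    exact B.mem_dn.2 (hV (B.mem_dn.1 hx))
  have hd1 := (B.disj_iff (hAP.trans hle) (hCP.trans hle)).2 hdis
  have hd2 : ∀ k ∈ B.K, ∀ x ∈ B.dn C, ∀ y ∈ B.dn A, x = k.1 y → x = 0 := by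
    intro k hk x hx y hy hxy
    have h1 : y = (k⁻¹).1 x := by
      rw [hxy]
      show y = ((k⁻¹).1 * k.1) y
      rw [← Units.val_mul, inv_mul_cancel]
      rfl
    have h2 := hd1 k⁻¹ (B.K.inv_mem hk) y hy x hx h1
    rw [hxy, h2, map_zero]
  have hcC : B.S.cen (B.dn C) = ⊥ := by
    refine cen_twoA B.grp hIs hcI (hmono C hCP) (hmono A hAP) ?_ hd2
    rw [hfr C (hCP.trans hle), hfr A (hAP.trans hle), hfr (P j) hle, add_comm]
    exact hd
  have hXG : X ∈ pS G := hle (hCP hX)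
  have h1 : B.φ ⟨X, hXG⟩ ∈ B.S.cen (B.dn C) := by
    refine Pool.Agent.MP417P.LTS.mem_cen.2 ⟨B.mem_dn.2 hX, fun y hy => ?_⟩
    obtain ⟨Y, rfl⟩ := B.φ.surjective y
    exact cen_T_of B (h Y.1 (B.mem_dn.1 hy))
  rw [hcC, Submodule.mem_bot, LinearEquiv.map_eq_zero_iff] at h1
  exact congrArg Subtype.val h1

theorem exists_noncom (hG : SelfAdj G) (hK : Kconn G) (hP : Ideals G P) {j : Fin m}
    (hQ : SLQ i (P j)) {A C : Submodule ℝ (Alg N)}
    (hA : Trp A) (hC : Trp C) (hAP : A ≤ P j) (hCP : C ≤ P j)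
    (hd : finrank ℝ A + finrank ℝ C = finrank ℝ (P j))
    (hdis : ∀ k ∈ G, Orth k → ∀ x ∈ A, ∀ y ∈ C, x = cA k y → x = 0) (h0 : C ≠ ⊥) :
    ∃ x y : Mt (N i), em i x ∈ C ∧ em i y ∈ C ∧ bk x y ≠ 0 := by
  by_contra hcon
  refine h0 ((Submodule.eq_bot_iff _).2 fun X hX => ?_)
  refine cen_pair hG hK hP (fun Z hZ hZ' => slq_cen hQ hZ hZ') hA hC hAP hCP hd hdis hX ?_
  intro Y hY
  have e1 := hQ.eq (hCP hX)
  have e2 := hQ.eq (hCP hY)
  have h1 : bk (X i) (Y i) = 0 := by
    by_contra h2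
    exact hcon ⟨X i, Y i, by rw [← e1]; exact hX, by rw [← e2]; exact hY, h2⟩
  have h2 : br X Y = 0 := by
    rw [e1, e2, br_em, h1, map_zero]
  exact sub_eq_zero.1 h2

end Pool.Agent.MP417N
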