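import Pool.Agent.Lib.MP_417c68_gt_N.Defs

/-!
# MP_417c68_gt, project N, module CombA: the distances of the weights are `1` or `2`

Notation: `D i j = DD L i j = |L i - L j|²`, `γ = L i - L j`; `D i j > 0` for `i ≠ j` (`inj`).

PROOFS.
* `norm`: let `i ≠ j`.  `str` for `k = i`: `2 (L i ⬝ᵥ γ) = D (1 - b)`, `b ∈ {0, 1}` (`a = 1`: take
  `l = j`).  `str` for `k = j`: `2 (L j ⬝ᵥ γ) = D (a' - 1)` (`b' = 1`: take `l = i`).  The
  difference of the left sides is `2 D`, so `2 = 2 - b - a'`, `b = a' = 0`.  So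
  `2 (L i ⬝ᵥ γ) = D i j`, and `D i j = L i ⬝ᵥ L i + L j ⬝ᵥ L j - 2 (L i ⬝ᵥ L j)`.
  Record also `no1`: there is no `l` with `L l - L i = L i - L j`.
* `tri`: `2 (L k ⬝ᵥ γ) = D k j - D k i` (`norm`), and it is `D i j (a - b)` by `str`.
* `par`: if `i ≠ j` and `D i j ≠ 2` then `NN L i j ≠ 1` by `num`, so there is a pair
  `(k, l) ≠ (i, j)` with `L k - L l = γ`.  `k ≠ i` (else `L l = L j`), `l ≠ j`, `k ≠ l`
  (`γ ≠ 0`), `k ≠ j` and `l ≠ i` (`no1` for `(i, j)` resp. for `(j, i)`).
* `square`: let `δ = L k - L i = L l - L j`.  From `norm`: `|L j + γ|² = |L j|²` and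
  `|L l + γ|² = |L l|²`, so `γ ⬝ᵥ δ = 0`.  `D j k = |γ + δ|² = D i j + D i k`.  By `tri` (for
  `i, k` and the third index `j`: `D k j - D ... `) `D i j - D i k = ε D j k` with
  `ε ∈ {1, 0, -1}`; `ε = ± 1` would give `D i k = 0` or `D i j = 0`.  So `D i k = D i j`,
  `D j k = 2 D i j`.  In the same way for the other sides: `D k l = D i j` (same difference),
  `D j l = D i k`, `D i l = |L i - L l|² = |γ - δ|² = 2 D i j`.
* `one_or_two`: let `D i j ≠ 2` and take the square `i, j, k, l`.  Claim: `D j k = 2` (so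
  `D i j = 1`).  Suppose not and take the square for `(j, k)`: `m, p` with
  `L m - L p = L j - L k`, `j, k, m, p` distinct, `D j m = D j k = 2 D`, `D k m = 2 D j k = 4 D`
  (`D = D i j`).  `i ≠ m`: `D i j = D ≠ 2 D = D m j`.  `tri` for the three indices `i, j, m` gives
  `D i m - D j m = ε D i j`, `D i m - D i j = ε' D j m`, `D j m - D i j = ε'' D i m`, that is
  `D i m = 2 D + ε D = D + 2 ε' D` and `D = ε'' D i m`; so `D i m = D`.  Also `D i k = D`.  So
  `|L k - L m|² = 4 D`, `|L i - L k|² = |L i - L m|² = D`: with `x = L k - L i`, `y = L i - L m`: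
  `|x + y|² = 4 D`, `|x|² = |y|² = D`, so `|x - y|² = 0`, `L k + L m = 2 L i`.  Then
  `4 |L i|² = |L k + L m|² = 2 |L k|² + 2 |L m|² - |L k - L m|² = 4 |L i|² - 4 D` by `norm`, so
  `D = 0`, a contradiction.
-/

noncomputable section

namespace Pool.Agent.MP417N

open Matrix

variable {d : ℕ} {L : Fin d → Fin d → ℝ}

private theorem ca_dd (L : Fin d → Fin d → ℝ) (i j : Fin d) :
    DD L i j = L i ⬝ᵥ L i - 2 * (L i ⬝ᵥ L j) + L j ⬝ᵥ L j := by
  rw [DD, sub_dotProduct, dotProduct_sub, dotProduct_sub, dotProduct_comm (L j) (L i)]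
  ring

private theorem ca_symm (L : Fin d → Fin d → ℝ) (i j : Fin d) : DD L i j = DD L j i := by
  rw [ca_dd, ca_dd, dotProduct_comm (L j) (L i)]
  ring

private theorem ca_pos (h : Wts L) {i j : Fin d} (hij : i ≠ j) : 0 < DD L i j := by
  have h1 : 0 ≤ DD L i j := by
    rw [DD, dotProduct]
    exact Finset.sum_nonneg fun k _ => mul_self_nonneg _
  refine lt_of_le_of_ne h1 fun h2 => hij (h.inj ?_)
  have h3 : L i - L j = 0 := dotProduct_self_eq_zero.1 h2.symm
  exact sub_eq_zero.1 h3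

private theorem ca_core (h : Wts L) {i j : Fin d} (hij : i ≠ j) :
    2 * (L i ⬝ᵥ (L i - L j)) = DD L i j ∧ ¬ ∃ l, L l - L i = L i - L j := by
  have hp := ca_pos h hij
  obtain ⟨a, b, h1, ha, hb⟩ := h.str i j hij i
  obtain ⟨a', b', h1', ha', hb'⟩ := h.str i j hij j
  have ha1 : a = 1 := by
    rcases ha with ha | ha
    · exact ha.1
    · exact absurd ⟨j, rfl⟩ ha.2
  have hb1 : b' = 1 := by
    rcases hb' with hb' | hb'
    · exact hb'.1
    · exact absurd ⟨i, rfl⟩ hb'.2
  have hb0 : 0 ≤ b := by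
    rcases hb with hb | hb
    · rw [hb.1]
      norm_num
    · rw [hb.1]
  have ha0 : 0 ≤ a' := by
    rcases ha' with ha' | ha'
    · rw [ha'.1]
      norm_num
    · rw [ha'.1]
  have h2 : 2 * (L i ⬝ᵥ (L i - L j)) - 2 * (L j ⬝ᵥ (L i - L j)) = 2 * DD L i j := by
    rw [DD, sub_dotProduct]
    ring
  have h3 : DD L i j * (b + a') = 0 := by
    rw [h1, h1', ha1, hb1] at h2
    linarith
  have h4 : b + a' = 0 := by
    rcases mul_eq_zero.1 h3 with h5 | h5
    · exact absurd h5 hp.ne'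
    · exact h5
  have h5 : b = 0 := by linarith
  refine ⟨?_, ?_⟩
  · rw [h1, ha1, h5]
    ring
  · rcases hb with hb | hb
    · rw [hb.1] at h5
      exact absurd h5 one_ne_zero
    · exact hb.2

theorem Wts.norm (h : Wts L) (i j : Fin d) : L i ⬝ᵥ L i = L j ⬝ᵥ L j := by
  rcases eq_or_ne i j with rfl | hij
  · rfl
  · have h1 := (ca_core h hij).1
    rw [ca_dd, dotProduct_sub] at h1
    linarith

theorem Wts.tri (h : Wts L) {i j k : Fin d} (hij : i ≠ j) (hik : i ≠ k) (hjk : j ≠ k) :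
    ∃ e : ℝ, (e = 1 ∨ e = 0 ∨ e = -1) ∧ DD L j k - DD L i k = e * DD L i j := by
  obtain ⟨a, b, h1, ha, hb⟩ := h.str i j hij k
  refine ⟨a - b, ?_, ?_⟩
  · rcases ha with ha | ha <;> rcases hb with hb | hb <;> rw [ha.1, hb.1] <;> norm_num
  · rw [ca_dd, ca_dd L i k, h.norm j i, mul_comm (a - b), ← h1, dotProduct_sub,
      dotProduct_comm (L k) (L i), dotProduct_comm (L k) (L j)]
    ring

/-- a pair `i, j` with `DD L i j ≠ 2` is a side of a square `i, j, l, k` -/
theorem Wts.square (h : Wts L) {i j : Fin d} (hij : i ≠ j) (h2 : DD L i j ≠ 2) :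
    ∃ k l : Fin d, k ≠ i ∧ k ≠ j ∧ l ≠ i ∧ l ≠ j ∧ k ≠ l ∧ L k - L l = L i - L j ∧
      DD L i k = DD L i j ∧ DD L j l = DD L i j ∧ DD L j k = 2 * DD L i j ∧
      DD L i l = 2 * DD L i j := by
  classical
  have hp := ca_pos h hij
  obtain ⟨⟨k, l⟩, hkl, hne⟩ : ∃ q : Fin d × Fin d, L q.1 - L q.2 = L i - L j ∧ q ≠ (i, j) := by
    by_contra hcon
    push Not at hcon
    have h1 := h.num i j hij
    have h3 : (Finset.univ.filter fun p : Fin d × Fin d => L p.1 - L p.2 = L i - L j) =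
        {(i, j)} := by
      ext q
      simp only [Finset.mem_filter, Finset.mem_univ, true_and, Finset.mem_singleton]
      constructor
      · exact hcon q
      · rintro rfl
        rfl
    have h4 : NN L i j = 1 := by
      unfold NN
      rw [← Finset.card_singleton (i, j), ← h3]
    rw [h4, Nat.cast_one, one_mul] at h1
    exact h2 h1
  have hkl' : L k - L l = L i - L j := hkl
  have hki : k ≠ i := by
    rintro rfl
    have h5 : L l = L j := sub_right_injective hkl'
    exact hne (by rw [h.inj h5])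
  have hlj : l ≠ j := by
    rintro rfl
    have h5 : L k = L i := sub_left_injective hkl'
    exact hki (h.inj h5)
  have hkl0 : k ≠ l := by
    rintro rfl
    rw [sub_self] at hkl'
    exact hij (h.inj (sub_eq_zero.1 hkl'.symm))
  have hkj : k ≠ j := by
    rintro rfl
    refine (ca_core h hij.symm).2 ⟨l, ?_⟩
    rw [← neg_sub (L k) (L l), hkl', neg_sub]
  have hli : l ≠ i := by
    rintro rfl
    exact (ca_core h hij).2 ⟨k, hkl'⟩
  have hk : L k = L l + L i - L j := by
    rw [sub_eq_iff_eq_add] at hkl'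
    rw [hkl']
    abel
  have n1 := h.norm i j
  have n2 := h.norm i l
  have n3 := h.norm i k
  have e1 : L k ⬝ᵥ L k = L l ⬝ᵥ L l + L i ⬝ᵥ L i + L j ⬝ᵥ L j + 2 * (L i ⬝ᵥ L l) -
      2 * (L l ⬝ᵥ L j) - 2 * (L i ⬝ᵥ L j) := by
    rw [hk]
    simp only [sub_dotProduct, dotProduct_sub, add_dotProduct, dotProduct_add]
    rw [dotProduct_comm (L j) (L l), dotProduct_comm (L j) (L i), dotProduct_comm (L l) (L i)]
    ring
  have e2 : L j ⬝ᵥ L k = L l ⬝ᵥ L j + L i ⬝ᵥ L j - L j ⬝ᵥ L j := by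
    rw [hk]
    simp only [dotProduct_sub, dotProduct_add]
    rw [dotProduct_comm (L j) (L l), dotProduct_comm (L j) (L i)]
  have e3 : L i ⬝ᵥ L k = L i ⬝ᵥ L l + L i ⬝ᵥ L i - L i ⬝ᵥ L j := by
    rw [hk]
    simp only [dotProduct_sub, dotProduct_add]
  have d1 := ca_dd L i j
  have d2 := ca_dd L l j
  have d3 := ca_dd L i l
  have d4 := ca_dd L j k
  have d5 := ca_dd L i k
  have d6 := ca_symm L j l
  have hlj' := ca_pos h hlj
  obtain ⟨e, he, het⟩ := h.tri hli.symm hij hlj
  have hsum : DD L i l = DD L i j + DD L l j := by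
    rw [d1, d2, d3]
    linarith
  have heq : DD L l j = DD L i j := by
    rcases he with rfl | rfl | rfl
    · linarith
    · linarith
    · linarith
  refine ⟨k, l, hki, hkj, hli, hlj, hkl0, hkl', ?_, ?_, ?_, ?_⟩
  · linarith
  · linarith
  · linarith
  · linarith

theorem Wts.one_or_two (h : Wts L) {i j : Fin d} (hij : i ≠ j) :
    DD L i j = 1 ∨ DD L i j = 2 := by
  by_cases h2 : DD L i j = 2
  · exact Or.inr h2
  · left
    obtain ⟨k, l, hki, hkj, hli, hlj, hkl0, hkl, g1, g2, g3, g4⟩ := h.square hij h2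
    have hp := ca_pos h hij
    by_contra h1
    have h3 : DD L j k ≠ 2 := by
      rw [g3]
      intro h4
      exact h1 (by linarith)
    obtain ⟨m, p, hmj, hmk, hpj, hpk, hmp0, hmp, q1, q2, q3, q4⟩ := h.square hkj.symm h3
    have him : i ≠ m := by
      rintro rfl
      rw [ca_symm L j i, g3] at q1
      linarith
    obtain ⟨e, he, het⟩ := h.tri him hij hmj
    have hx := ca_pos h him
    rw [ca_symm L m j, q1, g3] at het
    have hxD : DD L i m = DD L i j := by
      rcases he with rfl | rfl | rfl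
      · linarith
      · linarith
      · linarith
    have n1 := h.norm i k
    have n2 := h.norm i m
    have d1 := ca_dd L i k
    have d2 := ca_dd L i m
    have d3 := ca_dd L k m
    have h5 : (L k + L m - (L i + L i)) ⬝ᵥ (L k + L m - (L i + L i)) = 0 := by
      simp only [sub_dotProduct, dotProduct_sub, add_dotProduct, dotProduct_add]
      rw [dotProduct_comm (L m) (L k), dotProduct_comm (L k) (L i), dotProduct_comm (L m) (L i)]
      linarith
    have h6 := dotProduct_self_eq_zero.1 h5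
    refine (ca_core h him).2 ⟨k, ?_⟩
    rw [sub_eq_sub_iff_add_eq_add]
    exact sub_eq_zero.1 h6

end Pool.Agent.MP417N
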