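import Pool.Agent.Lib.MP_417c68_gt_N.CombA

/-!
# MP_417c68_gt, project N, module CombB: the two types of weights

PROOF.  Suppose that not all `D i j = DD L i j` (`i ≠ j`) are `2`.  `r = L i ⬝ᵥ L i` is independent
of `i` (`norm`) and `2 (L i ⬝ᵥ L j) = 2 r - D i j`; `D i j ∈ {1, 2}` for `i ≠ j`.
* (T) if `D i j = D i k = 2`, `j ≠ k` (`i, j, k` distinct) then `D j k = 2`: `tri` gives
  `D j k - D i k = e D i j`, so `D j k ∈ {0, 2, 4}`, and `D j k ∈ {1, 2}`.
* (S) if `D i j = 1` then (`square`) there are `k`, `l`, all four distinct, with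
  `L i + L l = L j + L k`, `D j k = D i l = 2`.
* (E) every `i` has an `l ≠ i` with `D i l = 2`: if `D i j = 1` for some `j` this is (S).  If
  `D i j = 2` for all `j ≠ i`, then by (T) `D j k = 2` for all `j ≠ k`, contrary to the assumption.
* (U) if `D i l = D i m = 2` with `l ≠ m` (`i, l, m` distinct): by (T) `D l m = 2`.  By (T) and the
  assumption there is a `j` with `D i j = 1` (otherwise all distances are `2`), and `D l j = 1`
  (if `D l j = 2` then by (T) `D i j = 2`; `l ≠ j` as `D i l ≠ D i j`), in the same way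
  `D m j = 1`.  Apply (S) to `i, j`: `L i + L l' = L j + L k` with `D i l' = 2`, `D j k = 2`;
  choose `m' ∈ {l, m}` different from `l'`, so `D l' m' = 2` (T) and `D m' i = 2`, `D m' j = 1`,
  `D m' k = 1` (if it were `2`, `D m' j = 2` by (T); `m' ≠ k` since `D i m' = 2` and `D i k = 1`).
  The scalar product of `L m'` with both sides:
  `2 r - D m' i / 2 - D m' l' / 2 = 2 r - D m' j / 2 - D m' k / 2`, so `2 = 1`, a contradiction.
* So `ι i` = the unique `l ≠ i` with `D i l = 2` is an involution without fixed points (`DD` is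
  symmetric).
* By (S), (U): for `D i j = 1`: `L i + L (ι i) = L j + L (ι j)` (`l = ι i`, `k = ι j`), and this
  holds trivially for `j = i`, `j = ι i`.  So `s = L i + L (ι i)` is independent of `i`;
  `d s = ∑ i, (L i + L (ι i)) = 2 ∑ i, L i = 0` (`sum`; `ι` is a bijection), `s = 0`,
  `L (ι i) = -L i`.  So `2 = D i (ι i) = 4 r`, `r = 1/2`, `L i ⬝ᵥ L i = 1/2`,
  `L i ⬝ᵥ L (ι i) = -1/2`, and `L i ⬝ᵥ L j = r - 1/2 = 0` for the other `j`.
-/

noncomputable section

namespace Pool.Agent.MP417N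

open Matrix

variable {d : ℕ} {L : Fin d → Fin d → ℝ}

private theorem cb_dd (L : Fin d → Fin d → ℝ) (i j : Fin d) :
    DD L i j = L i ⬝ᵥ L i - 2 * (L i ⬝ᵥ L j) + L j ⬝ᵥ L j := by
  rw [DD, sub_dotProduct, dotProduct_sub, dotProduct_sub, dotProduct_comm (L j) (L i)]
  ring

private theorem cb_symm (L : Fin d → Fin d → ℝ) (i j : Fin d) : DD L i j = DD L j i := by
  rw [cb_dd, cb_dd, dotProduct_comm (L j) (L i)]
  ring

private theorem cb_T (h : Wts L) {i j k : Fin d} (hij : i ≠ j) (hik : i ≠ k) (hjk : j ≠ k)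
    (h1 : DD L i j = 2) (h2 : DD L i k = 2) : DD L j k = 2 := by
  obtain ⟨e, he, het⟩ := h.tri hij hik hjk
  rw [h1, h2] at het
  rcases h.one_or_two hjk with h3 | h3
  · rcases he with rfl | rfl | rfl
    · linarith
    · linarith
    · linarith
  · exact h3

private theorem cb_not2 (h : Wts L) {i j : Fin d} (hij : i ≠ j) (h1 : DD L i j ≠ 2) :
    DD L i j = 1 := by
  rcases h.one_or_two hij with h3 | h3
  · exact h3
  · exact absurd h3 h1

private theorem cb_S (h : Wts L) {i j : Fin d} (hij : i ≠ j) (h1 : DD L i j = 1) :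
    ∃ k l : Fin d, k ≠ i ∧ k ≠ j ∧ l ≠ i ∧ l ≠ j ∧ k ≠ l ∧ L k - L l = L i - L j ∧
      DD L i k = 1 ∧ DD L j k = 2 ∧ DD L i l = 2 := by
  have h2 : DD L i j ≠ 2 := by
    rw [h1]
    norm_num
  obtain ⟨k, l, a1, a2, a3, a4, a5, a6, a7, _, a9, a10⟩ := h.square hij h2
  refine ⟨k, l, a1, a2, a3, a4, a5, a6, ?_, ?_, ?_⟩
  · rw [a7, h1]
  · rw [a9, h1]
    norm_num
  · rw [a10, h1]
    norm_num

private theorem cb_E (h : Wts L) {a b : Fin d} (hab : a ≠ b) (i : Fin d) :
    ∃ l, l ≠ i ∧ DD L i l = 2 := by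
  obtain ⟨j, hj⟩ : ∃ j, i ≠ j := by
    by_cases hi : i = a
    · exact ⟨b, by rw [hi]; exact hab⟩
    · exact ⟨a, hi⟩
  rcases h.one_or_two hj with h1 | h1
  · obtain ⟨k, l, a1, a2, a3, a4, a5, a6, a7, a8, a9⟩ := cb_S h hj h1
    exact ⟨l, a3, a9⟩
  · exact ⟨j, hj.symm, h1⟩

private theorem cb_U' (h : Wts L) {i j m : Fin d} (hij : i ≠ j) (hmi : m ≠ i)
    (h1 : DD L i j = 1) (h2 : DD L i m = 2) :
    ∀ k l : Fin d, k ≠ i → k ≠ j → l ≠ i → l ≠ j → k ≠ l → L k - L l = L i - L j →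
      DD L i k = 1 → DD L j k = 2 → DD L i l = 2 → m = l := by
  intro k l hki hkj hli hlj hkl hL e1 e2 e3
  by_contra hml
  have hmj : m ≠ j := by
    rintro rfl
    rw [h1] at h2
    norm_num at h2
  have hmk : m ≠ k := by
    rintro rfl
    rw [e1] at h2
    norm_num at h2
  have f1 : DD L m l = 2 := cb_T h hmi.symm hli.symm hml h2 e3
  have f2 : DD L m j = 1 := by
    refine cb_not2 h hmj fun f => ?_
    have f3 := cb_T h hmi hmj hij (by rw [cb_symm]; exact h2) f
    rw [h1] at f3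
    norm_num at f3
  have f3 : DD L m k = 1 := by
    refine cb_not2 h hmk fun f => ?_
    have f4 := cb_T h hmk.symm hkj hmj (by rw [cb_symm]; exact f) (by rw [cb_symm]; exact e2)
    rw [f2] at f4
    norm_num at f4
  have g1 : L m ⬝ᵥ (L k - L l) = L m ⬝ᵥ (L i - L j) := by rw [hL]
  rw [dotProduct_sub, dotProduct_sub] at g1
  have f4 : DD L m i = 2 := by
    rw [cb_symm]
    exact h2
  rw [cb_dd] at f1 f2 f3 f4
  have n1 := h.norm m l
  have n2 := h.norm m k
  have n3 := h.norm m i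
  have n4 := h.norm m j
  linarith

private theorem cb_U (h : Wts L) {a b : Fin d} (hab : a ≠ b) (hD : DD L a b ≠ 2)
    {i l m : Fin d} (hli : l ≠ i) (hmi : m ≠ i) (h1 : DD L i l = 2) (h2 : DD L i m = 2) :
    l = m := by
  obtain ⟨j, hij, hj⟩ : ∃ j, i ≠ j ∧ DD L i j = 1 := by
    by_contra hcon
    push Not at hcon
    have hc : ∀ j, i ≠ j → DD L i j = 2 := by
      intro j hj
      rcases h.one_or_two hj with h3 | h3
      · exact absurd h3 (hcon j hj)
      · exact h3
    apply hD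
    by_cases ha : i = a
    · rw [← ha]
      exact hc b (by rw [ha]; exact hab)
    · by_cases hb : i = b
      · rw [← hb, cb_symm]
        exact hc a ha
      · exact cb_T h ha hb hab (hc a ha) (hc b hb)
  obtain ⟨k, l', a1, a2, a3, a4, a5, a6, a7, a8, a9⟩ := cb_S h hij hj
  rw [cb_U' h hij hli hj h1 k l' a1 a2 a3 a4 a5 a6 a7 a8 a9,
    cb_U' h hij hmi hj h2 k l' a1 a2 a3 a4 a5 a6 a7 a8 a9]

theorem wts_class (h : Wts L) : (∀ i j, i ≠ j → DD L i j = 2) ∨
    ∃ ι : Fin d → Fin d, (∀ i, ι (ι i) = i) ∧ (∀ i, ι i ≠ i) ∧ ∀ i j,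
      L i ⬝ᵥ L j = if j = i then 1 / 2 else if j = ι i then -1 / 2 else 0 := by
  by_cases hall : ∀ i j, i ≠ j → DD L i j = 2
  · exact Or.inl hall
  right
  push Not at hall
  obtain ⟨a, b, hab, hD⟩ := hall
  choose ι hι1 hι2 using fun i => cb_E h hab i
  have hinv : ∀ i, ι (ι i) = i := fun i =>
    cb_U h hab hD (hι1 (ι i)) (hι1 i).symm (hι2 (ι i)) (by rw [cb_symm]; exact hι2 i)
  have huniq : ∀ i j, j ≠ i → DD L i j = 2 → j = ι i := fun i j hj h2 =>
    cb_U h hab hD hj (hι1 i) h2 (hι2 i)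
  have hconst : ∀ i j, L i + L (ι i) = L j + L (ι j) := by
    intro i j
    rcases eq_or_ne i j with rfl | hij
    · rfl
    rcases h.one_or_two hij with h1 | h1
    · obtain ⟨k, l, a1, a2, a3, a4, a5, a6, a7, a8, a9⟩ := cb_S h hij h1
      have hl : l = ι i := huniq i l a3 a9
      have hk : k = ι j := huniq j k a2 a8
      rw [← hl, ← hk]
      have h3 : L i + L l = L j + L k := by
        have h4 := sub_eq_sub_iff_add_eq_add.1 a6
        rw [add_comm (L j) (L k), h4]
      exact h3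
    · have hj : j = ι i := huniq i j hij.symm h1
      rw [hj, hinv, add_comm]
  have hneg : ∀ i, L (ι i) = -L i := by
    intro i
    have hb : Function.Bijective ι := Function.Involutive.bijective hinv
    have h1 : ∑ j, (L j + L (ι j)) = 0 := by
      rw [Finset.sum_add_distrib, h.sum, hb.sum_comp L, h.sum, add_zero]
    have h2 : ∑ j, (L j + L (ι j)) = d • (L i + L (ι i)) := by
      rw [Finset.sum_congr rfl fun j _ => hconst j i, Finset.sum_const, Finset.card_univ,
        Fintype.card_fin]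
    rw [h2] at h1
    have hd : d ≠ 0 := by
      rintro rfl
      exact i.elim0
    have h3 : L i + L (ι i) = 0 := (smul_eq_zero.1 h1).resolve_left hd
    exact eq_neg_of_add_eq_zero_right h3
  have hr : ∀ i, L i ⬝ᵥ L i = 1 / 2 := by
    intro i
    have h1 := hι2 i
    rw [cb_dd, hneg, dotProduct_neg, neg_dotProduct, dotProduct_neg] at h1
    linarith
  refine ⟨ι, hinv, hι1, fun i j => ?_⟩
  split_ifs with c1 c2
  · rw [c1]
    exact hr i
  · rw [c2, hneg, dotProduct_neg, hr]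
    norm_num
  · have h1 : DD L i j = 1 := cb_not2 h (Ne.symm c1) fun h2 => c2 (huniq i j c1 h2)
    rw [cb_dd, hr, hr] at h1
    linarith

end Pool.Agent.MP417N
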