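import Mathlib

/-!
# MP_417c68_gt, project N: the factors SL(d,R) are rigid.  Definitions.

Text: `/team-store/TEXT_417c68_N.md`.
-/

noncomputable section

namespace Pool.Agent.MP417N

open Matrix

variable {d : ℕ}

/-- real `d × d` matrices -/
abbrev Mt (d : ℕ) : Type := Matrix (Fin d) (Fin d) ℝ

/-- the scalar product `tr (xᵀ y)` -/
def mi (x y : Mt d) : ℝ := (xᵀ * y).trace

/-- the bracket -/
def bk (x y : Mt d) : Mt d := x * y - y * x

/-- diagonal matrices -/
def dg (c : Fin d → ℝ) : Mt d := Matrix.diagonal c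

/-- matrix units -/
def ee (i j : Fin d) : Mt d := Matrix.single i j 1

/-- the matrix `v wᵀ` -/
def vw (v w : Fin d → ℝ) : Mt d := Matrix.vecMulVec v w

/-- `P` is the orthogonal projection onto `U` -/
structure Prj (U : Submodule ℝ (Mt d)) (P : Mt d →ₗ[ℝ] Mt d) : Prop where
  mem : ∀ x, P x ∈ U
  fix : ∀ x ∈ U, P x = x
  sym : ∀ x y, mi (P x) y = mi x (P y)

/-- `U` is a Lie algebra of traceless matrices, stable under transposition -/
structure LA (U : Submodule ℝ (Mt d)) : Prop where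
  tr : ∀ x ∈ U, xᵀ ∈ U
  br : ∀ x ∈ U, ∀ y ∈ U, bk x y ∈ U
  tz : ∀ x ∈ U, x.trace = 0

/-- the projection kills the highest component: `⟨P x, xᵀ⟩ = 0` for all nilpotent `x` of rank one -/
def Null (P : Mt d →ₗ[ℝ] Mt d) : Prop :=
  ∀ v w : Fin d → ℝ, v ⬝ᵥ w = 0 → mi (P (vw v w)) (vw w v) = 0

/-- the standard frame is adapted to `U`: symmetric elements of `U` which commute with all diagonal
matrices in `U` are diagonal -/
def Frm (U : Submodule ℝ (Mt d)) : Prop :=
  ∀ x ∈ U, xᵀ = x → (∀ c, dg c ∈ U → x * dg c = dg c * x) → ∃ c, x = dg c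

/-- the weights: `Lam P i` is the diagonal of the projection of `E_ii` -/
def Lam (P : Mt d →ₗ[ℝ] Mt d) (i : Fin d) : Fin d → ℝ := fun j => mi (P (ee i i)) (ee j j)

/-- squared distances of the weights -/
def DD (L : Fin d → Fin d → ℝ) (i j : Fin d) : ℝ := (L i - L j) ⬝ᵥ (L i - L j)

/-- elements of weight `γ` -/
def Wt (U : Submodule ℝ (Mt d)) (γ : Fin d → ℝ) (x : Mt d) : Prop :=
  x ∈ U ∧ ∀ c, dg c ∈ U → bk (dg c) x = (γ ⬝ᵥ c) • x

/-- the number of pairs with a given difference of weights -/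
def NN (L : Fin d → Fin d → ℝ) (i j : Fin d) : ℕ :=
  by classical exact (Finset.univ.filter fun p : Fin d × Fin d => L p.1 - L p.2 = L i - L j).card

/-- the combinatorial properties of the weights -/
structure Wts (L : Fin d → Fin d → ℝ) : Prop where
  inj : Function.Injective L
  num : ∀ i j, i ≠ j → (NN L i j : ℝ) * DD L i j = 2
  str : ∀ i j, i ≠ j → ∀ k, ∃ a b : ℝ, 2 * (L k ⬝ᵥ (L i - L j)) = DD L i j * (a - b) ∧
    (a = 1 ∧ (∃ l, L k - L l = L i - L j) ∨ a = 0 ∧ ¬ ∃ l, L k - L l = L i - L j) ∧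
    (b = 1 ∧ (∃ l, L l - L k = L i - L j) ∨ b = 0 ∧ ¬ ∃ l, L l - L k = L i - L j)
  sum : ∑ i, L i = 0

/-- conjugation `x ↦ g x h` (`h` the inverse of `g`) -/
def adL (g h : Mt d) : Mt d →ₗ[ℝ] Mt d where
  toFun x := g * x * h
  map_add' x y := by rw [mul_add, add_mul]
  map_smul' c x := by
    rw [RingHom.id_apply, Matrix.mul_smul, Matrix.smul_mul]

@[simp] theorem adL_apply (g h x : Mt d) : adL g h x = g * x * h := rfl

/-- the function `tr (Ad(g) Q Ad(g)⁻¹ P)` -/
def Phi (P Q : Mt d →ₗ[ℝ] Mt d) (g h : Mt d) : ℝ :=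
  LinearMap.trace ℝ (Mt d) (adL g h ∘ₗ Q ∘ₗ adL h g ∘ₗ P)

/-- the matrix `1 + (s - 1) v vᵀ + (s⁻¹ - 1) w wᵀ` -/
def Dm (v w : Fin d → ℝ) (s : ℝ) : Mt d := 1 + (s - 1) • vw v v + (s⁻¹ - 1) • vw w w

/-! ### basic rules -/

theorem mi_comm (x y : Mt d) : mi x y = mi y x := by
  rw [mi, mi, ← Matrix.trace_transpose, Matrix.transpose_mul, Matrix.transpose_transpose]

theorem mi_add_left (x y z : Mt d) : mi (x + y) z = mi x z + mi y z := by
  rw [mi, mi, mi, Matrix.transpose_add, add_mul, Matrix.trace_add]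

theorem mi_add_right (x y z : Mt d) : mi x (y + z) = mi x y + mi x z := by
  rw [mi, mi, mi, mul_add, Matrix.trace_add]

theorem mi_smul_left (c : ℝ) (x y : Mt d) : mi (c • x) y = c * mi x y := by
  rw [mi, mi, Matrix.transpose_smul, Matrix.smul_mul, Matrix.trace_smul, smul_eq_mul]

theorem mi_smul_right (c : ℝ) (x y : Mt d) : mi x (c • y) = c * mi x y := by
  rw [mi, mi, Matrix.mul_smul, Matrix.trace_smul, smul_eq_mul]

theorem mi_neg_left (x y : Mt d) : mi (-x) y = -mi x y := by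
  rw [mi, mi, Matrix.transpose_neg, neg_mul, Matrix.trace_neg]

theorem mi_neg_right (x y : Mt d) : mi x (-y) = -mi x y := by
  rw [mi, mi, mul_neg, Matrix.trace_neg]

theorem mi_sub_left (x y z : Mt d) : mi (x - y) z = mi x z - mi y z := by
  rw [mi, mi, mi, Matrix.transpose_sub, sub_mul, Matrix.trace_sub]

theorem mi_sub_right (x y z : Mt d) : mi x (y - z) = mi x y - mi x z := by
  rw [mi, mi, mi, mul_sub, Matrix.trace_sub]

theorem mi_zero_left (x : Mt d) : mi 0 x = 0 := by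
  rw [mi, Matrix.transpose_zero, zero_mul, Matrix.trace_zero]

theorem mi_zero_right (x : Mt d) : mi x 0 = 0 := by
  rw [mi, mul_zero, Matrix.trace_zero]

theorem mi_sum (x y : Mt d) : mi x y = ∑ j, ∑ k, x k j * y k j := by
  rw [mi, Matrix.trace]
  exact Finset.sum_congr rfl fun j _ => by
    rw [Matrix.diag_apply, Matrix.mul_apply]
    rfl

theorem mi_self (x : Mt d) : mi x x = ∑ j, ∑ k, x k j ^ 2 := by
  rw [mi_sum]
  exact Finset.sum_congr rfl fun j _ => Finset.sum_congr rfl fun k _ => (sq _).symm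

theorem mi_self_nonneg (x : Mt d) : 0 ≤ mi x x := by
  rw [mi_self]
  exact Finset.sum_nonneg fun j _ => Finset.sum_nonneg fun k _ => sq_nonneg _

theorem mi_self_eq_zero {x : Mt d} (h : mi x x = 0) : x = 0 := by
  rw [mi_self] at h
  ext i j
  have h1 := (Finset.sum_eq_zero_iff_of_nonneg fun j _ =>
    Finset.sum_nonneg fun k _ => sq_nonneg (x k j)).1 h j (Finset.mem_univ j)
  have h2 := (Finset.sum_eq_zero_iff_of_nonneg fun k _ => sq_nonneg (x k j)).1 h1 i
    (Finset.mem_univ i)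
  exact pow_eq_zero_iff (two_ne_zero) |>.1 h2

theorem mi_mul_left (a x y : Mt d) : mi (a * x) y = mi x (aᵀ * y) := by
  rw [mi, mi, Matrix.transpose_mul, Matrix.mul_assoc]

theorem mi_mul_right (a x y : Mt d) : mi (x * a) y = mi x (y * aᵀ) := by
  rw [mi, mi, Matrix.transpose_mul, Matrix.mul_assoc, Matrix.trace_mul_comm, Matrix.mul_assoc]

theorem mi_transpose (x y : Mt d) : mi xᵀ yᵀ = mi x y := by
  rw [mi, Matrix.transpose_transpose, ← Matrix.transpose_transpose (x * yᵀ),
    Matrix.trace_transpose, Matrix.transpose_mul, Matrix.transpose_transpose,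
    Matrix.trace_mul_comm, mi]

theorem mi_bk (a x y : Mt d) : mi (bk a x) y = mi x (bk aᵀ y) := by
  rw [bk, bk, mi_sub_left, mi_sub_right, mi_mul_left, mi_mul_right]

theorem mi_ee_left (i j : Fin d) (x : Mt d) : mi (ee i j) x = x i j := by
  rw [mi_sum]
  rw [Finset.sum_eq_single j, Finset.sum_eq_single i]
  · rw [ee, Matrix.single_apply_same, one_mul]
  · intro k _ hk
    rw [ee, Matrix.single_apply_of_row_ne (Ne.symm hk), zero_mul]
  · intro h
    exact absurd (Finset.mem_univ i) h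
  · intro k _ hk
    exact Finset.sum_eq_zero fun l _ => by
      rw [ee, Matrix.single_apply_of_col_ne _ _ (Ne.symm hk), zero_mul]
  · intro h
    exact absurd (Finset.mem_univ j) h

theorem mi_ee_right (i j : Fin d) (x : Mt d) : mi x (ee i j) = x i j := by
  rw [mi_comm, mi_ee_left]

theorem ee_transpose (i j : Fin d) : (ee i j)ᵀ = ee j i := by
  rw [ee, Matrix.transpose_single, ee]

theorem bk_transpose (x y : Mt d) : (bk x y)ᵀ = bk yᵀ xᵀ := by
  rw [bk, bk, Matrix.transpose_sub, Matrix.transpose_mul, Matrix.transpose_mul]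

theorem dg_transpose (c : Fin d → ℝ) : (dg c)ᵀ = dg c := Matrix.diagonal_transpose c

theorem vw_transpose (v w : Fin d → ℝ) : (vw v w)ᵀ = vw w v := by
  ext i j
  rw [Matrix.transpose_apply, vw, vw, Matrix.vecMulVec_apply, Matrix.vecMulVec_apply, mul_comm]

theorem bk_dg_ee (c : Fin d → ℝ) (i j : Fin d) : bk (dg c) (ee i j) = (c i - c j) • ee i j := by
  ext k l
  rw [bk, Matrix.sub_apply, dg, Matrix.diagonal_mul, Matrix.mul_diagonal, Matrix.smul_apply,
    smul_eq_mul]
  by_cases h : k = i ∧ l = j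
  · obtain ⟨rfl, rfl⟩ := h
    ring
  · have h0 : ee i j k l = 0 := by
      rw [ee, Matrix.single_apply, if_neg]
      rintro ⟨rfl, rfl⟩
      exact h ⟨rfl, rfl⟩
    rw [h0]
    ring

end Pool.Agent.MP417N
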