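import Pool.Agent.Lib.MP_417c68_gt_N.Defs

/-!
# MP_417c68_gt, project N, module Dexp: the exponential of `t (v vᵀ - w wᵀ)`

PROOF.  Let `E = vw v v`, `F = vw w w`; `E * E = E`, `F * F = F`, `E * F = F * E = 0`
(`Matrix.vecMulVec_mul_vecMulVec` or by entries).  For an idempotent `E` one has
`exp (t • E) = 1 + (Real.exp t - 1) • E`: both sides have the value `1` at `t = 0` and satisfy
`f' = f * E`, so `t ↦ (1 + (Real.exp t - 1) • E) * exp (-(t • E))` has derivative `0` (or compare
the power series).  Then `exp (t • (E - F)) = exp (t • E) * exp (-t • F)`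
(`Matrix.exp_add_of_commute`) `= (1 + (exp t - 1) • E) * (1 + (exp (-t) - 1) • F)` and `E * F = 0`.
-/

noncomputable section

namespace Pool.Agent.MP417N

open Matrix NormedSpace

variable {d : ℕ}

theorem exp_idem {E : Mt d} (h : E * E = E) (t : ℝ) :
    exp (t • E) = 1 + (Real.exp t - 1) • E := by
  have hpow : ∀ n : ℕ, E ^ (n + 1) = E := by
    intro n
    induction n with
    | zero => rw [zero_add, pow_one]
    | succ n ih => rw [pow_succ, ih, h]
  have h1 : HasSum (fun n : ℕ => ((n.factorial : ℝ)⁻¹) • t ^ n) (Real.exp t) := by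
    rw [Real.exp_eq_exp_ℝ]
    exact NormedSpace.exp_series_hasSum_exp' t
  have h2 := h1.smul_const E
  have h3 : HasSum (fun n : ℕ => if n = 0 then (1 - E) else 0) (1 - E) := hasSum_ite_eq 0 (1 - E)
  have h4 := h3.add h2
  have hs : HasSum (fun n : ℕ => ((n.factorial : ℝ)⁻¹) • (t • E) ^ n)
      (1 + (Real.exp t - 1) • E) := by
    have e1 : 1 - E + Real.exp t • E = 1 + (Real.exp t - 1) • E := by
      rw [sub_smul, one_smul]
      abel
    have e2 : (fun n : ℕ => ((n.factorial : ℝ)⁻¹) • (t • E) ^ n) =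
        fun n : ℕ => (if n = 0 then (1 - E) else 0) + (((n.factorial : ℝ)⁻¹) • t ^ n) • E := by
      funext n
      rcases n with _ | n
      · rw [if_pos rfl, pow_zero, pow_zero, Nat.factorial_zero, Nat.cast_one, inv_one, one_smul,
          one_smul, one_smul]
        abel
      · rw [if_neg (Nat.succ_ne_zero n), zero_add, smul_pow, hpow, smul_smul, smul_eq_mul]
    rw [e1] at h4
    rw [e2]
    exact h4
  rw [exp_eq_tsum ℝ]
  exact hs.tsum_eq

private theorem Dexp_mul (a b c e : Fin d → ℝ) : vw a b * vw c e = (b ⬝ᵥ c) • vw a e := by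
  ext i j
  rw [Matrix.mul_apply, Matrix.smul_apply, smul_eq_mul, dotProduct, Finset.sum_mul]
  refine Finset.sum_congr rfl fun k _ => ?_
  simp only [vw, Matrix.vecMulVec_apply]
  ring

theorem exp_Dm {v w : Fin d → ℝ} (hv : v ⬝ᵥ v = 1) (hw : w ⬝ᵥ w = 1) (hvw : v ⬝ᵥ w = 0) (t : ℝ) :
    exp (t • (vw v v - vw w w)) = Dm v w (Real.exp t) := by
  have hE : vw v v * vw v v = vw v v := by rw [Dexp_mul, hv, one_smul]
  have hF : vw w w * vw w w = vw w w := by rw [Dexp_mul, hw, one_smul]
  have hEF : vw v v * vw w w = 0 := by rw [Dexp_mul, hvw, zero_smul]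
  have hFE : vw w w * vw v v = 0 := by rw [Dexp_mul, dotProduct_comm, hvw, zero_smul]
  have hc : Commute (t • vw v v) ((-t) • vw w w) := by
    show t • vw v v * ((-t) • vw w w) = (-t) • vw w w * (t • vw v v)
    rw [smul_mul_smul_comm, smul_mul_smul_comm, hEF, hFE, smul_zero, smul_zero]
  have h1 : t • (vw v v - vw w w) = t • vw v v + (-t) • vw w w := by
    rw [smul_sub, neg_smul, sub_eq_add_neg]
  rw [h1, Matrix.exp_add_of_commute _ _ hc, exp_idem hE, exp_idem hF, Dm, Real.exp_neg, mul_add,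
    mul_one, add_mul, one_mul, smul_mul_smul_comm, hEF, smul_zero, add_zero]

end Pool.Agent.MP417N
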