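import Pool.Agent.Lib.MP_417c68_gt_N.Defs

/-!
# MP_417c68_gt, project N, module Frame: adapted frames

PROOFS.
* `joint`: a nonzero subspace `W` of `Fin d → ℝ`, stable under all `x ∈ T` (pairwise commuting
  symmetric matrices), contains a joint eigenvector `w ≠ 0`.  Take a nonzero stable subspace
  `W' ≤ W` of minimal dimension.  For `x ∈ T` the restriction of `x` to `W'` is symmetric for the
  dot product, so it has a real eigenvalue `l` (`LinearMap.IsSymmetric`, finite dimension; e.g.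
  transport to `EuclideanSpace`; or: the maximum of `w ⬝ᵥ x *ᵥ w` on the unit sphere of `W'`); the
  eigenspace `{w ∈ W' : x *ᵥ w = l • w}` is nonzero and stable under `T` (commuting), so it is `W'`.
  So every nonzero `w ∈ W'` is a joint eigenvector.
* `simdiag`: by induction on `k ≤ d` there are `k` orthonormal joint eigenvectors (the orthogonal
  complement of `k < d` of them is nonzero and stable under `T`).  For `k = d` let `O` be the matrix
  with these columns: `Oᵀ * O = 1`, and `x * O = O * dg c`, so `x = O * dg c * Oᵀ`.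
  (Or use `LinearMap.IsSymmetric.directSum_isInternal_of_pairwise_commute` of Mathlib.)
* `exists_frame`: let `A ≤ U` be a subspace of symmetric pairwise commuting matrices of maximal
  dimension, `O` from `simdiag` for `T = A`.  Let `x ∈ cU O U` (that is `O * x * Oᵀ ∈ U`) be
  symmetric and commute with all `dg c ∈ cU O U`.  Then `y = O * x * Oᵀ` is symmetric, in `U`, and
  commutes with all elements `O * dg c * Oᵀ` of `A` (`Oᵀ * O = 1`), so `A ⊔ span {y}` is again a
  subspace of commuting symmetric matrices of `U`; by maximality `y ∈ A`, so `y = O * dg c * Oᵀ` and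
  `x = Oᵀ * y * O = dg c`.
-/

noncomputable section

namespace Pool.Agent.MP417N

open Matrix

variable {d : ℕ}

open scoped Function in
/-- an orthonormal basis of joint eigenvectors -/
private theorem Frame_basis {ι : Type*} (T : ι → Mt d) (hs : ∀ i, (T i)ᵀ = T i)
    (hc : ∀ i j, T i * T j = T j * T i) :
    ∃ b : OrthonormalBasis (Fin d) ℝ (EuclideanSpace ℝ (Fin d)), ∀ i a, ∃ l : ℝ,
      (T i).toEuclideanLin (b a) = l • b a := by
  classical
  have hsym : ∀ i, ((T i).toEuclideanLin).IsSymmetric := by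
    intro i
    rw [Matrix.isSymmetric_toEuclideanLin_iff]
    change (T i)ᴴ = T i
    rw [Matrix.conjTranspose_eq_transpose_of_trivial, hs]
  have hcom : Pairwise (Commute on fun i => (T i).toEuclideanLin) := by
    intro i j _
    change (T i).toEuclideanLin * (T j).toEuclideanLin =
      (T j).toEuclideanLin * (T i).toEuclideanLin
    ext v a
    simp only [Module.End.mul_apply, Matrix.toLpLin_apply, Matrix.mulVec_mulVec, hc i j]
  have hfam := LinearMap.IsSymmetric.orthogonalFamily_iInf_eigenspaces hsym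
  have hint := LinearMap.IsSymmetric.directSum_isInternal_of_pairwise_commute hsym hcom
  have hint2 := DirectSum.isInternal_ne_bot_iff.mpr hint
  have hfin : {χ : ι → ℝ | (⨅ j, Module.End.eigenspace (T j).toEuclideanLin (χ j)) ≠
      ⊥}.Finite := WellFoundedGT.finite_ne_bot_of_iSupIndep hint.submodule_iSupIndep
  have : Fintype {χ : ι → ℝ // (⨅ j, Module.End.eigenspace (T j).toEuclideanLin (χ j)) ≠ ⊥} :=
    hfin.fintype
  have hfam2 : OrthogonalFamily ℝ (fun χ : {χ : ι → ℝ //
      (⨅ j, Module.End.eigenspace (T j).toEuclideanLin (χ j)) ≠ ⊥} =>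
      (⨅ j, Module.End.eigenspace (T j).toEuclideanLin (χ.1 j) :
        Submodule ℝ (EuclideanSpace ℝ (Fin d)))) fun χ => (⨅ j, Module.End.eigenspace
        (T j).toEuclideanLin (χ.1 j)).subtypeₗᵢ := hfam.comp Subtype.val_injective
  refine ⟨hint2.subordinateOrthonormalBasis (finrank_euclideanSpace_fin) hfam2, fun i a => ?_⟩
  have h1 := hint2.subordinateOrthonormalBasis_subordinate (finrank_euclideanSpace_fin) a hfam2
  rw [Submodule.mem_iInf] at h1
  exact ⟨_, Module.End.mem_eigenspace_iff.1 (h1 i)⟩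

theorem simdiag {T : Set (Mt d)} (hs : ∀ x ∈ T, xᵀ = x) (hc : ∀ x ∈ T, ∀ y ∈ T, x * y = y * x) :
    ∃ O : Mt d, Oᵀ * O = 1 ∧ ∀ x ∈ T, ∃ c, x = O * dg c * Oᵀ := by
  obtain ⟨b, hb⟩ := Frame_basis (fun x : T => (x : Mt d)) (fun x => hs x x.2)
    (fun x y => hc x x.2 y y.2)
  have hO : (Matrix.of fun i j => b j i)ᵀ * (Matrix.of fun i j => b j i : Mt d) = 1 := by
    ext i j
    have h1 := orthonormal_iff_ite.1 b.orthonormal i j
    rw [PiLp.inner_apply] at h1
    rw [Matrix.mul_apply, Matrix.one_apply, ← h1]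
    refine Finset.sum_congr rfl fun k _ => ?_
    rw [Matrix.transpose_apply, Matrix.of_apply, Matrix.of_apply, RCLike.inner_apply,
      conj_trivial, mul_comm]
  refine ⟨Matrix.of fun i j => b j i, hO, fun x hx => ?_⟩
  choose c hc' using hb ⟨x, hx⟩
  refine ⟨c, ?_⟩
  have h2 : x * (Matrix.of fun i j => b j i : Mt d) = (Matrix.of fun i j => b j i) * dg c := by
    ext i j
    have h3 := congrArg (fun v : EuclideanSpace ℝ (Fin d) => v i) (hc' j)
    simp only [Matrix.toLpLin_apply, PiLp.smul_apply, smul_eq_mul] at h3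
    rw [dg, Matrix.mul_diagonal, Matrix.of_apply, mul_comm, ← h3]
    rfl
  rw [← h2, mul_assoc, mul_eq_one_comm.1 hO, mul_one]

/-- the subspace `Oᵀ U O` -/
def cU (O : Mt d) (U : Submodule ℝ (Mt d)) : Submodule ℝ (Mt d) := U.comap (adL O Oᵀ)

theorem mem_cU {O : Mt d} {U : Submodule ℝ (Mt d)} {x : Mt d} : x ∈ cU O U ↔ O * x * Oᵀ ∈ U :=
  Iff.rfl

theorem exists_frame (U : Submodule ℝ (Mt d)) : ∃ O : Mt d, Oᵀ * O = 1 ∧ Frm (cU O U) := by
  have hne : {A : Submodule ℝ (Mt d) | A ≤ U ∧ (∀ x ∈ A, xᵀ = x) ∧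
      ∀ x ∈ A, ∀ y ∈ A, x * y = y * x}.Nonempty := by
    refine ⟨⊥, bot_le, ?_, ?_⟩
    · intro x hx
      rw [Submodule.mem_bot] at hx
      rw [hx, Matrix.transpose_zero]
    · intro x hx y _
      rw [Submodule.mem_bot] at hx
      rw [hx, zero_mul, mul_zero]
  obtain ⟨A, ⟨hAU, hAs, hAc⟩, hmax⟩ :=
    (wellFounded_gt : WellFounded ((· > ·) : Submodule ℝ (Mt d) → _ → Prop)).has_min _ hne
  obtain ⟨O, hO, hdiag⟩ := simdiag (T := (A : Set (Mt d))) hAs hAc
  have hO' : O * Oᵀ = 1 := mul_eq_one_comm.1 hO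
  refine ⟨O, hO, fun x hx hxs hxc => ?_⟩
  rw [mem_cU] at hx
  have hys : (O * x * Oᵀ)ᵀ = O * x * Oᵀ := by
    rw [Matrix.transpose_mul, Matrix.transpose_mul, Matrix.transpose_transpose, hxs, mul_assoc]
  have hyc : ∀ a ∈ A, O * x * Oᵀ * a = a * (O * x * Oᵀ) := by
    intro a ha
    obtain ⟨c, hac⟩ := hdiag a ha
    have h1 : dg c ∈ cU O U := by
      rw [mem_cU, ← hac]
      exact hAU ha
    have h2 := hxc c h1
    rw [hac]
    calc O * x * Oᵀ * (O * dg c * Oᵀ) = O * x * (Oᵀ * O) * dg c * Oᵀ := by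
          simp only [mul_assoc]
      _ = O * (x * dg c) * Oᵀ := by rw [hO, mul_one, mul_assoc O x]
      _ = O * (dg c * x) * Oᵀ := by rw [h2]
      _ = O * dg c * (Oᵀ * O) * x * Oᵀ := by rw [hO, mul_one, mul_assoc O (dg c)]
      _ = O * dg c * Oᵀ * (O * x * Oᵀ) := by simp only [mul_assoc]
  have hB : (A ⊔ Submodule.span ℝ {O * x * Oᵀ}) ∈ {A : Submodule ℝ (Mt d) | A ≤ U ∧
      (∀ x ∈ A, xᵀ = x) ∧ ∀ x ∈ A, ∀ y ∈ A, x * y = y * x} := by
    refine ⟨sup_le hAU ?_, ?_, ?_⟩
    · rw [Submodule.span_singleton_le_iff_mem]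
      exact hx
    · intro z hz
      obtain ⟨a, ha, s, hs, rfl⟩ := Submodule.mem_sup.1 hz
      obtain ⟨t, rfl⟩ := Submodule.mem_span_singleton.1 hs
      rw [Matrix.transpose_add, Matrix.transpose_smul, hys, hAs a ha]
    · intro z hz w hw
      obtain ⟨a, ha, s, hs, rfl⟩ := Submodule.mem_sup.1 hz
      obtain ⟨t, rfl⟩ := Submodule.mem_span_singleton.1 hs
      obtain ⟨a', ha', s', hs', rfl⟩ := Submodule.mem_sup.1 hw
      obtain ⟨t', rfl⟩ := Submodule.mem_span_singleton.1 hs'
      rw [add_mul, add_mul, mul_add, mul_add, mul_add, mul_add, hAc a ha a' ha']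
      simp only [Matrix.smul_mul, Matrix.mul_smul]
      rw [hyc a ha, hyc a' ha', smul_comm t t']
      abel
  have hle : A ⊔ Submodule.span ℝ {O * x * Oᵀ} ≤ A := by
    by_contra h
    exact hmax _ hB (lt_of_le_not_ge le_sup_left h)
  have hyA : O * x * Oᵀ ∈ A :=
    hle (Submodule.mem_sup_right (Submodule.mem_span_singleton_self _))
  obtain ⟨c, hc⟩ := hdiag _ hyA
  refine ⟨c, ?_⟩
  calc x = (Oᵀ * O) * x * (Oᵀ * O) := by rw [hO, one_mul, mul_one]
    _ = Oᵀ * (O * x * Oᵀ) * O := by simp only [mul_assoc]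
    _ = Oᵀ * (O * dg c * Oᵀ) * O := by rw [hc]
    _ = (Oᵀ * O) * dg c * (Oᵀ * O) := by simp only [mul_assoc]
    _ = dg c := by rw [hO, one_mul, mul_one]

end Pool.Agent.MP417N
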