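import Pool.Agent.Lib.MP_417c68_gt_N.PrjA
import Pool.Agent.Lib.MP_417c68_gt_T.Indec

/-!
# MP_417c68_gt, project N, module GDefs: one block of the group
-/

noncomputable section

namespace Pool.Agent.MP417N

open Matrix NormedSpace Pool.Agent.MP_417c68_gt

variable {n : ℕ} {N : Fin n → ℕ} {i : Fin n}

/-- the element of `∏ M_{N i}(ℝ)` with block `i` equal to `x` and all other blocks `0` -/
def em (i : Fin n) : Mt (N i) →ₗ[ℝ] Alg N :=
  LinearMap.single ℝ (fun i => Matrix (Fin (N i)) (Fin (N i)) ℝ) i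

theorem em_same (x : Mt (N i)) : (em i x : Alg N) i = x :=
  Pi.single_eq_same (M := fun i => Matrix (Fin (N i)) (Fin (N i)) ℝ) i x

theorem em_ne (x : Mt (N i)) {i' : Fin n} (h : i' ≠ i) : (em i x : Alg N) i' = 0 :=
  Pi.single_eq_of_ne (M := fun i => Matrix (Fin (N i)) (Fin (N i)) ℝ) h x

theorem em_ext {X : Alg N} {x : Mt (N i)} (h : X i = x) (h' : ∀ i', i' ≠ i → X i' = 0) :
    X = em i x := by
  funext i'
  by_cases hi : i' = i
  · subst hi
    rw [em_same, h]
  · rw [em_ne x hi, h' i' hi]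

theorem em_inj {x y : Mt (N i)} (h : (em i x : Alg N) = em i y) : x = y := by
  have h1 := congrFun h i
  rwa [em_same, em_same] at h1

theorem br_em (x y : Mt (N i)) : br (em i x : Alg N) (em i y) = em i (bk x y) := by
  refine em_ext ?_ fun i' hi => ?_
  · show (em i x : Alg N) i * (em i y : Alg N) i - (em i y : Alg N) i * (em i x : Alg N) i = bk x y
    rw [em_same, em_same]
    rfl
  · show (em i x : Alg N) i' * (em i y : Alg N) i' - (em i y : Alg N) i' * (em i x : Alg N) i' = 0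
    rw [em_ne x hi, em_ne y hi, mul_zero, sub_zero]

theorem cA_em (g : (Alg N)ˣ) (x : Mt (N i)) :
    cA g (em i x : Alg N) = em i (g.1 i * x * (g⁻¹).1 i) := by
  refine em_ext ?_ fun i' hi => ?_
  · show g.1 i * (em i x : Alg N) i * (g⁻¹).1 i = g.1 i * x * (g⁻¹).1 i
    rw [em_same]
  · show g.1 i' * (em i x : Alg N) i' * (g⁻¹).1 i' = 0
    rw [em_ne x hi, mul_zero, zero_mul]

/-- `Q` consists of all symmetric matrices of trace `0` in the block `i` (and `0` in the other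
blocks) -/
def SLQ (i : Fin n) (Q : Submodule ℝ (Alg N)) : Prop :=
  ∀ X : Alg N, X ∈ Q ↔ (∀ i', i' ≠ i → X i' = 0) ∧ (X i)ᵀ = X i ∧ (X i).trace = 0

variable {Q : Submodule ℝ (Alg N)}

theorem SLQ.mem (h : SLQ i Q) {x : Mt (N i)} : em i x ∈ Q ↔ xᵀ = x ∧ x.trace = 0 := by
  rw [h, em_same]
  exact ⟨fun h1 => h1.2, fun h1 => ⟨fun i' hi => em_ne x hi, h1⟩⟩

theorem SLQ.eq (h : SLQ i Q) {X : Alg N} (hX : X ∈ Q) : X = em i (X i) :=
  em_ext rfl ((h X).1 hX).1

/-- the block `i` of the Lie algebra generated by `V` -/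
def UA (i : Fin n) (V : Submodule ℝ (Alg N)) : Submodule ℝ (Mt (N i)) := (gV V).comap (em i)

theorem mem_UA {V : Submodule ℝ (Alg N)} {x : Mt (N i)} : x ∈ UA i V ↔ em i x ∈ gV V := Iff.rfl

end Pool.Agent.MP417N
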