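import Pool.Agent.Lib.MP_417c68_gt_N.GDefs

/-!
# MP_417c68_gt, project N, module LaUA: the Lie algebra generated by a Lie triple in one block

`V` is a Lie triple of symmetric traceless matrices of the block `i`.

PROOFS (`gV V = V ⊔ kV V`, `kV V` = span of the brackets; see `P/I/AdInv.lean`).
* `blk_gV`: every element of `gV V` is `em i x`: true for `V` (`SLQ.eq`), for brackets (`br_em`),
  and stable under sums and multiples (`Submodule.span_induction`).
* `gV_br`: `[V, gV] ⊆ gV` is `br_gV`; for `B = br Y Z` and `B' ∈ kV V`: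
  `br B B' = br Y (br Z B') - br Z (br Y B')`, `br Z B' = -(br B' Z) ∈ V` (`kV_br`), so this is in
  `kV V`; `br B X = ...` for `X ∈ V` is `kV_br`; linearity in `B` by `Submodule.span_induction`.
* `la_UA`: `tr`: `em i x = Y + B` with `Y ∈ V`, `B ∈ kV V`; `em i xᵀ = Y - B` (`hV.sym`,
  `kV_skew`, compare the blocks).  `br`: `gV_br`, `br_em`.  `tz`: elements of `V` have trace `0` in
  the block `i`, brackets too (`Matrix.trace_mul_comm`).
* `sym_UA`: `gV_sym`; the blocks `i' ≠ i` of `em i x` are `0`.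
-/

noncomputable section

namespace Pool.Agent.MP417N

open Matrix NormedSpace Pool.Agent.MP_417c68_gt

variable {n : ℕ} {N : Fin n → ℕ} {i : Fin n} {Q V : Submodule ℝ (Alg N)}

private theorem laUA_br_add (X Y Z : Alg N) : br X (Y + Z) = br X Y + br X Z := by
  unfold br
  noncomm_ring

private theorem laUA_add_br (X Y Z : Alg N) : br (X + Y) Z = br X Z + br Y Z := by
  unfold br
  noncomm_ring

private theorem laUA_smul_br (c : ℝ) (X Y : Alg N) : br (c • X) Y = c • br X Y := by
  unfold br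
  rw [smul_mul_assoc, mul_smul_comm, smul_sub]

private theorem laUA_br_neg (X Y : Alg N) : br X Y = -br Y X := by
  unfold br
  rw [neg_sub]

private theorem laUA_zero_br (Y : Alg N) : br 0 Y = 0 := by
  unfold br
  rw [zero_mul, mul_zero, sub_zero]

private theorem laUA_jac (X Y Z : Alg N) : br (br X Y) Z = br X (br Y Z) - br Y (br X Z) := by
  unfold br
  noncomm_ring

private theorem laUA_kk (hV : Trp V) {A B : Alg N} (hA : A ∈ kV V) (hB : B ∈ kV V) :
    br A B ∈ kV V := by
  refine Submodule.span_induction (p := fun A _ => br A B ∈ kV V) ?_ ?_ ?_ ?_ hA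
  · rintro _ ⟨Y, hY, Z, hZ, rfl⟩
    rw [laUA_jac, laUA_br_neg Z B, laUA_br_neg Y B]
    refine Submodule.sub_mem _ ?_ ?_
    · exact Submodule.subset_span ⟨Y, hY, _, V.neg_mem (kV_br hV hB hZ), rfl⟩
    · exact Submodule.subset_span ⟨Z, hZ, _, V.neg_mem (kV_br hV hB hY), rfl⟩
  · rw [laUA_zero_br]
    exact Submodule.zero_mem _
  · intro X Y _ _ hX hY
    rw [laUA_add_br]
    exact Submodule.add_mem _ hX hY
  · intro c X _ hX
    rw [laUA_smul_br]
    exact Submodule.smul_mem _ c hX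

theorem gV_br (hV : Trp V) {X Y : Alg N} (hX : X ∈ gV V) (hY : Y ∈ gV V) : br X Y ∈ gV V := by
  obtain ⟨A, hA, B, hB, rfl⟩ := Submodule.mem_sup.1 hX
  rw [laUA_add_br]
  refine Submodule.add_mem _ (br_gV hV hA hY) ?_
  obtain ⟨C, hC, D, hD, rfl⟩ := Submodule.mem_sup.1 hY
  rw [laUA_br_add]
  exact Submodule.add_mem_sup (kV_br hV hB hC) (laUA_kk hV hB hD)

private theorem laUA_em (hQ : SLQ i Q) (hVQ : V ≤ Q) {B : Alg N} (hB : B ∈ kV V) :
    ∃ x : Mt (N i), B = em i x ∧ x.trace = 0 := by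
  refine Submodule.span_induction
    (p := fun B _ => ∃ x : Mt (N i), B = em i x ∧ x.trace = 0) ?_ ?_ ?_ ?_ hB
  · rintro _ ⟨Y, hY, Z, hZ, rfl⟩
    refine ⟨bk (Y i) (Z i), ?_, ?_⟩
    · rw [← br_em, ← hQ.eq (hVQ hY), ← hQ.eq (hVQ hZ)]
    · unfold bk
      rw [Matrix.trace_sub, Matrix.trace_mul_comm, sub_self]
  · exact ⟨0, (map_zero _).symm, Matrix.trace_zero _ _⟩
  · rintro X Y _ _ ⟨x, rfl, hx⟩ ⟨y, rfl, hy⟩
    exact ⟨x + y, (map_add _ _ _).symm, by rw [Matrix.trace_add, hx, hy, add_zero]⟩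
  · rintro c X _ ⟨x, rfl, hx⟩
    exact ⟨c • x, (map_smul _ _ _).symm, by rw [Matrix.trace_smul, hx, smul_zero]⟩

theorem blk_gV (hQ : SLQ i Q) (hVQ : V ≤ Q) {X : Alg N} (hX : X ∈ gV V) : X = em i (X i) := by
  obtain ⟨A, hA, B, hB, rfl⟩ := Submodule.mem_sup.1 hX
  obtain ⟨x, rfl, -⟩ := laUA_em hQ hVQ hB
  have h1 : (A + em i x : Alg N) i = A i + x := by
    show A i + (em i x : Alg N) i = A i + x
    rw [em_same]
  rw [h1, map_add, ← hQ.eq (hVQ hA)]

theorem la_UA (hQ : SLQ i Q) (hV : Trp V) (hVQ : V ≤ Q) : LA (UA i V) := by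
  refine ⟨?_, ?_, ?_⟩
  · intro x hx
    obtain ⟨A, hA, B, hB, hAB⟩ := Submodule.mem_sup.1 (mem_UA.1 hx)
    have h1 : em i xᵀ = A - B := by
      refine (em_ext ?_ fun i' hi => ?_).symm
      · have h2 : A i + B i = x := by
          have h3 := congrFun hAB i
          rwa [em_same] at h3
        rw [← h2, Matrix.transpose_add, hV.sym A hA i, kV_skew hV hB i, ← sub_eq_add_neg]
        rfl
      · have h2 : A i' + B i' = 0 := by
          have h3 := congrFun hAB i'
          rwa [em_ne x hi] at h3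
        have h4 : A i' - B i' = 0 := by
          have h5 := congrArg Matrix.transpose h2
          rwa [Matrix.transpose_add, hV.sym A hA i', kV_skew hV hB i', ← sub_eq_add_neg,
            Matrix.transpose_zero] at h5
        exact h4
    rw [mem_UA, h1, sub_eq_add_neg]
    exact Submodule.add_mem_sup hA (Submodule.neg_mem _ hB)
  · intro x hx y hy
    rw [mem_UA, ← br_em]
    exact gV_br hV hx hy
  · intro x hx
    obtain ⟨A, hA, B, hB, hAB⟩ := Submodule.mem_sup.1 (mem_UA.1 hx)
    obtain ⟨y, hy, hyt⟩ := laUA_em hQ hVQ hB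
    have h2 : x = A i + y := by
      have h3 := congrFun hAB i
      rw [em_same, hy] at h3
      rw [← h3]
      show A i + (em i y : Alg N) i = A i + y
      rw [em_same]
    rw [h2, Matrix.trace_add, hyt, add_zero]
    exact ((hQ A).1 (hVQ hA)).2.2

theorem sym_UA (hV : Trp V) {x : Mt (N i)} (hx : x ∈ UA i V) (hs : xᵀ = x) : em i x ∈ V := by
  refine gV_sym hV hx fun i' => ?_
  by_cases hi : i' = i
  · subst hi
    rw [em_same, hs]
  · rw [em_ne x hi, Matrix.transpose_zero]

end Pool.Agent.MP417N
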