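import Pool.Agent.Lib.MP_417c68_gt_N.Null2

/-!
# MP_417c68_gt, project N, module Null2b: the combinatorial properties of the weights

PROOFS (`L = Lam P`, `γ = L i - L j`, `D = DD L i j = γ ⬝ᵥ γ`, `i ≠ j`, so `γ ≠ 0`; `e = P (ee i j)`,
`|e|² = D / 2` by `P_sq`).
* `P_entry`: `e k l = mi e (P (ee k l))` (`entry`).  If `L k - L l ≠ γ` this is `0` (`wt_orth`,
  `P_wt`, `Lam_mem`).  If `L k - L l = γ` then `k ≠ l`, `|P (ee k l)|² = DD L k l / 2 = D / 2`, so
  `P (ee k l) = ± e` (`wt_pm`) and `(e k l)² = (D / 2)²`.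
* `num`: `D / 2 = |e|² = ∑ k l, (e k l)² = NN L i j * (D / 2)²` (`mi_self`; the sum over pairs) and
  `D ≠ 0`.
* `str`: `bk e eᵀ = |e|² • dg γ` (`bk_wt`).  Its `(k, k)` entry is
  `∑ l, (e k l)² - ∑ l, (e l k)²`.  As `L` is injective there is at most one `l` with `L k - L l = γ`
  and at most one with `L l - L k = γ`, so the sums are `a (D / 2)²` and `b (D / 2)²` with `a`, `b`
  as in the statement.  `γ k = L k ⬝ᵥ γ`: `L k ⬝ᵥ L i = L k i = L i k` (`Lam_Lam`, `Lam_symm`).  So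
  `(D / 2) (L k ⬝ᵥ γ) = (D / 2)² (a - b)`.
* `sum`: `∑ i, P (ee i i) = P 1 = 0` (`Prj.perp`: `mi 1 y = y.trace = 0` for `y ∈ U`), so
  `dg (∑ i, L i) = 0`.
-/

noncomputable section

namespace Pool.Agent.MP417N

open Matrix

variable {d : ℕ} {U : Submodule ℝ (Mt d)} {P : Mt d →ₗ[ℝ] Mt d}

private theorem null2b_dg_sub (hU : LA U) (hP : Prj U P) (hF : Frm U) (i j : Fin d) :
    dg (Lam P i - Lam P j) ∈ U := by
  have h : dg (Lam P i - Lam P j) = dg (Lam P i) - dg (Lam P j) := by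
    rw [dg, dg, dg, Matrix.diagonal_sub]
    rfl
  rw [h]
  exact U.sub_mem (Lam_mem hU hP hF i) (Lam_mem hU hP hF j)

private theorem null2b_ne (hi : Function.Injective (Lam P)) {i j : Fin d} (h : i ≠ j) :
    Lam P i - Lam P j ≠ 0 := fun h0 => h (hi (sub_eq_zero.1 h0))

theorem P_entry (hU : LA U) (hP : Prj U P) (hF : Frm U) (hN : Null P)
    (hi : Function.Injective (Lam P)) {i j : Fin d} (h : i ≠ j) (k l : Fin d) :
    (Lam P k - Lam P l = Lam P i - Lam P j → (P (ee i j) k l) ^ 2 = (DD (Lam P) i j / 2) ^ 2) ∧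
      (Lam P k - Lam P l ≠ Lam P i - Lam P j → P (ee i j) k l = 0) := by
  have hγ := null2b_dg_sub hU hP hF i j
  have h0 := null2b_ne (P := P) hi h
  constructor
  · intro hkl
    have hne : k ≠ l := by
      rintro rfl
      rw [sub_self] at hkl
      exact h0 hkl.symm
    have h1 := P_sq hU hP hF hN h
    have h2 := P_sq hU hP hF hN hne
    have h3 : DD (Lam P) k l = DD (Lam P) i j := by rw [DD, DD, hkl]
    have h4 : mi (P (ee k l)) (P (ee k l)) = mi (P (ee i j)) (P (ee i j)) := by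
      rw [h3] at h2
      linarith
    have h5 : Wt U (Lam P i - Lam P j) (P (ee k l)) := by
      have := P_wt hU hP hF k l
      rwa [hkl] at this
    have h6 : mi (P (ee i j)) (P (ee i j)) = DD (Lam P) i j / 2 := by linarith
    rw [entry hP (hP.mem (ee i j)) k l]
    rcases wt_pm hU hP hF hN hγ h0 (P_wt hU hP hF i j) h5 h4 with h7 | h7
    · rw [h7, h6]
    · rw [h7, mi_neg_right, h6, neg_sq]
  · intro hkl
    rw [entry hP (hP.mem (ee i j)) k l]
    exact wt_orth hγ (null2b_dg_sub hU hP hF k l) hkl.symm (P_wt hU hP hF i j) (P_wt hU hP hF k l)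

private theorem null2b_DD (hi : Function.Injective (Lam P)) {i j : Fin d} (h : i ≠ j) :
    DD (Lam P) i j ≠ 0 := by
  rw [DD]
  intro h0
  exact null2b_ne (P := P) hi h (dotProduct_self_eq_zero.1 h0)

private theorem null2b_num (hU : LA U) (hP : Prj U P) (hF : Frm U) (hN : Null P)
    (hi : Function.Injective (Lam P)) {i j : Fin d} (h : i ≠ j) :
    (NN (Lam P) i j : ℝ) * DD (Lam P) i j = 2 := by
  have h1 : mi (P (ee i j)) (P (ee i j)) = (NN (Lam P) i j : ℝ) * (DD (Lam P) i j / 2) ^ 2 := by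
    rw [mi_self, Finset.sum_comm, ← Fintype.sum_prod_type', NN, ← nsmul_eq_mul,
      ← Finset.sum_const, Finset.sum_filter]
    refine Finset.sum_congr rfl fun p _ => ?_
    have hp := P_entry hU hP hF hN hi h p.1 p.2
    split_ifs with hc
    · exact hp.1 hc
    · rw [hp.2 hc]
      norm_num
  have h2 := P_sq hU hP hF hN h
  have h3 := null2b_DD (P := P) hi h
  rw [h1] at h2
  have h4 : DD (Lam P) i j * ((NN (Lam P) i j : ℝ) * DD (Lam P) i j) =
      DD (Lam P) i j * 2 := by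
    linear_combination 2 * h2
  exact mul_left_cancel₀ h3 h4

private theorem null2b_row {f : Fin d → ℝ} {q : Fin d → Prop} {c : ℝ}
    (h1 : ∀ l, q l → f l ^ 2 = c) (h2 : ∀ l, ¬ q l → f l = 0)
    (h3 : ∀ l l', q l → q l' → l = l') :
    ∃ a : ℝ, ∑ l, f l ^ 2 = a * c ∧ (a = 1 ∧ (∃ l, q l) ∨ a = 0 ∧ ¬ ∃ l, q l) := by
  by_cases h : ∃ l, q l
  · obtain ⟨l, hl⟩ := h
    refine ⟨1, ?_, Or.inl ⟨rfl, l, hl⟩⟩
    rw [Finset.sum_eq_single l, h1 l hl, one_mul]
    · intro m _ hm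
      rw [h2 m fun hq => hm (h3 m l hq hl)]
      norm_num
    · intro hl'
      exact absurd (Finset.mem_univ l) hl'
  · refine ⟨0, ?_, Or.inr ⟨rfl, h⟩⟩
    rw [zero_mul]
    refine Finset.sum_eq_zero fun l _ => ?_
    rw [h2 l fun hq => h ⟨l, hq⟩]
    norm_num

private theorem null2b_str (hU : LA U) (hP : Prj U P) (hF : Frm U) (hN : Null P)
    (hi : Function.Injective (Lam P)) {i j : Fin d} (h : i ≠ j) (k : Fin d) :
    ∃ a b : ℝ, 2 * (Lam P k ⬝ᵥ (Lam P i - Lam P j)) = DD (Lam P) i j * (a - b) ∧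
    (a = 1 ∧ (∃ l, Lam P k - Lam P l = Lam P i - Lam P j) ∨
      a = 0 ∧ ¬ ∃ l, Lam P k - Lam P l = Lam P i - Lam P j) ∧
    (b = 1 ∧ (∃ l, Lam P l - Lam P k = Lam P i - Lam P j) ∨
      b = 0 ∧ ¬ ∃ l, Lam P l - Lam P k = Lam P i - Lam P j) := by
  have hγ := null2b_dg_sub hU hP hF i j
  obtain ⟨a, ha, ha'⟩ := null2b_row (f := fun l => P (ee i j) k l)
    (q := fun l => Lam P k - Lam P l = Lam P i - Lam P j)
    (fun l => (P_entry hU hP hF hN hi h k l).1) (fun l => (P_entry hU hP hF hN hi h k l).2)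
    (fun l l' hl hl' => hi (sub_right_injective (hl.trans hl'.symm)))
  obtain ⟨b, hb, hb'⟩ := null2b_row (f := fun l => P (ee i j) l k)
    (q := fun l => Lam P l - Lam P k = Lam P i - Lam P j)
    (fun l => (P_entry hU hP hF hN hi h l k).1) (fun l => (P_entry hU hP hF hN hi h l k).2)
    (fun l l' hl hl' => hi (sub_left_injective (hl.trans hl'.symm)))
  refine ⟨a, b, ?_, ha', hb'⟩
  have h1 := bk_wt hU hP hF hN hγ (P_wt hU hP hF i j) (P_wt hU hP hF i j)
  have h2 := congrFun (congrFun h1 k) k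
  rw [bk, Matrix.sub_apply, Matrix.mul_apply, Matrix.mul_apply, Matrix.smul_apply, dg,
    Matrix.diagonal_apply_eq, smul_eq_mul] at h2
  have h3 : ∑ l, P (ee i j) k l * (P (ee i j))ᵀ l k = ∑ l, P (ee i j) k l ^ 2 :=
    Finset.sum_congr rfl fun l _ => by rw [Matrix.transpose_apply, sq]
  have h4 : ∑ l, (P (ee i j))ᵀ k l * P (ee i j) l k = ∑ l, P (ee i j) l k ^ 2 :=
    Finset.sum_congr rfl fun l _ => by rw [Matrix.transpose_apply, sq]
  rw [h3, h4, ha, hb] at h2
  have h5 := P_sq hU hP hF hN h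
  have h6 := null2b_DD (P := P) hi h
  have h7 := Lam_dot hU hP hF hγ k
  rw [h7]
  have h8 : DD (Lam P) i j * (2 * (Lam P i - Lam P j) k) =
      DD (Lam P) i j * (DD (Lam P) i j * (a - b)) := by
    linear_combination (-4) * h2 - 2 * (Lam P i - Lam P j) k * h5
  exact mul_left_cancel₀ h6 h8

private theorem null2b_one : ∑ i : Fin d, ee i i = (1 : Mt d) := by
  ext k l
  rw [Matrix.sum_apply]
  by_cases h : k = l
  · subst h
    rw [Matrix.one_apply_eq, Finset.sum_eq_single k]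
    · rw [ee, Matrix.single_apply_same]
    · intro m _ hm
      rw [ee, Matrix.single_apply_of_row_ne hm]
    · intro hk
      exact absurd (Finset.mem_univ k) hk
  · rw [Matrix.one_apply_ne h]
    refine Finset.sum_eq_zero fun m _ => ?_
    rw [ee, Matrix.single_apply, if_neg]
    rintro ⟨rfl, rfl⟩
    exact h rfl

private theorem null2b_sum (hU : LA U) (hP : Prj U P) (hF : Frm U) : ∑ i, Lam P i = 0 := by
  have h1 : P 1 = 0 := by
    refine hP.perp fun y hy => ?_
    rw [mi, Matrix.transpose_one, one_mul, hU.tz y hy]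
  funext k
  rw [Finset.sum_apply]
  have h2 : ∀ i, Lam P i k = P (ee i i) k k := fun i => by
    rw [P_ii hU hP hF, dg, Matrix.diagonal_apply_eq]
  rw [Finset.sum_congr rfl fun i _ => h2 i, ← Matrix.sum_apply, ← map_sum, null2b_one, h1]
  rfl

theorem null_wts (hU : LA U) (hP : Prj U P) (hF : Frm U) (hN : Null P)
    (hi : Function.Injective (Lam P)) : Wts (Lam P) where
  inj := hi
  num _ _ h := null2b_num hU hP hF hN hi h
  str _ _ h k := null2b_str hU hP hF hN hi h k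
  sum := null2b_sum hU hP hF

end Pool.Agent.MP417N
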