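import Pool.Agent.Lib.MP_417c68_gt_N.CombB
import Pool.Agent.Lib.MP_417c68_gt_N.Null2b

/-!
# MP_417c68_gt, project N, module Null3: the structure of `U` in an adapted frame

PROOF (`L = Lam P`).  `lam_dich`: if all `L i` are equal, the first alternative holds (`lam_const`).
Otherwise `L` is injective, `Wts L` (`null_wts`), and `wts_class` applies.
* If `DD L i j = 2` for `i ≠ j`: `mi (P (ee i j)) (P (ee i j)) = 1 = mi (ee i j) (ee i j)` (`P_sq`,
  `mi_ee_left`), so `P (ee i j) = ee i j` (`Prj.eq_self`) and `ee i j ∈ U`.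
* Otherwise `L i k = L i ⬝ᵥ L k` (`Lam_Lam`), so `2 • L i` is the vector with entry `1` at `i`, `-1`
  at `ι i` and `0` elsewhere.  If `c (ι i) = -c i` for all `i` then `c = ∑ i, c i • L i`:
  the `k`-th entry of the sum is `∑ i, c i * (L i ⬝ᵥ L k) = ∑ i, c i * L k i =
  c k / 2 - c (ι k) / 2 = c k` (`Lam_symm`).  So `dg c = ∑ i, c i • dg (L i) ∈ U` (`Lam_mem`).
-/

noncomputable section

namespace Pool.Agent.MP417N

open Matrix

variable {d : ℕ} {U : Submodule ℝ (Mt d)} {P : Mt d →ₗ[ℝ] Mt d}

theorem null_struct (hU : LA U) (hP : Prj U P) (hF : Frm U) (hN : Null P) :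
    (∀ c, dg c ∈ U → c = 0) ∨ (∀ i j, i ≠ j → ee i j ∈ U) ∨
      ∃ ι : Fin d → Fin d, (∀ i, ι (ι i) = i) ∧ (∀ i, ι i ≠ i) ∧
        ∀ c : Fin d → ℝ, (∀ i, c (ι i) = -c i) → dg c ∈ U := by
  rcases lam_dich hU hP hF hN with h | hi
  · exact Or.inl fun c hc => lam_const hU hP hF h hc
  · rcases wts_class (null_wts hU hP hF hN hi) with h2 | ⟨ι, h1, h2, h3⟩
    · refine Or.inr (Or.inl fun i j hij => ?_)
      have e1 : mi (P (ee i j)) (P (ee i j)) = 1 := by
        have e0 := P_sq hU hP hF hN hij
        rw [h2 i j hij] at e0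
        linarith
      have e2 : mi (ee i j) (ee i j) = 1 := by
        rw [mi_ee_left, ee, Matrix.single_apply_same]
      rw [← hP.eq_self (e1.trans e2.symm)]
      exact hP.mem _
    · refine Or.inr (Or.inr ⟨ι, h1, h2, fun c hc => ?_⟩)
      have key : ∀ a, ∑ i, c i * Lam P i a = c a := by
        intro a
        have e1 : ∀ i, c i * Lam P i a =
            (if i = a then c i / 2 else 0) + (if i = ι a then -(c i) / 2 else 0) := by
          intro i
          rw [← Lam_Lam hU hP hF i a, h3 i a]
          by_cases q1 : a = i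
          · have q2 : ¬ i = ι a := fun e => h2 a (by rw [← e, q1])
            rw [if_pos q1, if_pos q1.symm, if_neg q2]
            ring
          · by_cases q3 : a = ι i
            · have q4 : i = ι a := by rw [q3, h1]
              rw [if_neg q1, if_pos q3, if_neg fun e => q1 e.symm, if_pos q4]
              ring
            · have q5 : ¬ i = ι a := fun e => q3 (by rw [e, h1])
              rw [if_neg q1, if_neg q3, if_neg fun e => q1 e.symm, if_neg q5]
              ring
        rw [Finset.sum_congr rfl fun i _ => e1 i, Finset.sum_add_distrib,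
          Finset.sum_ite_eq' Finset.univ a, Finset.sum_ite_eq' Finset.univ (ι a),
          if_pos (Finset.mem_univ _), if_pos (Finset.mem_univ _), hc a]
        ring
      have e3 : dg c = ∑ i, c i • dg (Lam P i) := by
        ext a b
        rw [Matrix.sum_apply]
        by_cases q : a = b
        · subst q
          rw [dg, Matrix.diagonal_apply_eq, ← key a]
          exact Finset.sum_congr rfl fun i _ => by
            rw [Matrix.smul_apply, dg, Matrix.diagonal_apply_eq, smul_eq_mul]
        · rw [dg, Matrix.diagonal_apply_ne _ q]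
          exact (Finset.sum_eq_zero fun i _ => by
            rw [Matrix.smul_apply, dg, Matrix.diagonal_apply_ne _ q, smul_zero]).symm
      rw [e3]
      exact U.sum_mem fun i _ => U.smul_mem _ (Lam_mem hU hP hF i)

end Pool.Agent.MP417N
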