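import Pool.Agent.Lib.MP_417c68_gt_N.Frame
import Pool.Agent.Lib.MP_417c68_gt_N.Null3

/-!
# MP_417c68_gt, project N, module Main: Lie algebras with null projection

PROOF.  Take `O` from `exists_frame`, `O * Oᵀ = 1` (`mul_eq_one_comm`), `U' = cU O U`,
`P' x = Oᵀ * P (O * x * Oᵀ) * O` (that is `adL Oᵀ O ∘ₗ P ∘ₗ adL O Oᵀ`).
* `LA U'`: `(O * x * Oᵀ)ᵀ = O * xᵀ * Oᵀ`, `bk (O * x * Oᵀ) (O * y * Oᵀ) = O * bk x y * Oᵀ`, the
  trace is invariant.
* `Prj U' P'`: `mi (O * x * Oᵀ) (O * y * Oᵀ) = mi x y` (`mi_mul_left`, `mi_mul_right`).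
* `Null P'`: `O * vw v w * Oᵀ = vw (O *ᵥ v) (O *ᵥ w)`, `(O *ᵥ v) ⬝ᵥ (O *ᵥ w) = v ⬝ᵥ w`,
  `mi (P' (vw v w)) (vw w v) = mi (P (vw (O v) (O w))) (vw (O w) (O v))`.
`null_struct` for `U'`, `P'`:
* `∀ c, dg c ∈ U' → c = 0`: let `x ∈ U` be symmetric, `x' = Oᵀ * x * O ∈ U'`, symmetric; it commutes
  with all `dg c ∈ U'` (`c = 0`), so `x' = dg c` (`Frm U'`), `c = 0`, `x' = 0`, `x = 0`.
* `ee i j ∈ U'` for `i ≠ j`: `ee i i - ee j j = bk (ee i j) (ee j i) ∈ U'`, so all traceless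
  matrices are in `U'` (`x = ∑ i ≠ j x i j • ee i j + diagonal part`; the diagonal part is
  `∑ i, x i i • (ee i i - ee 0 0)` since the trace is `0`), and `x ∈ U` iff `Oᵀ * x * O ∈ U'`.
* the third alternative is the third alternative.
-/

noncomputable section

namespace Pool.Agent.MP417N

open Matrix

variable {d : ℕ}

/-- all matrices of trace zero are in a Lie algebra with the matrix units `ee i j`, `i ≠ j` -/
theorem tz_mem {V : Submodule ℝ (Mt d)} (hV : LA V) (h : ∀ i j, i ≠ j → ee i j ∈ V) (y : Mt d)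
    (hy : y.trace = 0) : y ∈ V := by
  have h3 : ∀ i j, ee i i - ee j j ∈ V := fun i j => by
    by_cases hij : i = j
    · rw [hij, sub_self]
      exact zero_mem _
    · have h1 := hV.br _ (h i j hij) _ (h j i (Ne.symm hij))
      have e : bk (ee i j) (ee j i) = ee i i - ee j j := by
        simp only [bk, ee, Matrix.single_mul_single_same, one_mul]
      rwa [e] at h1
  rcases Nat.eq_zero_or_pos d with rfl | hd
  · have e : y = 0 := by
      ext i
      exact i.elim0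
    rw [e]
    exact zero_mem _
  · have e : y = ∑ i, ∑ j, y i j • (ee i j - if i = j then ee ⟨0, hd⟩ ⟨0, hd⟩ else 0) := by
      have e1 : ∑ i, ∑ j, y i j • ee i j = y := by
        conv_rhs => rw [Matrix.matrix_eq_sum_single y]
        exact Finset.sum_congr rfl fun i _ => Finset.sum_congr rfl fun j _ => by
          rw [ee, Matrix.smul_single, smul_eq_mul, mul_one]
      have e2 : ∑ i, ∑ j, y i j • (if i = j then ee ⟨0, hd⟩ ⟨0, hd⟩ else (0 : Mt d)) = 0 := by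
        have e3 : ∀ i, ∑ j, y i j • (if i = j then ee ⟨0, hd⟩ ⟨0, hd⟩ else (0 : Mt d)) =
            y i i • ee ⟨0, hd⟩ ⟨0, hd⟩ := fun i => by
          rw [Finset.sum_eq_single i]
          · rw [if_pos rfl]
          · intro j _ hj
            rw [if_neg (Ne.symm hj), smul_zero]
          · intro hi
            exact absurd (Finset.mem_univ i) hi
        rw [Finset.sum_congr rfl fun i _ => e3 i, ← Finset.sum_smul]
        have e4 : ∑ i, y i i = 0 := hy
        rw [e4, zero_smul]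
      simp only [smul_sub, Finset.sum_sub_distrib]
      rw [e1, e2, sub_zero]
    rw [e]
    refine Submodule.sum_mem _ fun i _ => Submodule.sum_mem _ fun j _ => Submodule.smul_mem _ _ ?_
    by_cases hij : i = j
    · rw [if_pos hij, ← hij]
      exact h3 _ _
    · rw [if_neg hij, sub_zero]
      exact h i j hij

theorem null_main {U : Submodule ℝ (Mt d)} {P : Mt d →ₗ[ℝ] Mt d} (hU : LA U) (hP : Prj U P)
    (hN : Null P) : (∀ x ∈ U, xᵀ = x → x = 0) ∨ (∀ x : Mt d, x.trace = 0 → x ∈ U) ∨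
      ∃ O : Mt d, Oᵀ * O = 1 ∧ ∃ ι : Fin d → Fin d, (∀ i, ι (ι i) = i) ∧ (∀ i, ι i ≠ i) ∧
        ∀ c : Fin d → ℝ, (∀ i, c (ι i) = -c i) → O * dg c * Oᵀ ∈ U := by
  obtain ⟨O, hO, hF⟩ := exists_frame U
  have hO' : O * Oᵀ = 1 := mul_eq_one_comm.1 hO
  have hc : ∀ x : Mt d, O * (Oᵀ * x * O) * Oᵀ = x := fun x => by
    calc O * (Oᵀ * x * O) * Oᵀ = (O * Oᵀ) * x * (O * Oᵀ) := by simp only [Matrix.mul_assoc]
      _ = x := by rw [hO', one_mul, mul_one]
  have hc' : ∀ x : Mt d, Oᵀ * (O * x * Oᵀ) * O = x := fun x => by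
    calc Oᵀ * (O * x * Oᵀ) * O = (Oᵀ * O) * x * (Oᵀ * O) := by simp only [Matrix.mul_assoc]
      _ = x := by rw [hO, one_mul, mul_one]
  have htr : ∀ x : Mt d, (O * x * Oᵀ).trace = x.trace := fun x => by
    rw [Matrix.trace_mul_comm, ← Matrix.mul_assoc, hO, one_mul]
  have hmi : ∀ x y : Mt d, mi (Oᵀ * x * O) y = mi x (O * y * Oᵀ) := fun x y => by
    rw [mi_mul_right, mi_mul_left, Matrix.transpose_transpose, Matrix.mul_assoc]
  have hmul : ∀ x y : Mt d, O * (x * y) * Oᵀ = (O * x * Oᵀ) * (O * y * Oᵀ) := fun x y => by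
    calc O * (x * y) * Oᵀ = O * x * (1 : Mt d) * y * Oᵀ := by
          rw [mul_one]
          simp only [Matrix.mul_assoc]
      _ = (O * x * Oᵀ) * (O * y * Oᵀ) := by
          rw [← hO]
          simp only [Matrix.mul_assoc]
  have hT : ∀ x : Mt d, O * xᵀ * Oᵀ = (O * x * Oᵀ)ᵀ := fun x => by
    rw [Matrix.transpose_mul, Matrix.transpose_mul, Matrix.transpose_transpose, Matrix.mul_assoc]
  have hLA : LA (cU O U) := by
    refine ⟨fun x hx => ?_, fun x hx y hy => ?_, fun x hx => ?_⟩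
    · rw [mem_cU] at hx ⊢
      rw [hT]
      exact hU.tr _ hx
    · rw [mem_cU] at hx hy ⊢
      have e : O * bk x y * Oᵀ = bk (O * x * Oᵀ) (O * y * Oᵀ) := by
        rw [bk, bk, mul_sub, sub_mul, hmul, hmul]
      rw [e]
      exact hU.br _ hx _ hy
    · rw [mem_cU] at hx
      rw [← htr]
      exact hU.tz _ hx
  have hPr : Prj (cU O U) (adL Oᵀ O ∘ₗ P ∘ₗ adL O Oᵀ) := by
    refine ⟨fun x => ?_, fun x hx => ?_, fun x y => ?_⟩
    · rw [mem_cU]
      change O * (Oᵀ * P (O * x * Oᵀ) * O) * Oᵀ ∈ U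
      rw [hc]
      exact hP.mem _
    · rw [mem_cU] at hx
      change Oᵀ * P (O * x * Oᵀ) * O = x
      rw [hP.fix _ hx, hc']
    · change mi (Oᵀ * P (O * x * Oᵀ) * O) y = mi x (Oᵀ * P (O * y * Oᵀ) * O)
      rw [hmi, hP.sym, mi_comm x, hmi, mi_comm]
  have hvw : ∀ v w : Fin d → ℝ, O * vw v w * Oᵀ = vw (O *ᵥ v) (O *ᵥ w) := fun v w => by
    rw [vw, vw, Matrix.mul_vecMulVec, Matrix.vecMulVec_mul, Matrix.vecMul_transpose]
  have hdot : ∀ v w : Fin d → ℝ, (O *ᵥ v) ⬝ᵥ (O *ᵥ w) = v ⬝ᵥ w := fun v w => by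
    rw [Matrix.dotProduct_mulVec, ← Matrix.vecMul_transpose, Matrix.vecMul_vecMul, hO,
      Matrix.vecMul_one]
  have hNu : Null (adL Oᵀ O ∘ₗ P ∘ₗ adL O Oᵀ) := by
    intro v w hvw0
    change mi (Oᵀ * P (O * vw v w * Oᵀ) * O) (vw w v) = 0
    rw [hmi, hvw, hvw]
    exact hN _ _ (by rw [hdot, hvw0])
  rcases null_struct hLA hPr hF hNu with h1 | h2 | ⟨ι, h3, h4, h5⟩
  · left
    intro x hx hxs
    have hx' : Oᵀ * x * O ∈ cU O U := by
      rw [mem_cU, hc]
      exact hx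
    have hxs' : (Oᵀ * x * O)ᵀ = Oᵀ * x * O := by
      rw [Matrix.transpose_mul, Matrix.transpose_mul, Matrix.transpose_transpose, hxs,
        Matrix.mul_assoc]
    have d0 : dg (0 : Fin d → ℝ) = 0 := Matrix.diagonal_zero
    obtain ⟨c, hcx⟩ := hF _ hx' hxs' fun c hcU => by
      rw [h1 c hcU, d0, mul_zero, zero_mul]
    have hc0 : c = 0 := h1 c (by rw [← hcx]; exact hx')
    rw [hc0, d0] at hcx
    rw [← hc x, hcx, mul_zero, zero_mul]
  · right
    left
    intro x hx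
    have h6 := tz_mem hLA h2 (Oᵀ * x * O) (by rw [← htr, hc, hx])
    rw [mem_cU, hc] at h6
    exact h6
  · right
    right
    exact ⟨O, hO, ι, h3, h4, fun c hcι => h5 c hcι⟩

end Pool.Agent.MP417N
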