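import Pool.Agent.Lib.MP_417c68_gt_N.Defs

/-!
# MP_417c68_gt, project N, module Match: matching of symmetric spectra

PROOFS.
* `neg_perm`: `h * g = 1` (`mul_eq_one_comm`), so `dg c` and `-dg c = dg (-c)` have the same
  characteristic polynomial (`Matrix.charpoly_units_conj`), which are `∏ i, (X - C (c i))` and
  `∏ i, (X - C (-c i))` (`Matrix.charpoly_diagonal` or `Matrix.charpoly_of_upperTriangular`).  So
  the multisets of the values (roots) agree, `Multiset.map c univ.val = Multiset.map (-c) univ.val`,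
  and there is a permutation `τ` with `c ∘ τ = -c` (e.g. sort both: `Tuple.sort`; or
  `Multiset.map_univ_eq_iff` / `Finset.exists_equiv...`; any form).
* `conj_rev`: let `ι` be an involution of `Fin d` without fixed points, as a permutation.  `d` is
  even (`Fintype.card` and `Equiv.Perm.card_fixedPoints_modEq`, or `Function.Involutive...`), so
  `Fin.revPerm` has no fixed points either (`i = rev i` means `2 i + 1 = d`).  A fixed-point-free
  involution has cycle type `replicate (d / 2) 2` (`Equiv.Perm.cycleType_prime_order` if `d > 0`,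
  and the sum of the cycle type is the number of moved points).  So they are conjugate
  (`Equiv.Perm.isConj_iff_cycleType_eq`): there is `ρ` with `ρ (ι i) = rev (ρ i)` for all `i`.
* `match_inv`: `s = Tuple.sort c`, `c ∘ s` is monotone.  `-(c ∘ s)` is antitone and equals
  `c ∘ (τ * s)`, `c ∘ s ∘ Fin.rev` is antitone: two antitone rearrangements of `c` are equal
  (`Tuple.unique_antitone` / `Tuple.unique_monotone`, or `Tuple.comp_sort_eq_comp_iff_monotone`), so
  `c (s (rev i)) = -c (s i)`.  `σ = s * ρ`: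
  `c (σ (ι i)) = c (s (rev (ρ i))) = -c (s (ρ i)) = -c (σ i)`.
-/

noncomputable section

namespace Pool.Agent.MP417N

open Matrix

variable {d : ℕ}

private theorem Match_exists {f k : Fin d → ℝ}
    (h : (Finset.univ.val.map f : Multiset ℝ) = Finset.univ.val.map k) :
    ∃ τ : Equiv.Perm (Fin d), ∀ i, f (τ i) = k i := by
  have h1 : (List.ofFn f).Perm (List.ofFn k) := by
    rw [← Multiset.coe_eq_coe, ← Fin.univ_val_map, ← Fin.univ_val_map]
    exact h
  have h2 : f ∘ Tuple.sort f = k ∘ Tuple.sort k := by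
    refine List.ofFn_injective ?_
    exact (((Tuple.sort f).ofFn_comp_perm f).trans (h1.trans
      ((Tuple.sort k).ofFn_comp_perm k).symm)).eq_of_pairwise'
      (Tuple.monotone_sort f).sortedLE_ofFn.pairwise
      (Tuple.monotone_sort k).sortedLE_ofFn.pairwise
  refine ⟨(Tuple.sort k).symm.trans (Tuple.sort f), fun i => ?_⟩
  have h3 := congrFun h2 ((Tuple.sort k).symm i)
  simpa using h3

private theorem Match_roots (c : Fin d → ℝ) :
    (dg c).charpoly.roots = Finset.univ.val.map c := by
  unfold dg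
  rw [Matrix.charpoly_diagonal]
  have h1 : (∏ i, (Polynomial.X - Polynomial.C (c i))) =
      ((Finset.univ.val.map c).map fun a => Polynomial.X - Polynomial.C a).prod := by
    rw [Multiset.map_map]
    rfl
  rw [h1, Polynomial.roots_multiset_prod_X_sub_C]

theorem neg_perm {c : Fin d → ℝ} {g h : Mt d} (hgh : g * h = 1) (e : g * dg c * h = -dg c) :
    ∃ τ : Equiv.Perm (Fin d), ∀ i, c (τ i) = -c i := by
  refine Match_exists (f := c) (k := fun i => -c i) ?_
  have hhg : h * g = 1 := mul_eq_one_comm.1 hgh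
  have h1 : -dg c = dg (fun i => -c i) := by
    unfold dg
    rw [← Matrix.diagonal_neg]
  have h3 : (g * dg c * h).charpoly = (dg c).charpoly := by
    rw [Matrix.charpoly_mul_comm, ← mul_assoc, hhg, one_mul]
  rw [e, h1] at h3
  rw [← Match_roots, ← Match_roots, h3]

private theorem Match_type {σ τ : Equiv.Perm (Fin d)} (h1 : σ ^ 2 = 1) (h2 : τ ^ 2 = 1)
    (h3 : ∀ i, σ i ≠ i) (h4 : ∀ i, τ i ≠ i) : σ.cycleType = τ.cycleType := by
  have key : ∀ {ρ : Equiv.Perm (Fin d)}, ρ ^ 2 = 1 → (∀ i, ρ i ≠ i) →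
      ρ.cycleType = Multiset.replicate (d / 2) 2 := by
    intro ρ hρ hf
    have : Fact (Nat.Prime 2) := ⟨Nat.prime_two⟩
    have ha := Equiv.Perm.pow_prime_eq_one_iff.1 hρ
    have hb := Multiset.eq_replicate_card.2 ha
    have hs := ρ.sum_cycleType
    have hu : ρ.support = Finset.univ := by
      refine Finset.eq_univ_iff_forall.2 fun i => ?_
      exact Equiv.Perm.mem_support.2 (hf i)
    rw [hu, Finset.card_univ, Fintype.card_fin, hb, Multiset.sum_replicate, smul_eq_mul] at hs
    rw [hb]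
    congr 1
    omega
  rw [key h1 h3, key h2 h4]

theorem conj_rev {ι : Fin d → Fin d} (h1 : ∀ i, ι (ι i) = i) (h2 : ∀ i, ι i ≠ i) :
    ∃ ρ : Equiv.Perm (Fin d), ∀ i, ρ (ι i) = Fin.rev (ρ i) := by
  set κ : Equiv.Perm (Fin d) := Function.Involutive.toPerm ι h1 with hκ
  have hκ1 : ∀ i, κ i = ι i := fun i => rfl
  have hκ2 : κ ^ 2 = 1 := by
    ext i
    rw [pow_two, Equiv.Perm.mul_apply, hκ1, hκ1, h1]
    rfl
  have hsup : κ.support = Finset.univ := by
    refine Finset.eq_univ_iff_forall.2 fun i => ?_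
    exact Equiv.Perm.mem_support.2 (h2 i)
  have hd : 2 ∣ d := by
    have h3 := Equiv.Perm.two_dvd_card_support hκ2
    rwa [hsup, Finset.card_univ, Fintype.card_fin] at h3
  have hr2 : (Fin.revPerm : Equiv.Perm (Fin d)) ^ 2 = 1 := by
    ext i
    rw [pow_two, Equiv.Perm.mul_apply]
    simp
  have hr : ∀ i : Fin d, (Fin.revPerm : Equiv.Perm (Fin d)) i ≠ i := by
    intro i hi
    have h3 := congrArg Fin.val hi
    simp only [Fin.revPerm_apply, Fin.val_rev] at h3
    have h4 := i.isLt
    omega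
  have hc : IsConj κ (Fin.revPerm : Equiv.Perm (Fin d)) :=
    Equiv.Perm.isConj_iff_cycleType_eq.2 (Match_type hκ2 hr2 h2 hr)
  obtain ⟨ρ, hρ⟩ := isConj_iff.1 hc
  refine ⟨ρ, fun i => ?_⟩
  have h3 := congrArg (fun s : Equiv.Perm (Fin d) => s (ρ i)) hρ
  simpa [Equiv.Perm.mul_apply, hκ1] using h3

theorem match_inv {c : Fin d → ℝ} {τ : Equiv.Perm (Fin d)} (hτ : ∀ i, c (τ i) = -c i)
    {ι : Fin d → Fin d} (h1 : ∀ i, ι (ι i) = i) (h2 : ∀ i, ι i ≠ i) :
    ∃ σ : Equiv.Perm (Fin d), ∀ i, c (σ (ι i)) = -c (σ i) := by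
  obtain ⟨ρ, hρ⟩ := conj_rev h1 h2
  set s := Tuple.sort c with hs
  have hm : Monotone (c ∘ s) := Tuple.monotone_sort c
  have ha : Antitone (c ∘ (s * Fin.revPerm : Equiv.Perm (Fin d))) := by
    intro i j hij
    have h3 : Fin.rev j ≤ Fin.rev i := Fin.rev_le_rev.2 hij
    simpa [Equiv.Perm.mul_apply] using hm h3
  have hb : Antitone (c ∘ (τ * s : Equiv.Perm (Fin d))) := by
    intro i j hij
    have h3 := hm hij
    simp only [Function.comp_apply] at h3
    simp only [Function.comp_apply, Equiv.Perm.mul_apply, hτ]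
    linarith
  have hab := Tuple.unique_antitone ha hb
  have hk : ∀ i, c (s (Fin.rev i)) = -c (s i) := by
    intro i
    have h3 := congrFun hab i
    simp only [Function.comp_apply, Equiv.Perm.mul_apply, hτ, Fin.revPerm_apply] at h3
    exact h3
  refine ⟨s * ρ, fun i => ?_⟩
  rw [Equiv.Perm.mul_apply, Equiv.Perm.mul_apply, hρ, hk]

end Pool.Agent.MP417N
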