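import Pool.Agent.Lib.MP_417c68_gt_N.Rot

/-!
# MP_417c68_gt, project N, module Neg: an element conjugate to its negative

PROOF.  `f x y = mi (bk x y) (bk x y)` is continuous on the compact set of pairs `x, y ∈ C` with
`mi x x = mi y y = 1`, `mi x y = 0` (closed and bounded in a finite dimensional space).  The set is
not empty: `x, y` of the hypothesis are linearly independent (`bk x y ≠ 0`), use Gram-Schmidt;
`bk x (y + a x) = bk x y`, so there is even such a pair with `f > 0`.  Let `(x, y)` be a maximum,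
`κ = f x y > 0`.  For `z ∈ C` with `mi z x = 0`, `mi z y = 0` and real `s` the vector `y + s z` is
orthogonal to `x` of square length `1 + s² |z|²`, so `f x (y + s z) ≤ κ (1 + s² |z|²)` (homogeneity
of `f`), that is
`2 s mi (bk x y) (bk x z) + s² mi (bk x z) (bk x z) ≤ κ s² |z|²` for all real `s`; so
`mi (bk x y) (bk x z) = 0`.  By `mi_bk` and symmetry of `x`: `mi (bk x (bk x y)) z = 0`.  Also
`mi (bk x (bk x y)) x = mi (bk x y) (bk x x) = 0` and `mi (bk x (bk x y)) y = κ`.  As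
`bk x (bk x y) = -bk (bk x y) x ∈ C`, it follows that `bk x (bk x y) = κ • y` (the difference is in
`C` and orthogonal to `x`, `y` and to every `z` as above, so it is `0`).  By symmetry
`bk y (bk y x) = κ • x`.  Put `Z' = bk x y`: `bk Z' x = -(κ • y)`, `bk Z' y = κ • x`, `Z'` is skew.
`rot`: `Z = (π / κ) • Z'`.
-/

noncomputable section

namespace Pool.Agent.MP417N

open Matrix NormedSpace

variable {d : ℕ}

private theorem neg_bk_add (x y z : Mt d) : bk x (y + z) = bk x y + bk x z := by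
  rw [bk, bk, bk, mul_add, add_mul]
  abel

private theorem neg_bk_smul (c : ℝ) (x y : Mt d) : bk x (c • y) = c • bk x y := by
  rw [bk, bk, Matrix.mul_smul, Matrix.smul_mul, smul_sub]

private theorem neg_bk_smul' (c : ℝ) (x y : Mt d) : bk (c • x) y = c • bk x y := by
  rw [bk, bk, Matrix.mul_smul, Matrix.smul_mul, smul_sub]

private theorem neg_bk_anti (x y : Mt d) : bk y x = -bk x y := by
  rw [bk, bk, neg_sub]

private theorem neg_bk_self (x : Mt d) : bk x x = 0 := sub_self _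

private theorem neg_bk_zero (x : Mt d) : bk x 0 = 0 := by
  rw [bk, mul_zero, zero_mul, sub_zero]

private theorem neg_bk_neg (x y : Mt d) : bk x (-y) = -bk x y := by
  rw [bk, bk, mul_neg, neg_mul]
  abel

private theorem neg_quad {m c : ℝ} (h : ∀ s : ℝ, 2 * s * m ≤ s ^ 2 * c) : m = 0 := by
  have h1 := h (m / (|c| + 1))
  have h2 : 0 < |c| + 1 := by positivity
  have h3 : c ≤ |c| := le_abs_self c
  have h4 : 2 * (m / (|c| + 1)) * m * (|c| + 1) ^ 2 ≤ (m / (|c| + 1)) ^ 2 * c * (|c| + 1) ^ 2 :=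
    mul_le_mul_of_nonneg_right h1 (by positivity)
  have h5 : 2 * (m / (|c| + 1)) * m * (|c| + 1) ^ 2 = 2 * m ^ 2 * (|c| + 1) := by
    field_simp
  have h6 : (m / (|c| + 1)) ^ 2 * c * (|c| + 1) ^ 2 = m ^ 2 * c := by
    field_simp
  rw [h5, h6] at h4
  have h7 : m ^ 2 * c ≤ m ^ 2 * |c| := mul_le_mul_of_nonneg_left h3 (sq_nonneg m)
  have h8 : 0 ≤ m ^ 2 * |c| := mul_nonneg (sq_nonneg m) (abs_nonneg c)
  have h9 : m ^ 2 ≤ 0 := by nlinarith
  exact pow_eq_zero_iff (two_ne_zero) |>.1 (le_antisymm h9 (sq_nonneg m))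

private theorem neg_step {C : Submodule ℝ (Mt d)} (hs : ∀ x ∈ C, xᵀ = x)
    (ht : ∀ x ∈ C, ∀ y ∈ C, ∀ z ∈ C, bk (bk x y) z ∈ C) {x y : Mt d} (hx : x ∈ C) (hy : y ∈ C)
    (hyy : mi y y = 1) (hxy : mi x y = 0) {κ : ℝ} (hκ : mi (bk x y) (bk x y) = κ)
    (hm : ∀ z ∈ C, mi x z = 0 → mi (bk x z) (bk x z) ≤ κ * mi z z) :
    bk x (bk x y) = κ • y := by
  have hB : ∀ a b, mi (bk x a) b = mi a (bk x b) := fun a b => by rw [mi_bk, hs x hx]
  obtain ⟨z, hz⟩ : ∃ z, z = bk x (bk x y) - κ • y := ⟨_, rfl⟩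
  have hzC : z ∈ C := by
    rw [hz]
    refine C.sub_mem ?_ (C.smul_mem _ hy)
    rw [neg_bk_anti (bk x y) x]
    exact C.neg_mem (ht x hx y hy x hx)
  have hzx : mi x z = 0 := by
    rw [hz, mi_sub_right, mi_smul_right, hxy, mi_comm, hB, neg_bk_self, mi_zero_right]
    ring
  have hzy : mi y z = 0 := by
    rw [hz, mi_sub_right, mi_smul_right, hyy, ← hB, hκ]
    ring
  have h1 : mi (bk x y) (bk x z) = 0 := by
    refine neg_quad (c := κ * mi z z) fun s => ?_
    have h2 := hm (y + s • z) (C.add_mem hy (C.smul_mem _ hzC)) (by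
      rw [mi_add_right, mi_smul_right, hxy, hzx]
      ring)
    rw [neg_bk_add, neg_bk_smul, mi_add_left, mi_add_right, mi_add_right, mi_add_left,
      mi_add_right, mi_add_right] at h2
    simp only [mi_smul_left, mi_smul_right] at h2
    rw [hκ, hyy, hzy, mi_comm z y, hzy, mi_comm (bk x z) (bk x y)] at h2
    have h3 : 0 ≤ s ^ 2 * mi (bk x z) (bk x z) := mul_nonneg (sq_nonneg s) (mi_self_nonneg _)
    nlinarith
  have h2 : mi z z = 0 := by
    have h3 : mi z z = mi (bk x (bk x y)) z - κ * mi y z := by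
      conv_lhs => rw [hz]
      rw [mi_sub_left, mi_smul_left, ← hz]
    rw [h3, hB, h1, hzy]
    ring
  have h3 := mi_self_eq_zero h2
  rw [hz] at h3
  exact sub_eq_zero.1 h3

private theorem neg_homog {C : Submodule ℝ (Mt d)} {x : Mt d} {κ : ℝ}
    (h : ∀ z ∈ C, mi z z = 1 → mi x z = 0 → mi (bk x z) (bk x z) ≤ κ) :
    ∀ z ∈ C, mi x z = 0 → mi (bk x z) (bk x z) ≤ κ * mi z z := by
  intro z hz hxz
  by_cases h0 : mi z z = 0
  · rw [mi_self_eq_zero h0, neg_bk_zero, mi_zero_left, mul_zero]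
  · have hpos : 0 < mi z z := lt_of_le_of_ne (mi_self_nonneg z) (Ne.symm h0)
    obtain ⟨r, hr⟩ : ∃ r, r = Real.sqrt (mi z z) := ⟨_, rfl⟩
    have hr0 : 0 < r := by rw [hr]; exact Real.sqrt_pos.2 hpos
    have hr2 : r * r = mi z z := by rw [hr]; exact Real.mul_self_sqrt hpos.le
    have h1 := h (r⁻¹ • z) (C.smul_mem _ hz)
      (by rw [mi_smul_left, mi_smul_right, ← hr2]; field_simp)
      (by rw [mi_smul_right, hxz, mul_zero])
    rw [neg_bk_smul, mi_smul_left, mi_smul_right] at h1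
    have h2 : mi (bk x z) (bk x z) = r⁻¹ * (r⁻¹ * mi (bk x z) (bk x z)) * mi z z := by
      rw [← hr2]
      field_simp
    rw [h2]
    exact mul_le_mul_of_nonneg_right h1 hpos.le

private theorem neg_cont : Continuous fun p : Mt d × Mt d => mi (bk p.1 p.2) (bk p.1 p.2) := by
  unfold mi bk
  fun_prop

private theorem neg_cont' : Continuous fun p : Mt d × Mt d => mi p.1 p.2 := by
  unfold mi
  fun_prop

private theorem neg_compact (C : Submodule ℝ (Mt d)) : IsCompact {p : Mt d × Mt d |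
    (p.1 ∈ C ∧ p.2 ∈ C) ∧ mi p.1 p.1 = 1 ∧ mi p.2 p.2 = 1 ∧ mi p.1 p.2 = 0} := by
  have hB : IsCompact (Set.pi Set.univ fun _ : Fin d => Set.pi Set.univ fun _ : Fin d =>
      Set.Icc (-1 : ℝ) 1) := isCompact_univ_pi fun _ => isCompact_univ_pi fun _ => isCompact_Icc
  have hb : ∀ x : Mt d, mi x x = 1 → x ∈ (Set.pi Set.univ fun _ : Fin d =>
      Set.pi Set.univ fun _ : Fin d => Set.Icc (-1 : ℝ) 1) := by
    intro x hx i _ j _
    rw [mi_self] at hx
    have h1 : x i j ^ 2 ≤ 1 := by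
      rw [← hx]
      refine le_trans ?_ (Finset.single_le_sum (f := fun j => ∑ k, x k j ^ 2)
        (fun j _ => Finset.sum_nonneg fun k _ => sq_nonneg (x k j)) (Finset.mem_univ j))
      exact Finset.single_le_sum (f := fun k => x k j ^ 2) (fun k _ => sq_nonneg (x k j))
        (Finset.mem_univ i)
    exact abs_le.1 ((sq_le_one_iff_abs_le_one _).1 h1)
  have hC : IsClosed (C : Set (Mt d)) := Submodule.closed_of_finiteDimensional C
  have hcl : IsClosed {p : Mt d × Mt d |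
      (p.1 ∈ C ∧ p.2 ∈ C) ∧ mi p.1 p.1 = 1 ∧ mi p.2 p.2 = 1 ∧ mi p.1 p.2 = 0} := by
    have c1 : Continuous fun p : Mt d × Mt d => mi p.1 p.1 :=
      neg_cont'.comp (continuous_fst.prodMk continuous_fst)
    have c2 : Continuous fun p : Mt d × Mt d => mi p.2 p.2 :=
      neg_cont'.comp (continuous_snd.prodMk continuous_snd)
    exact ((hC.preimage continuous_fst).inter (hC.preimage continuous_snd)).inter
      ((isClosed_eq c1 continuous_const).inter ((isClosed_eq c2 continuous_const).inter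
        (isClosed_eq neg_cont' continuous_const)))
  refine (hB.prod hB).of_isClosed_subset hcl fun p hp => ?_
  exact ⟨hb p.1 hp.2.1, hb p.2 hp.2.2.1⟩

theorem exists_neg {C : Submodule ℝ (Mt d)} (hs : ∀ x ∈ C, xᵀ = x)
    (ht : ∀ x ∈ C, ∀ y ∈ C, ∀ z ∈ C, bk (bk x y) z ∈ C) (hn : ∃ x ∈ C, ∃ y ∈ C, bk x y ≠ 0) :
    ∃ x ∈ C, x ≠ 0 ∧ ∃ Z : Mt d, Zᵀ = -Z ∧ exp Z * x * exp (-Z) = -x := by
  obtain ⟨x0, hx0, y0, hy0, hne⟩ := hn
  have hx0' : x0 ≠ 0 := by
    rintro rfl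
    apply hne
    rw [neg_bk_anti, neg_bk_zero, neg_zero]
  have ha : 0 < mi x0 x0 := lt_of_le_of_ne (mi_self_nonneg _) fun h =>
    hx0' (mi_self_eq_zero h.symm)
  obtain ⟨y1, hy1⟩ : ∃ y1, y1 = y0 + (-(mi x0 y0 / mi x0 x0)) • x0 := ⟨_, rfl⟩
  have hbk1 : bk x0 y1 = bk x0 y0 := by
    rw [hy1, neg_bk_add, neg_bk_smul, neg_bk_self, smul_zero, add_zero]
  have hy1' : y1 ≠ 0 := by
    intro h
    apply hne
    rw [← hbk1, h, neg_bk_zero]
  have hb : 0 < mi y1 y1 := lt_of_le_of_ne (mi_self_nonneg _) fun h =>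
    hy1' (mi_self_eq_zero h.symm)
  have hxy1 : mi x0 y1 = 0 := by
    rw [hy1, mi_add_right, mi_smul_right]
    field_simp
    ring
  have hy1C : y1 ∈ C := by
    rw [hy1]
    exact C.add_mem hy0 (C.smul_mem _ hx0)
  obtain ⟨r, hr⟩ : ∃ r, r = Real.sqrt (mi x0 x0) := ⟨_, rfl⟩
  obtain ⟨t, htt⟩ : ∃ t, t = Real.sqrt (mi y1 y1) := ⟨_, rfl⟩
  have hr0 : 0 < r := by rw [hr]; exact Real.sqrt_pos.2 ha
  have hr2 : r * r = mi x0 x0 := by rw [hr]; exact Real.mul_self_sqrt ha.le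
  have ht0 : 0 < t := by rw [htt]; exact Real.sqrt_pos.2 hb
  have ht2 : t * t = mi y1 y1 := by rw [htt]; exact Real.mul_self_sqrt hb.le
  obtain ⟨⟨x, y⟩, hp, hmax⟩ := (neg_compact C).exists_isMaxOn
    ⟨(r⁻¹ • x0, t⁻¹ • y1), ⟨C.smul_mem _ hx0, C.smul_mem _ hy1C⟩,
      by rw [mi_smul_left, mi_smul_right, ← hr2]; field_simp,
      by rw [mi_smul_left, mi_smul_right, ← ht2]; field_simp,
      by rw [mi_smul_left, mi_smul_right, hxy1, mul_zero, mul_zero]⟩ neg_cont.continuousOn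
  obtain ⟨⟨hx, hy⟩, hxx, hyy, hxy⟩ := hp
  simp only at hx hy hxx hyy hxy
  obtain ⟨κ, hκ⟩ : ∃ κ, κ = mi (bk x y) (bk x y) := ⟨_, rfl⟩
  have hmx : ∀ a b, a ∈ C → b ∈ C → mi a a = 1 → mi b b = 1 → mi a b = 0 →
      mi (bk a b) (bk a b) ≤ κ := by
    intro a b h1 h2 h3 h4 h5
    have hmem : (a, b) ∈ {p : Mt d × Mt d |
        (p.1 ∈ C ∧ p.2 ∈ C) ∧ mi p.1 p.1 = 1 ∧ mi p.2 p.2 = 1 ∧ mi p.1 p.2 = 0} :=
      ⟨⟨h1, h2⟩, h3, h4, h5⟩
    have h6 := isMaxOn_iff.1 hmax (a, b) hmem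
    simp only at h6
    rw [hκ]
    exact h6
  have hκ0 : 0 < κ := by
    have h1 := hmx (r⁻¹ • x0) (t⁻¹ • y1) (C.smul_mem _ hx0) (C.smul_mem _ hy1C)
      (by rw [mi_smul_left, mi_smul_right, ← hr2]; field_simp)
      (by rw [mi_smul_left, mi_smul_right, ← ht2]; field_simp)
      (by rw [mi_smul_left, mi_smul_right, hxy1, mul_zero, mul_zero])
    refine lt_of_lt_of_le ?_ h1
    rw [neg_bk_smul, neg_bk_smul', smul_smul, mi_smul_left, mi_smul_right, hbk1]
    have h2 : 0 < mi (bk x0 y0) (bk x0 y0) := lt_of_le_of_ne (mi_self_nonneg _) fun h =>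
      hne (mi_self_eq_zero h.symm)
    positivity
  have e1 : bk x (bk x y) = κ • y := by
    refine neg_step hs ht hx hy hyy hxy hκ.symm (neg_homog fun z hz hzz hxz => ?_)
    exact hmx x z hx hz hxx hzz hxz
  have e2 : bk y (bk y x) = κ • x := by
    refine neg_step hs ht hy hx hxx (by rw [mi_comm, hxy]) ?_ (neg_homog fun z hz hzz hyz => ?_)
    · rw [neg_bk_anti x y, mi_neg_left, mi_neg_right, neg_neg, hκ]
    · exact hmx y z hy hz hyy hzz hyz
  have hx1 : x ≠ 0 := by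
    rintro rfl
    rw [mi_zero_left] at hxx
    exact zero_ne_one hxx
  have e3 : bk (bk x y) x = -(κ • y) := by
    rw [neg_bk_anti x (bk x y), e1]
  have e4 : bk (bk x y) y = κ • x := by
    rw [← e2, neg_bk_anti y (bk x y), neg_bk_anti x y, neg_bk_neg]
  refine ⟨x, hx, hx1, (Real.pi / κ) • bk x y, ?_, rot hκ0.ne' e3 e4⟩
  rw [Matrix.transpose_smul, bk_transpose, hs x hx, hs y hy, neg_bk_anti x y, smul_neg]

end Pool.Agent.MP417N
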