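import Pool.Agent.Lib.MP_417c68_gt_N.PrjA

/-!
# MP_417c68_gt, project N, module Null1: weights

Notation: `L = Lam P`, `|x|² = mi x x`.

PROOFS.
* `P_ii`: `x = P (ee i i)` is in `U`, symmetric (`Prj.tr`, `ee_transpose`), and for `dg c ∈ U`
  `bk (dg c) x = P (bk (dg c) (ee i i)) = 0` (`Prj.ad`, `bk_dg_ee`).  By `hF` `x = dg c`, and
  `c j = mi (dg c) (ee j j)` (`mi_ee_right`) `= L i j`.
* `Lam_mem`: from `P_ii`.
* `Lam_symm`: `mi (P (ee i i)) (ee j j) = mi (ee i i) (P (ee j j))` (`hP.sym`, `mi_comm`).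
* `Lam_dot`: `L i ⬝ᵥ c = mi (dg (L i)) (dg c) = mi (P (ee i i)) (dg c) = mi (ee i i) (P (dg c)) =
  mi (ee i i) (dg c) = c i`.
* `Lam_Lam`: `Lam_dot` for `c = L j`, and `Lam_symm`.
* `P_tr`: `Null P` for `v = Pi.single i 1`, `w = Pi.single j 1`: `vw v w = ee i j`, so
  `mi (P (ee i j)) (ee j i) = 0`; `Prj.two`.
* `P_sq`: `Null P` for `v = e_i + e_j`, `w = e_i - e_j`: `vw v w = (ee i i - ee j j) + (ee j i -
  ee i j)`, `vw w v = (ee i i - ee j j) - (ee j i - ee i j)`.  `a = P (ee i i - ee j j) =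
  dg (L i - L j)`, `b = P (ee j i - ee i j)`: `0 = mi (P (vw v w)) (P (vw w v)) = mi (a + b) (a - b)
  = |a|² - |b|²`, `|a|² = DD L i j`, and
  `|b|² = |P (ee j i)|² + |P (ee i j)|² - 2 mi (P (ee j i)) (P (ee i j)) = 2 |P (ee i j)|²`
  (`P_tr`, `Prj.tr`, `mi_transpose`).
* `P_wt`: `bk (dg c) (P (ee i j)) = P (bk (dg c) (ee i j)) = (c i - c j) • P (ee i j)`, and
  `c i - c j = (L i - L j) ⬝ᵥ c` (`Lam_dot`).
* `entry`: `x i j = mi x (ee i j) = mi (P x) (ee i j) = mi x (P (ee i j))`.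
* `wt_orth`: for `c = γ - γ'`: `(γ ⬝ᵥ c) mi x y = mi (bk (dg c) x) y = mi x (bk (dg c) y) =
  (γ' ⬝ᵥ c) mi x y` (`mi_bk`, `dg_transpose`) and `γ ⬝ᵥ c - γ' ⬝ᵥ c = c ⬝ᵥ c ≠ 0`.
* `wt_zero`: let `i ≠ j`.  If `L i = L j` then `P (ee i j) = 0` by `P_sq`; otherwise
  `mi x (P (ee i j)) = 0` by `wt_orth` (`γ = 0`, `γ' = L i - L j`, `P_wt`).  So `x i j = 0` by
  `entry`.
* `bk_wt`: `z = bk x yᵀ` is in `U`, and for `dg c ∈ U` `bk (dg c) z = 0` (Jacobi;
  `bk (dg c) yᵀ = -(γ ⬝ᵥ c) • yᵀ` by transposition), so `z = dg e` by `wt_zero`.  For `dg c ∈ U`: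
  `mi z (dg c) = mi yᵀ (bk xᵀ (dg c))` (`mi_bk`) `= (γ ⬝ᵥ c) * mi yᵀ xᵀ = (γ ⬝ᵥ c) * mi x y`.  So
  `dg (e - mi x y • γ) ∈ U` is orthogonal to all `dg c ∈ U`, also to itself; it is `0`.
-/

noncomputable section

namespace Pool.Agent.MP417N

open Matrix

variable {d : ℕ} {U : Submodule ℝ (Mt d)} {P : Mt d →ₗ[ℝ] Mt d}

private theorem null1_dg (a b : Fin d → ℝ) : mi (dg a) (dg b) = a ⬝ᵥ b := by
  rw [mi, dg_transpose, dg, dg, Matrix.diagonal_mul_diagonal, Matrix.trace_diagonal]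
  rfl

private theorem null1_sub (a b : Fin d → ℝ) : dg (a - b) = dg a - dg b := by
  ext i j
  by_cases h : i = j
  · subst h
    simp [dg]
  · simp [dg, h]

private theorem null1_smul (r : ℝ) (a : Fin d → ℝ) : dg (r • a) = r • dg a := by
  ext i j
  by_cases h : i = j
  · subst h
    simp [dg]
  · simp [dg, h]

private theorem null1_zero : dg (0 : Fin d → ℝ) = 0 := by
  ext i j
  by_cases h : i = j
  · subst h
    simp [dg]
  · simp [dg, h]

theorem P_ii (hU : LA U) (hP : Prj U P) (hF : Frm U) (i : Fin d) :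
    P (ee i i) = dg (Lam P i) := by
  have h1 : (P (ee i i))ᵀ = P (ee i i) := by
    rw [← hP.tr hU, ee_transpose]
  obtain ⟨c, hc⟩ := hF _ (hP.mem _) h1 fun c hc => by
    have h2 := hP.ad hU hc (ee i i)
    rw [bk_dg_ee, sub_self, zero_smul, map_zero] at h2
    exact (sub_eq_zero.1 h2.symm).symm
  have h3 : Lam P i = c := by
    funext j
    rw [Lam, mi_ee_right, hc, dg, Matrix.diagonal_apply_eq]
  rw [h3, hc]

theorem Lam_mem (hU : LA U) (hP : Prj U P) (hF : Frm U) (i : Fin d) : dg (Lam P i) ∈ U := by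
  rw [← P_ii hU hP hF]
  exact hP.mem _

theorem Lam_symm (hP : Prj U P) (i j : Fin d) : Lam P i j = Lam P j i := by
  rw [Lam, Lam, hP.sym, mi_comm]

theorem Lam_dot (hU : LA U) (hP : Prj U P) (hF : Frm U) {c : Fin d → ℝ} (hc : dg c ∈ U)
    (i : Fin d) : Lam P i ⬝ᵥ c = c i := by
  rw [← null1_dg, ← P_ii hU hP hF, hP.sym, hP.fix _ hc, mi_ee_left, dg,
    Matrix.diagonal_apply_eq]

theorem Lam_Lam (hU : LA U) (hP : Prj U P) (hF : Frm U) (i j : Fin d) :
    Lam P i ⬝ᵥ Lam P j = Lam P i j := by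
  rw [Lam_dot hU hP hF (Lam_mem hU hP hF j), Lam_symm hP]

theorem P_tr (hP : Prj U P) (hN : Null P) {i j : Fin d} (h : i ≠ j) :
    mi (P (ee i j)) (P (ee j i)) = 0 := by
  have h1 : ∀ k l : Fin d, vw (Pi.single k 1) (Pi.single l 1) = ee k l := by
    intro k l
    ext a b
    rw [vw, Matrix.vecMulVec_apply, ee, Matrix.single_apply, Pi.single_apply, Pi.single_apply]
    by_cases h2 : a = k
    · by_cases h3 : b = l
      · simp [h2, h3]
      · simp [h2, h3, Ne.symm h3]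
    · simp [h2, Ne.symm h2]
  have h2 := hN (Pi.single i 1) (Pi.single j 1) (by
    rw [single_one_dotProduct, Pi.single_eq_of_ne h])
  rw [h1, h1] at h2
  rw [hP.two, h2]

theorem P_sq (hU : LA U) (hP : Prj U P) (hF : Frm U) (hN : Null P) {i j : Fin d} (h : i ≠ j) :
    2 * mi (P (ee i j)) (P (ee i j)) = DD (Lam P) i j := by
  have h1 : ∀ k l : Fin d, vw (Pi.single k 1) (Pi.single l 1) = ee k l := by
    intro k l
    ext a b
    rw [vw, Matrix.vecMulVec_apply, ee, Matrix.single_apply, Pi.single_apply, Pi.single_apply]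
    by_cases h2 : a = k
    · by_cases h3 : b = l
      · simp [h2, h3]
      · simp [h2, h3, Ne.symm h3]
    · simp [h2, Ne.symm h2]
  have h2 := hN (Pi.single i 1 + Pi.single j 1) (Pi.single i 1 - Pi.single j 1) (by
    rw [add_dotProduct, single_one_dotProduct, single_one_dotProduct, Pi.sub_apply,
      Pi.sub_apply, Pi.single_eq_same, Pi.single_eq_same, Pi.single_eq_of_ne h,
      Pi.single_eq_of_ne h.symm]
    ring)
  have e1 : vw (Pi.single i 1 + Pi.single j 1) (Pi.single i 1 - Pi.single j 1) =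
      (ee i i - ee j j) + (ee j i - ee i j) := by
    rw [vw, Matrix.add_vecMulVec, Matrix.vecMulVec_sub, Matrix.vecMulVec_sub, ← h1, ← h1, ← h1,
      ← h1]
    simp only [vw]
    abel
  have e2 : vw (Pi.single i 1 - Pi.single j 1) (Pi.single i 1 + Pi.single j 1) =
      (ee i i - ee j j) - (ee j i - ee i j) := by
    rw [vw, Matrix.sub_vecMulVec, Matrix.vecMulVec_add, Matrix.vecMulVec_add, ← h1, ← h1, ← h1,
      ← h1]
    simp only [vw]
    abel
  rw [← hP.two, e1, e2, map_add, map_sub P _ (ee j i - ee i j), mi_add_left, mi_sub_right,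
    mi_sub_right] at h2
  have h3 : P (ee i i - ee j j) = dg (Lam P i - Lam P j) := by
    rw [map_sub, P_ii hU hP hF, P_ii hU hP hF, null1_sub]
  have h4 : mi (P (ee i i - ee j j)) (P (ee i i - ee j j)) = DD (Lam P) i j := by
    rw [h3, null1_dg, DD]
  have h5 : mi (P (ee j i - ee i j)) (P (ee i i - ee j j)) =
      mi (P (ee i i - ee j j)) (P (ee j i - ee i j)) := mi_comm _ _
  have h6 : mi (P (ee j i - ee i j)) (P (ee j i - ee i j)) =
      2 * mi (P (ee i j)) (P (ee i j)) := by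
    have h7 : mi (P (ee j i)) (P (ee j i)) = mi (P (ee i j)) (P (ee i j)) := by
      have h8 : P (ee j i) = (P (ee i j))ᵀ := by
        rw [← hP.tr hU, ee_transpose]
      rw [h8, mi_transpose]
    rw [map_sub, mi_sub_left, mi_sub_right, mi_sub_right, P_tr hP hN h, P_tr hP hN h.symm, h7]
    ring
  rw [h4, h5, h6] at h2
  linarith

theorem P_wt (hU : LA U) (hP : Prj U P) (hF : Frm U) (i j : Fin d) :
    Wt U (Lam P i - Lam P j) (P (ee i j)) := by
  refine ⟨hP.mem _, fun c hc => ?_⟩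
  rw [← hP.ad hU hc, bk_dg_ee, map_smul, sub_dotProduct, Lam_dot hU hP hF hc,
    Lam_dot hU hP hF hc]

theorem entry (hP : Prj U P) {x : Mt d} (hx : x ∈ U) (i j : Fin d) :
    x i j = mi x (P (ee i j)) := by
  rw [← hP.sym, hP.fix x hx, mi_ee_right]

theorem wt_orth {γ γ' : Fin d → ℝ} (hγ : dg γ ∈ U) (hγ' : dg γ' ∈ U) (hne : γ ≠ γ') {x y : Mt d}
    (hx : Wt U γ x) (hy : Wt U γ' y) : mi x y = 0 := by
  have hc : dg (γ - γ') ∈ U := by
    rw [null1_sub]
    exact U.sub_mem hγ hγ'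
  have h1 := mi_bk (dg (γ - γ')) x y
  rw [dg_transpose, hx.2 _ hc, hy.2 _ hc, mi_smul_left, mi_smul_right] at h1
  have h2 : ((γ - γ') ⬝ᵥ (γ - γ')) * mi x y = 0 := by
    rw [sub_dotProduct, sub_mul, h1, sub_self]
  rcases mul_eq_zero.1 h2 with h3 | h3
  · exact absurd (sub_eq_zero.1 (dotProduct_self_eq_zero.1 h3)) hne
  · exact h3

theorem wt_zero (hU : LA U) (hP : Prj U P) (hF : Frm U) (hN : Null P) {x : Mt d}
    (hx : Wt U 0 x) : ∃ c, x = dg c := by
  refine ⟨fun i => x i i, ?_⟩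
  ext i j
  by_cases h : i = j
  · subst h
    rw [dg, Matrix.diagonal_apply_eq]
  · rw [dg, Matrix.diagonal_apply_ne _ h, entry hP hx.1]
    by_cases h1 : Lam P i = Lam P j
    · have h2 := P_sq hU hP hF hN h
      rw [DD, h1, sub_self, dotProduct_zero] at h2
      have h3 : mi (P (ee i j)) (P (ee i j)) = 0 := by linarith
      rw [mi_self_eq_zero h3, mi_zero_right]
    · refine wt_orth (γ := 0) (γ' := Lam P i - Lam P j) ?_ ?_ ?_ hx (P_wt hU hP hF i j)
      · rw [null1_zero]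
        exact U.zero_mem
      · rw [null1_sub]
        exact U.sub_mem (Lam_mem hU hP hF i) (Lam_mem hU hP hF j)
      · exact fun h2 => h1 (sub_eq_zero.1 h2.symm)

private theorem null1_jac (a x y : Mt d) :
    bk a (bk x y) = bk (bk a x) y + bk x (bk a y) := by
  simp only [bk]
  noncomm_ring

theorem bk_wt (hU : LA U) (hP : Prj U P) (hF : Frm U) (hN : Null P) {γ : Fin d → ℝ}
    (hγ : dg γ ∈ U) {x y : Mt d} (hx : Wt U γ x) (hy : Wt U γ y) :
    bk x yᵀ = mi x y • dg γ := by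
  have hz : bk x yᵀ ∈ U := hU.br x hx.1 _ (hU.tr y hy.1)
  have h1 : ∀ c, dg c ∈ U → bk (dg c) yᵀ = -((γ ⬝ᵥ c) • yᵀ) := by
    intro c hc
    have h2 := congrArg Matrix.transpose (hy.2 c hc)
    rw [bk_transpose, dg_transpose, Matrix.transpose_smul] at h2
    rw [← h2, bk, bk, neg_sub]
  have hw : Wt U 0 (bk x yᵀ) := by
    refine ⟨hz, fun c hc => ?_⟩
    rw [null1_jac, hx.2 c hc, h1 c hc, zero_dotProduct, zero_smul, bk, bk]
    simp only [Matrix.smul_mul, Matrix.mul_smul, Matrix.mul_neg, Matrix.neg_mul]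
    abel
  obtain ⟨e, he⟩ := wt_zero hU hP hF hN hw
  have h2 : ∀ c, dg c ∈ U → e ⬝ᵥ c = (γ ⬝ᵥ c) * mi x y := by
    intro c hc
    have h3 := congrArg Matrix.transpose (hx.2 c hc)
    rw [bk_transpose, dg_transpose, Matrix.transpose_smul] at h3
    rw [← null1_dg, ← he, mi_bk, h3, mi_smul_right, mi_transpose, mi_comm y x]
  have hf : dg (e - mi x y • γ) ∈ U := by
    rw [null1_sub, null1_smul, ← he]
    exact U.sub_mem hz (U.smul_mem _ hγ)
  have h4 : mi (dg (e - mi x y • γ)) (dg (e - mi x y • γ)) = 0 := by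
    rw [null1_dg, sub_dotProduct, h2 _ hf, smul_dotProduct, smul_eq_mul]
    ring
  have h5 := mi_self_eq_zero h4
  rw [null1_sub, null1_smul, sub_eq_zero] at h5
  rw [he, h5]

end Pool.Agent.MP417N
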