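import Pool.Agent.Lib.MP_417c68_gt_N.Null1

/-!
# MP_417c68_gt, project N, module Null2: the weight spaces are one-dimensional

PROOFS (`L = Lam P`, `|x|² = mi x x`).
* `wt_one`: let `z = bk x y`.  `|z|² = mi (bk x y) z = mi y (bk xᵀ z)` (`mi_bk`) and by Jacobi
  `bk xᵀ (bk x y) = bk (bk xᵀ x) y + bk x (bk xᵀ y)`.  By `bk_wt`: `bk x xᵀ = |x|² • dg γ`,
  `bk y xᵀ = mi y x • dg γ = 0`, so `bk xᵀ x = -(|x|² • dg γ)`, `bk xᵀ y = -bk y xᵀ = 0` and
  `bk xᵀ z = -|x|² • bk (dg γ) y = -(|x|² (γ ⬝ᵥ γ)) • y`.  So `|z|² = -|x|² (γ ⬝ᵥ γ) |y|²`, both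
  sides are `0`, and `γ ⬝ᵥ γ ≠ 0`.
* `wt_pm`: if `x = 0` then `|y|² = 0`.  Otherwise `y' = y - (mi x y / |x|²) • x` has weight `γ` and
  is orthogonal to `x`, so it is `0` (`wt_one`), `y = c • x`, and `|y|² = c² |x|²` gives `c = ± 1`.
* `lam_dich`: suppose that `L` is not injective: `L i = L i'`, `i ≠ i'`.  Let `j` be given and
  suppose `γ = L i - L j ≠ 0`; then `j ≠ i, i'`.  `P (ee i i') = P (ee i' i) = 0` (`P_sq`).
  `e = P (ee i j)` and `e' = P (ee i' j)` have weight `γ` and `|e|² = |e'|² = (γ ⬝ᵥ γ) / 2`, so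
  `e' = t • e`, `t = ± 1` (`wt_pm`).  `Null P` for `v = e_i + e_i' + √2 e_j`,
  `w = e_i + e_i' - √2 e_j`:
  `vw v w = (ee i i + ee i' i' + ee i i' + ee i' i - 2 ee j j) + √2 (ee j i + ee j i' - ee i j -
  ee i' j)`, and `vw w v` is its transpose.  `P` maps the first bracket to
  `dg (L i + L i' - 2 L j) = dg (2 γ)` and the second to `-(1 + t) (e - eᵀ)`, so
  `0 = 4 (γ ⬝ᵥ γ) - 2 (1 + t)² |e - eᵀ|²` with `|e - eᵀ|² = 2 |e|² - 2 mi e eᵀ = γ ⬝ᵥ γ` (`P_tr`).
  So `(1 + t)² = 2`, impossible.  So all `L j` are equal.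
* `lam_const`: for `dg c ∈ U` `c i = L i ⬝ᵥ c = L j ⬝ᵥ c = c j` (`Lam_dot`) and
  `∑ i, c i = (dg c).trace = 0` (`hU.tz`).
-/

noncomputable section

namespace Pool.Agent.MP417N

open Matrix

variable {d : ℕ} {U : Submodule ℝ (Mt d)} {P : Mt d →ₗ[ℝ] Mt d}

private theorem bk_swap (x y : Mt d) : bk x y = -bk y x := by
  rw [bk, bk, neg_sub]

private theorem bk_smul_left' (c : ℝ) (x y : Mt d) : bk (c • x) y = c • bk x y := by
  rw [bk, bk, Matrix.smul_mul, Matrix.mul_smul, smul_sub]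

private theorem bk_smul_right' (c : ℝ) (x y : Mt d) : bk x (c • y) = c • bk x y := by
  rw [bk, bk, Matrix.smul_mul, Matrix.mul_smul, smul_sub]

private theorem bk_neg_left' (x y : Mt d) : bk (-x) y = -bk x y := by
  rw [bk, bk, neg_mul, mul_neg]
  abel

private theorem bk_sub_right' (x y z : Mt d) : bk x (y - z) = bk x y - bk x z := by
  rw [bk, bk, bk, mul_sub, sub_mul]
  abel

private theorem bk_zero_right' (x : Mt d) : bk x 0 = 0 := by
  rw [bk, mul_zero, zero_mul, sub_zero]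

private theorem bk_jac (a x y : Mt d) : bk a (bk x y) = bk (bk a x) y + bk x (bk a y) := by
  simp only [bk]
  noncomm_ring

private theorem dot_pos {γ : Fin d → ℝ} (h0 : γ ≠ 0) : 0 < γ ⬝ᵥ γ := by
  have h1 : 0 ≤ γ ⬝ᵥ γ := Finset.sum_nonneg fun i _ => mul_self_nonneg (γ i)
  refine lt_of_le_of_ne h1 fun h => h0 ?_
  exact dotProduct_self_eq_zero.1 h.symm

private theorem mi_dg (c e : Fin d → ℝ) : mi (dg c) (dg e) = c ⬝ᵥ e := by
  rw [mi, dg_transpose, dg, dg, Matrix.diagonal_mul_diagonal, Matrix.trace_diagonal]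
  rfl

private theorem dg_sub (c e : Fin d → ℝ) : dg (c - e) = dg c - dg e := by
  rw [dg, dg, dg, Matrix.diagonal_sub]
  rfl

private theorem Wt.sub' {γ : Fin d → ℝ} {x y : Mt d} (hx : Wt U γ x) (hy : Wt U γ y) :
    Wt U γ (x - y) := by
  refine ⟨U.sub_mem hx.1 hy.1, fun c hc => ?_⟩
  rw [bk_sub_right', hx.2 c hc, hy.2 c hc, smul_sub]

private theorem Wt.smul' {γ : Fin d → ℝ} {x : Mt d} (hx : Wt U γ x) (r : ℝ) :
    Wt U γ (r • x) := by
  refine ⟨U.smul_mem r hx.1, fun c hc => ?_⟩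
  rw [bk_smul_right', hx.2 c hc, smul_comm]

private theorem vw_single (i j : Fin d) : vw (Pi.single i 1) (Pi.single j 1) = ee i j := by
  rw [vw, ee, Matrix.single_eq_single_vecMulVec_single]

private theorem vw_add_left (a b c : Fin d → ℝ) : vw (a + b) c = vw a c + vw b c := by
  rw [vw, vw, vw, Matrix.add_vecMulVec]

private theorem vw_add_right (a b c : Fin d → ℝ) : vw a (b + c) = vw a b + vw a c := by
  rw [vw, vw, vw, Matrix.vecMulVec_add]

private theorem vw_smul_left (r : ℝ) (a b : Fin d → ℝ) : vw (r • a) b = r • vw a b := by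
  rw [vw, vw, Matrix.smul_vecMulVec]

private theorem vw_smul_right (r : ℝ) (a b : Fin d → ℝ) : vw a (r • b) = r • vw a b := by
  rw [vw, vw, Matrix.vecMulVec_smul]

private theorem sq_one (c : ℝ) (h : c ^ 2 = 1) : c = 1 ∨ c = -1 := by
  have h1 : (c - 1) * (c + 1) = 0 := by
    linear_combination h
  rcases mul_eq_zero.1 h1 with h | h
  · left
    linarith
  · right
    linarith

theorem wt_one (hU : LA U) (hP : Prj U P) (hF : Frm U) (hN : Null P) {γ : Fin d → ℝ}
    (hγ : dg γ ∈ U) (h0 : γ ≠ 0) {x y : Mt d} (hx : Wt U γ x) (hy : Wt U γ y)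
    (hxy : mi x y = 0) : x = 0 ∨ y = 0 := by
  have h1 : bk xᵀ x = -(mi x x • dg γ) := by
    rw [bk_swap, bk_wt hU hP hF hN hγ hx hx]
  have h2 : bk xᵀ y = 0 := by
    rw [bk_swap, bk_wt hU hP hF hN hγ hy hx, mi_comm y x, hxy, zero_smul, neg_zero]
  have h3 : bk xᵀ (bk x y) = -((mi x x * (γ ⬝ᵥ γ)) • y) := by
    rw [bk_jac, h1, h2, bk_zero_right', add_zero, bk_neg_left', bk_smul_left', hy.2 γ hγ,
      smul_smul]
  have h4 : mi (bk x y) (bk x y) = -(mi x x * (γ ⬝ᵥ γ) * mi y y) := by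
    rw [mi_bk, h3, mi_neg_right, mi_smul_right]
  have h5 := mi_self_nonneg (bk x y)
  have h6 := mi_self_nonneg x
  have h7 := mi_self_nonneg y
  have h8 := dot_pos h0
  have h9 : mi x x * (γ ⬝ᵥ γ) * mi y y = 0 := by
    have : 0 ≤ mi x x * (γ ⬝ᵥ γ) * mi y y := mul_nonneg (mul_nonneg h6 h8.le) h7
    linarith
  rcases mul_eq_zero.1 h9 with h | h
  · rcases mul_eq_zero.1 h with h | h
    · exact Or.inl (mi_self_eq_zero h)
    · exact absurd h h8.ne'
  · exact Or.inr (mi_self_eq_zero h)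

theorem wt_pm (hU : LA U) (hP : Prj U P) (hF : Frm U) (hN : Null P) {γ : Fin d → ℝ}
    (hγ : dg γ ∈ U) (h0 : γ ≠ 0) {x y : Mt d} (hx : Wt U γ x) (hy : Wt U γ y)
    (hn : mi y y = mi x x) : y = x ∨ y = -x := by
  by_cases hx0 : x = 0
  · left
    rw [hx0, mi_zero_left] at hn
    rw [hx0]
    exact mi_self_eq_zero hn
  have hxx : mi x x ≠ 0 := fun h => hx0 (mi_self_eq_zero h)
  have h1 : Wt U γ (y - (mi x y / mi x x) • x) := hy.sub' (hx.smul' _)
  have h2 : mi x (y - (mi x y / mi x x) • x) = 0 := by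
    rw [mi_sub_right, mi_smul_right, div_mul_cancel₀ _ hxx, sub_self]
  rcases wt_one hU hP hF hN hγ h0 hx h1 h2 with h | h
  · exact absurd h hx0
  · have h3 : y = (mi x y / mi x x) • x := sub_eq_zero.1 h
    generalize mi x y / mi x x = c at h3
    have h4 : c ^ 2 = 1 := by
      have h5 : c * (c * mi x x) = mi x x := by
        rw [← mi_smul_right, ← mi_smul_left, ← h3, hn]
      have h6 : (c ^ 2 - 1) * mi x x = 0 := by
        linear_combination h5
      rcases mul_eq_zero.1 h6 with h | h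
      · linarith
      · exact absurd h hxx
    rcases sq_one c h4 with h | h
    · left
      rw [h3, h, one_smul]
    · right
      rw [h3, h, neg_smul, one_smul]

private theorem mi_split {a b : Mt d} (ha : aᵀ = a) (hb : bᵀ = -b) :
    mi (a + b) (a + b)ᵀ = mi a a - mi b b := by
  rw [Matrix.transpose_add, ha, hb, mi_add_left, mi_add_right, mi_add_right, mi_neg_right,
    mi_neg_right, mi_comm b a]
  ring

private theorem lam_key (hU : LA U) (hP : Prj U P) (hF : Frm U) (hN : Null P) {i i' j : Fin d}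
    (hii : i ≠ i') (hL : Lam P i = Lam P i') : Lam P i = Lam P j := by
  by_contra hne
  have hij : i ≠ j := fun h => hne (by rw [h])
  have hij' : i' ≠ j := fun h => hne (by rw [hL, h])
  set γ : Fin d → ℝ := Lam P i - Lam P j with hγd
  have hγ0 : γ ≠ 0 := fun h => hne (sub_eq_zero.1 h)
  have hγ : dg γ ∈ U := by
    rw [hγd, dg_sub]
    exact U.sub_mem (Lam_mem hU hP hF i) (Lam_mem hU hP hF j)
  have hz1 : P (ee i i') = 0 := by
    have h := P_sq hU hP hF hN hii
    rw [DD, hL, sub_self, zero_dotProduct] at h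
    exact mi_self_eq_zero (by linarith)
  have hz2 : P (ee i' i) = 0 := by
    rw [← ee_transpose, hP.tr hU, hz1, Matrix.transpose_zero]
  have hw1 : Wt U γ (P (ee i j)) := P_wt hU hP hF i j
  have hw2 : Wt U γ (P (ee i' j)) := by
    rw [hγd, hL]
    exact P_wt hU hP hF i' j
  have hs1 : 2 * mi (P (ee i j)) (P (ee i j)) = γ ⬝ᵥ γ := P_sq hU hP hF hN hij
  have hs2 : 2 * mi (P (ee i' j)) (P (ee i' j)) = γ ⬝ᵥ γ := by
    have h := P_sq hU hP hF hN hij'
    rw [DD, ← hL] at h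
    exact h
  have hpm := wt_pm hU hP hF hN hγ hγ0 hw1 hw2 (by linarith)
  have htr : mi (P (ee i j)) (P (ee i j))ᵀ = 0 := by
    rw [← hP.tr hU, ee_transpose]
    exact P_tr hP hN hij
  have hpos := dot_pos hγ0
  -- the null vector
  have hr : Real.sqrt 2 * Real.sqrt 2 = 2 := Real.mul_self_sqrt (by norm_num)
  generalize Real.sqrt 2 = r at hr
  obtain ⟨v, hv⟩ : ∃ v : Fin d → ℝ, v = Pi.single i 1 + Pi.single i' 1 + r • Pi.single j 1 :=
    ⟨_, rfl⟩
  obtain ⟨w, hw⟩ : ∃ w : Fin d → ℝ, w = Pi.single i 1 + Pi.single i' 1 + (-r) • Pi.single j 1 :=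
    ⟨_, rfl⟩
  have hvw : v ⬝ᵥ w = 0 := by
    have e1 : v ⬝ᵥ w = w i + w i' + r * w j := by
      rw [hv]
      simp only [add_dotProduct, smul_dotProduct, single_dotProduct, smul_eq_mul, one_mul]
    have e2 : w i = 1 := by
      rw [hw]
      simp [hii, hij]
    have e3 : w i' = 1 := by
      rw [hw]
      simp [hii.symm, hij']
    have e4 : w j = -r := by
      rw [hw]
      simp [hij.symm, hij'.symm]
    rw [e1, e2, e3, e4]
    linear_combination -hr
  have hnull := hN _ _ hvw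
  have hP2 : P (vw w v) = (P (vw v w))ᵀ := by
    rw [← hP.tr hU, vw_transpose]
  rw [← hP.two, hP2] at hnull
  have hP1 : P (vw v w) =
      (2 : ℝ) • dg γ + r • ((P (ee i j))ᵀ + (P (ee i' j))ᵀ - P (ee i j) - P (ee i' j)) := by
    rw [← hP.tr hU, ← hP.tr hU, ee_transpose, ee_transpose, hv, hw]
    simp only [vw_add_left, vw_add_right, vw_smul_left, vw_smul_right, vw_single, map_add,
      map_smul, hz1, hz2, P_ii hU hP hF]
    rw [← hL, hγd, dg_sub, smul_add (-r), smul_smul, neg_mul, hr]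
    module
  have ha : ((2 : ℝ) • dg γ)ᵀ = (2 : ℝ) • dg γ := by
    rw [Matrix.transpose_smul, dg_transpose]
  have haa : mi ((2 : ℝ) • dg γ) ((2 : ℝ) • dg γ) = 4 * (γ ⬝ᵥ γ) := by
    rw [mi_smul_left, mi_smul_right, mi_dg]
    ring
  rcases hpm with h | h
  · have h1 : (P (ee i j))ᵀ + (P (ee i' j))ᵀ - P (ee i j) - P (ee i' j) =
        (2 : ℝ) • ((P (ee i j))ᵀ - P (ee i j)) := by
      rw [h]
      module
    have hb : (r • (2 : ℝ) • ((P (ee i j))ᵀ - P (ee i j)))ᵀ =
        -(r • (2 : ℝ) • ((P (ee i j))ᵀ - P (ee i j))) := by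
      rw [Matrix.transpose_smul, Matrix.transpose_smul, Matrix.transpose_sub,
        Matrix.transpose_transpose, ← smul_neg, ← smul_neg, neg_sub]
    have hbb : mi (r • (2 : ℝ) • ((P (ee i j))ᵀ - P (ee i j)))
        (r • (2 : ℝ) • ((P (ee i j))ᵀ - P (ee i j))) = 8 * (γ ⬝ᵥ γ) := by
      rw [mi_smul_left, mi_smul_right, mi_smul_left, mi_smul_right, mi_sub_left, mi_sub_right,
        mi_sub_right, mi_transpose, mi_comm (P (ee i j))ᵀ (P (ee i j)), htr]
      linear_combination (8 * mi (P (ee i j)) (P (ee i j))) * hr + 8 * hs1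
    rw [hP1, h1, mi_split ha hb, haa, hbb] at hnull
    linarith
  · have h1 : (P (ee i j))ᵀ + (P (ee i' j))ᵀ - P (ee i j) - P (ee i' j) = 0 := by
      rw [h, Matrix.transpose_neg]
      abel
    rw [hP1, h1, smul_zero, add_zero, ha, haa] at hnull
    linarith

theorem lam_dich (hU : LA U) (hP : Prj U P) (hF : Frm U) (hN : Null P) :
    (∀ i j, Lam P i = Lam P j) ∨ Function.Injective (Lam P) := by
  by_cases h : Function.Injective (Lam P)
  · exact Or.inr h
  · left
    have h1 : ∃ i i', Lam P i = Lam P i' ∧ i ≠ i' := by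
      by_contra hc
      refine h fun a b hab => ?_
      by_contra hne
      exact hc ⟨a, b, hab, hne⟩
    obtain ⟨i, i', hL, hii⟩ := h1
    intro a b
    rw [← lam_key hU hP hF hN hii hL (j := a), lam_key hU hP hF hN hii hL (j := b)]

theorem lam_const (hU : LA U) (hP : Prj U P) (hF : Frm U) (h : ∀ i j, Lam P i = Lam P j)
    {c : Fin d → ℝ} (hc : dg c ∈ U) : c = 0 := by
  have h1 : ∀ i j, c i = c j := fun i j => by
    rw [← Lam_dot hU hP hF hc i, ← Lam_dot hU hP hF hc j, h i j]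
  have h2 : ∑ i, c i = 0 := by
    have h3 := hU.tz _ hc
    rw [dg, Matrix.trace_diagonal] at h3
    exact h3
  funext i
  have h3 : ∑ j, c j = ∑ _j : Fin d, c i := Finset.sum_congr rfl fun j _ => h1 j i
  rw [h2, Finset.sum_const, Finset.card_univ, Fintype.card_fin, nsmul_eq_mul] at h3
  have h4 : (d : ℝ) ≠ 0 := by
    have : 0 < d := lt_of_le_of_lt (Nat.zero_le _) i.isLt
    exact_mod_cast this.ne'
  rcases mul_eq_zero.1 h3.symm with h | h
  · exact absurd h h4
  · exact h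

end Pool.Agent.MP417N
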