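import Pool.Agent.Lib.MP_417c68_gt_N.GDefs

/-!
# MP_417c68_gt, project N, module Orb: orbits of the maximal compact subgroup in one block

PROOFS.
* `skew_lie`: for `a ≠ b` `em i (ee a b - ee b a) = (1/2) • br (em i (ee a a - ee b b))
  (em i (ee a b + ee b a))` (`br_em`) is in `lie G` (`SLQ.mem`, `hP.sup`, `lie_br`, `lie_smul`),
  and a skew `Z` is `(1/2) • ∑ a b, Z a b • (ee a b - ee b a)` (`lie_add`, sums).
* `orb_skew`: `k = eu (em i Z)`: in `G` (`t = 1`), orthogonal (`orth_eu`), `k.1 i = exp Z`,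
  `(k⁻¹).1 i = exp (-Z)` (`eu`).
* `orb_diag`: let `a₀ l = (l : ℝ) - ((N i : ℝ) - 1) / 2`, injective with sum `0`,
  `a = O * dg a₀ * Oᵀ` (symmetric, trace `0`).  `conj_comm hG` (`ConjL.lean`) for `em i x`, `em i a`
  gives `k ∈ G` orthogonal with `cA k (em i x)` commuting with `em i a`; so `y = k_i x k_i⁻¹`
  commutes with `a`, `Oᵀ * y * O` commutes with `dg a₀`, so it is diagonal.
* `orth_inv_blk`: `(k⁻¹).1 i = (k.1 i)ᵀ` for orthogonal `k`.
-/

noncomputable section

namespace Pool.Agent.MP417N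

open Matrix NormedSpace Pool.Agent.MP_417c68_gt Module

variable {n m : ℕ} {N : Fin n → ℕ} {i : Fin n} {G : Subgroup (Alg N)ˣ}
  {P : Fin m → Submodule ℝ (Alg N)}

theorem orth_inv_blk {k : (Alg N)ˣ} (ho : Orth k) : (k⁻¹).1 i = (k.1 i)ᵀ := by
  have h1 : k.1 i * (k⁻¹).1 i = 1 := congrFun k.mul_inv i
  calc (k⁻¹).1 i = (k.1 i)ᵀ * k.1 i * (k⁻¹).1 i := by rw [ho i, one_mul]
    _ = (k.1 i)ᵀ := by rw [mul_assoc, h1, mul_one]

private theorem orb_zero : (0 : Alg N) ∈ lie G := by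
  intro t
  rw [smul_zero, eu_zero]
  exact G.one_mem

private theorem orb_sum (hG : SelfAdj G) {ι : Type*} (s : Finset ι) (f : ι → Alg N)
    (h : ∀ a ∈ s, f a ∈ lie G) : ∑ a ∈ s, f a ∈ lie G :=
  Finset.sum_induction f (fun X => X ∈ lie G) (fun _ _ h1 h2 => lie_add hG.closed h1 h2)
    orb_zero h

private theorem orb_pp (hP : Ideals G P) {j : Fin m} (hQ : SLQ i (P j)) {x : Mt (N i)}
    (h1 : xᵀ = x) (h2 : x.trace = 0) : em i x ∈ pp G :=
  (hP.sup _).2 (Submodule.mem_iSup_of_mem j (hQ.mem.2 ⟨h1, h2⟩))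

private theorem orb_bk {d : ℕ} {a b : Fin d} (hab : a ≠ b) :
    ee a b - ee b a = (1 / 2 : ℝ) • bk (ee a a - ee b b) (ee a b + ee b a) := by
  unfold bk ee
  simp only [Matrix.sub_mul, Matrix.mul_sub, Matrix.mul_add, Matrix.add_mul,
    Matrix.single_mul_single_same, Matrix.single_mul_single_of_ne _ _ _ _ hab,
    Matrix.single_mul_single_of_ne _ _ _ _ hab.symm, mul_one]
  module

theorem skew_lie (hG : SelfAdj G) (hP : Ideals G P) {j : Fin m} (hQ : SLQ i (P j))
    {Z : Mt (N i)} (hZ : Zᵀ = -Z) : em i Z ∈ lie G := by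
  have hmem : ∀ a b : Fin (N i), em i (ee a b - ee b a) ∈ lie G := by
    intro a b
    by_cases hab : a = b
    · subst hab
      rw [sub_self, map_zero]
      exact orb_zero
    · have h1 : em i (ee a a - ee b b) ∈ pp G := by
        refine orb_pp hP hQ ?_ ?_
        · rw [Matrix.transpose_sub, ee_transpose, ee_transpose]
        · rw [Matrix.trace_sub, ee, ee, Matrix.trace_single_eq_same, Matrix.trace_single_eq_same,
            sub_self]
      have h2 : em i (ee a b + ee b a) ∈ pp G := by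
        refine orb_pp hP hQ ?_ ?_
        · rw [Matrix.transpose_add, ee_transpose, ee_transpose, add_comm]
        · rw [Matrix.trace_add, ee, ee, Matrix.trace_single_eq_of_ne _ _ _ hab,
            Matrix.trace_single_eq_of_ne _ _ _ (Ne.symm hab), add_zero]
      rw [orb_bk hab, map_smul, ← br_em]
      exact lie_smul _ (lie_br hG.closed h1.2 h2.2)
  have hz : Z = ∑ a, ∑ b, ((1 / 2) * Z a b) • (ee a b - ee b a) := by
    ext c d
    have h1 : Z d c = -Z c d := congrFun (congrFun hZ c) d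
    rw [Matrix.sum_apply]
    have h2 : ∀ a, (∑ b, ((1 / 2) * Z a b) • (ee a b - ee b a)) c d =
        (if a = c then (1 / 2) * Z a d else 0) - (if a = d then (1 / 2) * Z a c else 0) := by
      intro a
      rw [Matrix.sum_apply]
      have h3 : ∀ b, (((1 / 2) * Z a b) • (ee a b - ee b a)) c d =
          (if a = c ∧ b = d then (1 / 2) * Z a b else 0) -
          (if b = c ∧ a = d then (1 / 2) * Z a b else 0) := by
        intro b
        rw [Matrix.smul_apply, Matrix.sub_apply, ee, ee, Matrix.single_apply, Matrix.single_apply,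
          smul_eq_mul, mul_sub]
        simp only [mul_ite, mul_one, mul_zero]
      rw [Finset.sum_congr rfl fun b _ => h3 b, Finset.sum_sub_distrib]
      congr 1
      · by_cases h : a = c
        · simp [h]
        · simp [h]
      · by_cases h : a = d
        · simp [h]
        · simp [h]
    rw [Finset.sum_congr rfl fun a _ => h2 a, Finset.sum_sub_distrib, Finset.sum_ite_eq',
      Finset.sum_ite_eq', if_pos (Finset.mem_univ _), if_pos (Finset.mem_univ _), h1]
    ring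
  rw [hz, map_sum]
  refine orb_sum hG _ _ fun a _ => ?_
  rw [map_sum]
  refine orb_sum hG _ _ fun b _ => ?_
  rw [map_smul]
  exact lie_smul _ (hmem a b)

theorem orb_skew (hG : SelfAdj G) (hP : Ideals G P) {j : Fin m} (hQ : SLQ i (P j))
    {Z : Mt (N i)} (hZ : Zᵀ = -Z) :
    ∃ k ∈ G, Orth k ∧ k.1 i = exp Z ∧ (k⁻¹).1 i = exp (-Z) := by
  refine ⟨eu (em i Z), ?_, orth_eu fun i' => ?_, ?_, ?_⟩
  · have h := skew_lie hG hP hQ hZ 1
    rwa [one_smul] at h
  · by_cases h : i' = i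
    · subst h
      rw [em_same, hZ]
    · rw [em_ne Z h, Matrix.transpose_zero, neg_zero]
  · show exp ((em i Z : Alg N) i) = exp Z
    rw [em_same]
  · show exp (-((em i Z : Alg N) i)) = exp (-Z)
    rw [em_same]

private theorem orb_sum0 (d : ℕ) : ∑ l : Fin d, (((l : ℕ) : ℝ) - ((d : ℝ) - 1) / 2) = 0 := by
  rw [Finset.sum_sub_distrib, Fin.sum_univ_eq_sum_range (fun l => (l : ℝ)), Finset.sum_const,
    Finset.card_univ, Fintype.card_fin, nsmul_eq_mul]
  have h : (∑ l ∈ Finset.range d, (l : ℝ)) * 2 = d * ((d : ℝ) - 1) := by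
    induction d with
    | zero => simp
    | succ d ih =>
      rw [Finset.sum_range_succ, add_mul, ih]
      push_cast
      ring
  linarith

theorem orb_diag (hG : SelfAdj G) (hP : Ideals G P) {j : Fin m} (hQ : SLQ i (P j))
    {O : Mt (N i)} (hO : Oᵀ * O = 1) {x : Mt (N i)} (hx : xᵀ = x) (ht : x.trace = 0) :
    ∃ k ∈ G, Orth k ∧ ∃ c, k.1 i * x * (k⁻¹).1 i = O * dg c * Oᵀ := by
  have hO' : O * Oᵀ = 1 := mul_eq_one_comm.1 hO
  obtain ⟨a₀, ha₀⟩ : ∃ a₀ : Fin (N i) → ℝ, a₀ = fun l : Fin (N i) => ((l : ℕ) : ℝ) -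
      ((N i : ℝ) - 1) / 2 :=
    ⟨_, rfl⟩
  have hinj : ∀ p q, a₀ p = a₀ q → p = q := by
    intro p q h
    rw [ha₀] at h
    have h1 : ((p : ℕ) : ℝ) = ((q : ℕ) : ℝ) := by
      have h2 : ((p : ℕ) : ℝ) - ((N i : ℝ) - 1) / 2 = ((q : ℕ) : ℝ) - ((N i : ℝ) - 1) / 2 := h
      linarith
    exact Fin.ext (Nat.cast_injective (R := ℝ) h1)
  have hsum : ∑ l, a₀ l = 0 := by
    rw [ha₀]
    exact orb_sum0 (N i)
  have h1 : em i (O * dg a₀ * Oᵀ) ∈ pp G := by
    refine orb_pp hP hQ ?_ ?_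
    · rw [Matrix.transpose_mul, Matrix.transpose_mul, Matrix.transpose_transpose, dg_transpose,
        Matrix.mul_assoc]
    · rw [Matrix.mul_assoc, Matrix.trace_mul_comm, Matrix.mul_assoc, hO, Matrix.mul_one, dg,
        Matrix.trace_diagonal, hsum]
  obtain ⟨k, hk, ho, hc⟩ := conj_comm hG (orb_pp hP hQ hx ht) h1
  refine ⟨k, hk, ho, ?_⟩
  rw [cA_em] at hc
  obtain ⟨y, hy⟩ : ∃ y, y = k.1 i * x * (k⁻¹).1 i := ⟨_, rfl⟩
  rw [← hy] at hc ⊢
  have h2 : y * (O * dg a₀ * Oᵀ) = O * dg a₀ * Oᵀ * y := by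
    have h := congrFun hc i
    have h3 : (em i y : Alg N) i * (em i (O * dg a₀ * Oᵀ) : Alg N) i =
      (em i (O * dg a₀ * Oᵀ) : Alg N) i * (em i y : Alg N) i := h
    rwa [em_same, em_same] at h3
  obtain ⟨z, hz⟩ : ∃ z, z = Oᵀ * y * O := ⟨_, rfl⟩
  have h3 : z * dg a₀ = dg a₀ * z := by
    calc z * dg a₀ = Oᵀ * (y * (O * dg a₀ * Oᵀ)) * O := by
          rw [hz]
          simp only [Matrix.mul_assoc]
          rw [hO, Matrix.mul_one]
      _ = Oᵀ * (O * dg a₀ * Oᵀ * y) * O := by rw [h2]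
      _ = Oᵀ * O * dg a₀ * (Oᵀ * y * O) := by simp only [Matrix.mul_assoc]
      _ = dg a₀ * z := by rw [hO, Matrix.one_mul, hz]
  have h4 : z = dg fun p => z p p := by
    ext p q
    by_cases hpq : p = q
    · subst hpq
      rw [dg, Matrix.diagonal_apply_eq]
    · rw [dg, Matrix.diagonal_apply_ne _ hpq]
      have h5 := congrFun (congrFun h3 p) q
      rw [dg, Matrix.mul_diagonal, Matrix.diagonal_mul] at h5
      by_contra h6
      refine hpq (hinj p q ?_)
      have h7 : z p q * (a₀ p - a₀ q) = 0 := by linarith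
      rcases mul_eq_zero.1 h7 with h8 | h8
      · exact absurd h8 h6
      · linarith
  refine ⟨fun p => z p p, ?_⟩
  rw [← h4, hz]
  calc y = (O * Oᵀ) * y * (O * Oᵀ) := by rw [hO', Matrix.one_mul, Matrix.mul_one]
    _ = O * (Oᵀ * y * O) * Oᵀ := by simp only [Matrix.mul_assoc]

end Pool.Agent.MP417N
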