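import Pool.Agent.Lib.MP_417c68_gt_N.Rot

/-!
# MP_417c68_gt, project N, module Perm: permutations of the eigenvalues

PROOF.  Induction on `σ` (`Equiv.Perm.swap_induction_on`): `σ = 1` is `h0`.  For
`swap i j * σ` (or `σ * swap i j`, whichever is convenient, for all `c` simultaneously) use `h1` and
the case of a transposition for another `c`.

Transposition `i ≠ j`.  Let `Z₀ = ee i j - ee j i`, `x₀ = ee i i - ee j j`, `y₀ = ee i j + ee j i`:
`bk Z₀ x₀ = -(2 • y₀)`, `bk Z₀ y₀ = 2 • x₀`.  `dg c = a • x₀ + dg c'` with `a = (c i - c j) / 2` and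
`c' i = c' j = (c i + c j) / 2`, `c' k = c k` otherwise; `bk Z₀ (dg c') = 0`.  With
`Z = O * Z₀ * Oᵀ`, `x = O * x₀ * Oᵀ` etc. (`bk (O * u * Oᵀ) (O * v * Oᵀ) = O * bk u v * Oᵀ`):
`rot` (`κ = 2`) and `rot_fix` give for `Z₁ = (π / 2) • Z`:
`exp Z₁ * (O * dg c * Oᵀ) * exp (-Z₁) = O * (-(a • x₀) + dg c') * Oᵀ = O * dg (c ∘ swap i j) * Oᵀ`;
`Z₁` is skew, so `h2` applies.
-/

noncomputable section

namespace Pool.Agent.MP417N

open Matrix NormedSpace

variable {d : ℕ}

private theorem bk_conj {O : Mt d} (hO : Oᵀ * O = 1) (u v : Mt d) :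
    bk (O * u * Oᵀ) (O * v * Oᵀ) = O * bk u v * Oᵀ := by
  have h : ∀ a b : Mt d, O * a * Oᵀ * (O * b * Oᵀ) = O * (a * b) * Oᵀ := by
    intro a b
    calc O * a * Oᵀ * (O * b * Oᵀ) = O * a * (Oᵀ * O) * b * Oᵀ := by
          simp only [Matrix.mul_assoc]
      _ = O * (a * b) * Oᵀ := by
          rw [hO, Matrix.mul_one]
          simp only [Matrix.mul_assoc]
  rw [bk, h, h, bk, mul_sub, sub_mul]

private theorem ee_mul_same (i j k : Fin d) : ee i j * ee j k = ee i k := by
  rw [ee, ee, ee, Matrix.single_mul_single_same, mul_one]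

private theorem ee_mul_ne (i : Fin d) {j k : Fin d} (h : j ≠ k) (l : Fin d) :
    ee i j * ee k l = 0 := by
  rw [ee, ee, Matrix.single_mul_single_of_ne _ _ _ _ h]

private theorem bk_Z_x {i j : Fin d} (h : i ≠ j) :
    bk (ee i j - ee j i) (ee i i - ee j j) = -((2 : ℝ) • (ee i j + ee j i)) := by
  rw [bk]
  simp only [sub_mul, mul_sub, ee_mul_same, ee_mul_ne _ h, ee_mul_ne _ h.symm, two_smul]
  abel

private theorem bk_Z_y {i j : Fin d} (h : i ≠ j) :
    bk (ee i j - ee j i) (ee i j + ee j i) = (2 : ℝ) • (ee i i - ee j j) := by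
  rw [bk]
  simp only [sub_mul, mul_sub, add_mul, mul_add, ee_mul_same, ee_mul_ne _ h,
    ee_mul_ne _ h.symm, two_smul]
  abel

private theorem x_eq_dg {i j : Fin d} (h : i ≠ j) :
    ee i i - ee j j = dg (fun k => if k = i then (1 : ℝ) else if k = j then -1 else 0) := by
  ext k l
  rw [Matrix.sub_apply, ee, ee, Matrix.single_apply, Matrix.single_apply, dg,
    Matrix.diagonal_apply]
  by_cases hkl : k = l
  · subst hkl
    by_cases hi : k = i
    · subst hi
      rw [if_pos ⟨rfl, rfl⟩, if_neg (fun hh => h hh.1.symm), if_pos rfl, if_pos rfl, sub_zero]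
    · by_cases hj : k = j
      · subst hj
        rw [if_neg (fun hh => h hh.1), if_pos ⟨rfl, rfl⟩, if_pos rfl, if_neg hi, if_pos rfl,
          zero_sub]
      · rw [if_neg (fun hh => hi hh.1.symm), if_neg (fun hh => hj hh.1.symm), if_pos rfl,
          if_neg hi, if_neg hj, sub_zero]
  · rw [if_neg (fun hh => hkl (hh.1.symm.trans hh.2)),
      if_neg (fun hh => hkl (hh.1.symm.trans hh.2)), if_neg hkl, sub_zero]

private theorem perm_swap {R : Mt d → Mt d → Prop}
    (h2 : ∀ x Z : Mt d, Zᵀ = -Z → R x (exp Z * x * exp (-Z))) {O : Mt d} (hO : Oᵀ * O = 1)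
    (c : Fin d → ℝ) {i j : Fin d} (hij : i ≠ j) :
    R (O * dg c * Oᵀ) (O * dg (c ∘ Equiv.swap i j) * Oᵀ) := by
  set e : Fin d → ℝ := fun k => if k = i then (1 : ℝ) else if k = j then -1 else 0 with he
  set c' : Fin d → ℝ := fun k => if k = i then (c i + c j) / 2 else
    if k = j then (c i + c j) / 2 else c k with hc'
  set a : ℝ := (c i - c j) / 2 with ha
  have hc1 : dg c = a • dg e + dg c' := by
    have : c = a • e + c' := by
      funext k
      rw [Pi.add_apply, Pi.smul_apply, smul_eq_mul]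
      simp only [he, hc', ha]
      by_cases hi : k = i
      · subst hi
        rw [if_pos rfl, if_pos rfl]
        ring
      · by_cases hj : k = j
        · subst hj
          rw [if_neg hi, if_pos rfl, if_neg hi, if_pos rfl]
          ring
        · rw [if_neg hi, if_neg hj, if_neg hi, if_neg hj]
          ring
    conv_lhs => rw [this]
    rw [dg, dg, dg, ← Matrix.diagonal_smul, Matrix.diagonal_add]
    rfl
  have hc2 : dg (c ∘ Equiv.swap i j) = -(a • dg e) + dg c' := by
    have : c ∘ Equiv.swap i j = -(a • e) + c' := by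
      funext k
      rw [Pi.add_apply, Pi.neg_apply, Pi.smul_apply, smul_eq_mul, Function.comp_apply]
      simp only [he, hc', ha]
      by_cases hi : k = i
      · subst hi
        rw [Equiv.swap_apply_left, if_pos rfl, if_pos rfl]
        ring
      · by_cases hj : k = j
        · subst hj
          rw [Equiv.swap_apply_right, if_neg hi, if_pos rfl, if_neg hi, if_pos rfl]
          ring
        · rw [Equiv.swap_apply_of_ne_of_ne hi hj, if_neg hi, if_neg hj, if_neg hi, if_neg hj]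
          ring
    rw [this, ← neg_smul, ← neg_smul, dg, dg, dg, ← Matrix.diagonal_smul, Matrix.diagonal_add]
    rfl
  have hxd : ee i i - ee j j = dg e := x_eq_dg hij
  have hZc : bk (ee i j - ee j i) (dg c') = 0 := by
    have h1 := bk_dg_ee c' i j
    have h3 := bk_dg_ee c' j i
    have h4 : c' i = c' j := by
      simp only [hc', if_true, if_neg (Ne.symm hij)]
    rw [h4, sub_self, zero_smul, bk, sub_eq_zero] at h1
    rw [h4, sub_self, zero_smul, bk, sub_eq_zero] at h3
    rw [bk, sub_mul, mul_sub, h1, h3, sub_self]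
  set Z : Mt d := O * (ee i j - ee j i) * Oᵀ with hZ
  have hr1 : bk Z (O * (ee i i - ee j j) * Oᵀ)
      = -((2 : ℝ) • (O * (ee i j + ee j i) * Oᵀ)) := by
    rw [hZ, bk_conj hO, bk_Z_x hij, mul_neg, neg_mul, Matrix.mul_smul, Matrix.smul_mul]
  have hr2 : bk Z (O * (ee i j + ee j i) * Oᵀ)
      = (2 : ℝ) • (O * (ee i i - ee j j) * Oᵀ) := by
    rw [hZ, bk_conj hO, bk_Z_y hij, Matrix.mul_smul, Matrix.smul_mul]
  have hr3 : bk Z (O * dg c' * Oᵀ) = 0 := by
    rw [hZ, bk_conj hO, hZc, mul_zero, zero_mul]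
  have hR1 := rot two_ne_zero hr1 hr2
  have hR2 := rot_fix hr3 (Real.pi / 2)
  have hsk : ((Real.pi / 2) • Z)ᵀ = -((Real.pi / 2) • Z) := by
    rw [Matrix.transpose_smul, hZ, Matrix.transpose_mul, Matrix.transpose_mul,
      Matrix.transpose_transpose, Matrix.transpose_sub, ee_transpose, ee_transpose,
      ← smul_neg, ← neg_mul, ← mul_neg, neg_sub, Matrix.mul_assoc]
  have hfin := h2 (O * dg c * Oᵀ) ((Real.pi / 2) • Z) hsk
  have hE : exp ((Real.pi / 2) • Z) * (O * dg c * Oᵀ) * exp (-((Real.pi / 2) • Z))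
      = O * dg (c ∘ Equiv.swap i j) * Oᵀ := by
    rw [hc1, hc2, ← hxd]
    have e1 : O * (a • (ee i i - ee j j) + dg c') * Oᵀ
        = a • (O * (ee i i - ee j j) * Oᵀ) + O * dg c' * Oᵀ := by
      rw [mul_add, add_mul, Matrix.mul_smul, Matrix.smul_mul]
    have e2 : O * (-(a • (ee i i - ee j j)) + dg c') * Oᵀ
        = -(a • (O * (ee i i - ee j j) * Oᵀ)) + O * dg c' * Oᵀ := by
      rw [mul_add, add_mul, mul_neg, neg_mul, Matrix.mul_smul, Matrix.smul_mul]
    rw [e1, e2, mul_add, add_mul, hR2, Matrix.mul_smul, Matrix.smul_mul, hR1, smul_neg]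
  rw [hE] at hfin
  exact hfin

theorem perm_orbit {R : Mt d → Mt d → Prop} (h0 : ∀ x, R x x)
    (h1 : ∀ x y z, R x y → R y z → R x z)
    (h2 : ∀ x Z : Mt d, Zᵀ = -Z → R x (exp Z * x * exp (-Z))) {O : Mt d} (hO : Oᵀ * O = 1)
    (c : Fin d → ℝ) (σ : Equiv.Perm (Fin d)) : R (O * dg c * Oᵀ) (O * dg (c ∘ σ) * Oᵀ) := by
  induction σ using Equiv.Perm.swap_induction_on generalizing c with
  | one => exact h0 _
  | swap_mul f i j hij ih =>
    have h3 := perm_swap h2 hO c hij
    have h4 := ih (c ∘ Equiv.swap i j)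
    exact h1 _ _ _ h3 h4

end Pool.Agent.MP417N
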