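import Pool.Agent.Lib.MP_417c68_gt_N.LaUA

/-!
# MP_417c68_gt, project N, module PhiC: the function `Phi` is constant on `G`

PROOFS.
* `stab_gV`: let `H'` be self-adjoint with `𝔭(H') = V`, `h ∈ H'`.  `h = k * eu X`, `X ∈ 𝔭(H') = V`,
  `k ∈ H'` orthogonal (`polar_right`).  `cA (eu X)` preserves `gV V` (`cA_gV`), `cA k` preserves
  `V` (`pp_cA`) and brackets, so it preserves `gV V` (`Submodule.sup`, `span_induction`).
* `stab_gC`: let `L'` be self-adjoint, `C ≤ P j`, `X ∈ 𝔭(L') ↔ X ∈ C` for `X ∈ P j`, and every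
  `X ∈ 𝔭(L')` is `Y + Z` with `Y ∈ C`, `Z = X - Y` commuting with `P j`.  Let `l ∈ L'`,
  `l = k * eu X`, `X ∈ 𝔭(L')` (`polar_right`).  `eu X = eu Y * eu Z` (`eu_add`; `Y ∈ P j`),
  `cA (eu Z)` fixes every element of `P j` (commuting), of `C` and of `gV C` (products), `cA (eu Y)` preserves
  `gV C` (`cA_gV`).  `cA k` maps `C` to `𝔭(L')` (`pp_cA`) and `P j` to `P j`: `k` is orthogonal and
  `P j` consists of all symmetric traceless matrices of the block `i` (`hQ`); so it preserves `C`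
  and `gV C`.
* `phi_const`: `H`, `L` from `ext_pair`, `H'`, `L'` from `fct_of_cpl`: every `g ∈ G` is `l * h` with
  `l ∈ L'`, `h ∈ H'`.  By `stab_gV` (for `h` and `h⁻¹`) and `Prj.cj` (with `la_UA`):
  `PA (h_i x h_i⁻¹) = h_i (PA x) h_i⁻¹`, that is `adL h_i h_i' ∘ PA = PA ∘ adL h_i h_i'`, and
  by `stab_gC`: `PC` commutes with `adL l_i l_i'` (here `h_i = h.1 i`, `h_i' = (h⁻¹).1 i`,
  `h_i * h_i' = 1`).  `adL g_i g_i' = adL l_i l_i' ∘ adL h_i h_i'`, so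
  `Phi PC PA g_i g_i' = tr (adL l ∘ adL h ∘ PA ∘ adL h⁻¹ ∘ adL l⁻¹ ∘ PC)
  = tr (adL l ∘ PA ∘ adL l⁻¹ ∘ PC) = tr (adL l ∘ PA ∘ PC ∘ adL l⁻¹) = tr (PA ∘ PC)`
  (`LinearMap.trace_mul_comm`).
-/

noncomputable section

namespace Pool.Agent.MP417N

open Matrix NormedSpace Pool.Agent.MP_417c68_gt Module

variable {n m : ℕ} {N : Fin n → ℕ} {i : Fin n} {G : Subgroup (Alg N)ˣ}
  {P : Fin m → Submodule ℝ (Alg N)}

private theorem phic_br (k : (Alg N)ˣ) (X Y : Alg N) : cA k (br X Y) = br (cA k X) (cA k Y) := by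
  have h1 : (k⁻¹).1 * k.1 = 1 := k.inv_mul
  show k.1 * (X * Y - Y * X) * (k⁻¹).1 = k.1 * X * (k⁻¹).1 * (k.1 * Y * (k⁻¹).1) -
    k.1 * Y * (k⁻¹).1 * (k.1 * X * (k⁻¹).1)
  have h2 : ∀ A B : Alg N, k.1 * A * (k⁻¹).1 * (k.1 * B * (k⁻¹).1) = k.1 * (A * B) * (k⁻¹).1 := by
    intro A B
    calc k.1 * A * (k⁻¹).1 * (k.1 * B * (k⁻¹).1)
        = k.1 * A * ((k⁻¹).1 * k.1) * (B * (k⁻¹).1) := by simp only [mul_assoc]
      _ = k.1 * (A * B) * (k⁻¹).1 := by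
        rw [h1, mul_one]
        simp only [mul_assoc]
  rw [h2, h2, mul_sub, sub_mul]

private theorem phic_gV {V : Submodule ℝ (Alg N)} {k : (Alg N)ˣ} (hk : ∀ Y ∈ V, cA k Y ∈ V)
    {X : Alg N} (hX : X ∈ gV V) : cA k X ∈ gV V := by
  obtain ⟨Y, hY, B, hB, rfl⟩ := Submodule.mem_sup.1 hX
  rw [cA_add]
  refine Submodule.add_mem_sup (hk Y hY) ?_
  refine Submodule.span_induction (p := fun B _ => cA k B ∈ kV V) ?_ ?_ ?_ ?_ hB
  · rintro _ ⟨Z, hZ, W, hW, rfl⟩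
    rw [phic_br]
    exact Submodule.subset_span ⟨_, hk Z hZ, _, hk W hW, rfl⟩
  · rw [cA_zero]
    exact Submodule.zero_mem _
  · intro Z W _ _ hZ hW
    rw [cA_add]
    exact Submodule.add_mem _ hZ hW
  · intro c Z _ hZ
    rw [cA_smul]
    exact Submodule.smul_mem _ c hZ

theorem stab_gV {V : Submodule ℝ (Alg N)} (hV : Trp V) {H' : Subgroup (Alg N)ˣ}
    (hH' : SelfAdj H') (hp : ∀ X, X ∈ pp H' ↔ X ∈ V) {h : (Alg N)ˣ} (hh : h ∈ H') {X : Alg N}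
    (hX : X ∈ gV V) : cA h X ∈ gV V := by
  obtain ⟨Y, hY, k, hk, ho, rfl⟩ := polar_right hH' hh
  rw [cA_mul]
  exact phic_gV (fun Z hZ => (hp _).1 (pp_cA hk ho ((hp Z).2 hZ))) (cA_gV hV ((hp Y).1 hY) hX)

private theorem phic_comm {Z W : Alg N} (h : Z * W = W * Z) : cA (eu Z) W = W := by
  funext i
  have h1 : Z i * W i = W i * Z i := congrFun h i
  have h2 : exp (Z i) * W i = W i * exp (Z i) :=
    Commute.exp_left (show Commute (Z i) (W i) from h1)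
  show exp (Z i) * W i * exp (-Z i) = W i
  rw [h2, mul_assoc, ← Matrix.exp_add_of_commute (Z i) (-Z i) (Commute.refl (Z i)).neg_right,
    add_neg_cancel, exp_zero, mul_one]

theorem stab_gC {Q C : Submodule ℝ (Alg N)} (hQ : SLQ i Q) (hC : Trp C) (hCQ : C ≤ Q)
    {L' : Subgroup (Alg N)ˣ} (hL' : SelfAdj L') (hp : ∀ X ∈ Q, X ∈ pp L' ↔ X ∈ C)
    (hd : ∀ X ∈ pp L', ∃ Y ∈ C, ∀ Z ∈ Q, (X - Y) * Z = Z * (X - Y)) {l : (Alg N)ˣ}
    (hl : l ∈ L') {X : Alg N} (hX : X ∈ gV C) : cA l X ∈ gV C := by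
  obtain ⟨S, hS, k, hk, ho, rfl⟩ := polar_right hL' hl
  obtain ⟨Y, hY, hZ⟩ := hd S hS
  obtain ⟨Z, hZe⟩ : ∃ Z, Z = S - Y := ⟨_, rfl⟩
  rw [← hZe] at hZ
  have hSe : S = Y + Z := by rw [hZe, add_sub_cancel]
  have hcom : ∀ W ∈ gV C, Z * W = W * Z := by
    intro W hW
    obtain ⟨A, hA, B, hB, rfl⟩ := Submodule.mem_sup.1 hW
    rw [mul_add, add_mul, hZ A (hCQ hA)]
    congr 1
    refine Submodule.span_induction (p := fun B _ => Z * B = B * Z) ?_ ?_ ?_ ?_ hB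
    · rintro _ ⟨U, hU, V, hV, rfl⟩
      have e1 := hZ U (hCQ hU)
      have e2 := hZ V (hCQ hV)
      have e3 : ∀ A B : Alg N, Z * A = A * Z → Z * B = B * Z → Z * (A * B) = A * B * Z := by
        intro A B h1 h2
        rw [← mul_assoc, h1, mul_assoc, h2, mul_assoc]
      show Z * (U * V - V * U) = (U * V - V * U) * Z
      rw [mul_sub, sub_mul, e3 U V e1 e2, e3 V U e2 e1]
    · rw [mul_zero, zero_mul]
    · intro U V _ _ hU hV
      rw [mul_add, add_mul, hU, hV]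
    · intro c U _ hU
      rw [mul_smul_comm, smul_mul_assoc, hU]
  have hYZ : Y * Z = Z * Y := (hZ Y (hCQ hY)).symm
  rw [cA_mul, hSe, eu_add hYZ, cA_mul, phic_comm (hcom X hX)]
  refine phic_gV (fun W hW => ?_) (cA_gV hC hY hX)
  have hWQ := hCQ hW
  have h1 : cA k W ∈ pp L' := pp_cA hk ho ((hp W hWQ).2 hW)
  refine (hp _ ?_).1 h1
  refine (hQ _).2 ⟨fun i' hi => ?_, h1.1 i, ?_⟩
  · show k.1 i' * W i' * (k⁻¹).1 i' = 0
    rw [((hQ W).1 hWQ).1 i' hi, mul_zero, zero_mul]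
  · show (k.1 i * W i * (k⁻¹).1 i).trace = 0
    have h2 : (k⁻¹).1 i * k.1 i = 1 := congrFun k.inv_mul i
    rw [Matrix.trace_mul_comm, ← mul_assoc, h2, one_mul]
    exact ((hQ W).1 hWQ).2.2

private theorem phic_adL {d : ℕ} {a b c e : Mt d} :
    adL (a * b) (c * e) = adL a e ∘ₗ adL b c := by
  refine LinearMap.ext fun x => ?_
  show a * b * x * (c * e) = a * (b * x * c) * e
  simp only [mul_assoc]

private theorem phic_one {d : ℕ} {a b : Mt d} (h : a * b = 1) :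
    adL a b ∘ₗ adL b a = LinearMap.id := by
  refine LinearMap.ext fun x => ?_
  show a * (b * x * a) * b = x
  calc a * (b * x * a) * b = (a * b) * x * (a * b) := by simp only [mul_assoc]
    _ = x := by rw [h, one_mul, mul_one]

/-- the computation: `PA` commutes with `Ad h`, `PC` with `Ad l` -/
private theorem phic_tr {d : ℕ} {PA PC : Mt d →ₗ[ℝ] Mt d} {l l' h h' : Mt d} (e2 : l' * l = 1)
    (e3 : h * h' = 1)
    (hA : ∀ x, PA (h * x * h') = h * PA x * h') (hC : ∀ x, PC (l * x * l') = l * PC x * l') :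
    Phi PC PA (l * h) (h' * l') = LinearMap.trace ℝ (Mt d) (PA ∘ₗ PC) := by
  have hA' : PA ∘ₗ adL h h' = adL h h' ∘ₗ PA := LinearMap.ext hA
  have hC' : PC ∘ₗ adL l l' = adL l l' ∘ₗ PC := LinearMap.ext hC
  have h1 : adL h h' ∘ₗ PA ∘ₗ adL h' h = PA := by
    rw [← LinearMap.comp_assoc, ← hA', LinearMap.comp_assoc, phic_one e3, LinearMap.comp_id]
  have h2 : Phi PC PA (l * h) (h' * l') =
      LinearMap.trace ℝ (Mt d) (adL l l' ∘ₗ (PA ∘ₗ adL l' l ∘ₗ PC)) := by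
    show LinearMap.trace ℝ (Mt d)
      (adL (l * h) (h' * l') ∘ₗ PA ∘ₗ adL (h' * l') (l * h) ∘ₗ PC) = _
    rw [phic_adL, phic_adL]
    congr 1
    calc (adL l l' ∘ₗ adL h h') ∘ₗ PA ∘ₗ (adL h' h ∘ₗ adL l' l) ∘ₗ PC
        = adL l l' ∘ₗ (adL h h' ∘ₗ PA ∘ₗ adL h' h) ∘ₗ adL l' l ∘ₗ PC := by
          simp only [LinearMap.comp_assoc]
      _ = _ := by rw [h1]
  have h3 : (PA ∘ₗ adL l' l ∘ₗ PC) ∘ₗ adL l l' = PA ∘ₗ PC := by
    calc (PA ∘ₗ adL l' l ∘ₗ PC) ∘ₗ adL l l' = PA ∘ₗ adL l' l ∘ₗ (PC ∘ₗ adL l l') := by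
          simp only [LinearMap.comp_assoc]
      _ = PA ∘ₗ (adL l' l ∘ₗ adL l l') ∘ₗ PC := by
          rw [hC']
          simp only [LinearMap.comp_assoc]
      _ = PA ∘ₗ PC := by rw [phic_one e2, LinearMap.id_comp]
  rw [h2, ← h3]
  exact LinearMap.trace_mul_comm ℝ (adL l l') (PA ∘ₗ adL l' l ∘ₗ PC)

theorem phi_const (hG : SelfAdj G) (hK : Kconn G) (hP : Ideals G P) {j : Fin m}
    (hQ : SLQ i (P j)) {A C : Submodule ℝ (Alg N)} (hA : Trp A) (hC : Trp C) (hAP : A ≤ P j)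
    (hCP : C ≤ P j) (hd : finrank ℝ A + finrank ℝ C = finrank ℝ (P j))
    (hdis : ∀ k ∈ G, Orth k → ∀ x ∈ A, ∀ y ∈ C, x = cA k y → x = 0)
    {PA PC : Mt (N i) →ₗ[ℝ] Mt (N i)} (hPA : Prj (UA i A) PA) (hPC : Prj (UA i C) PC)
    {g : (Alg N)ˣ} (hg : g ∈ G) :
    Phi PC PA (g.1 i) ((g⁻¹).1 i) = LinearMap.trace ℝ (Mt (N i)) (PA ∘ₗ PC) := by
  obtain ⟨H, L, hHG, hLG, hH, hL, hpH, hpL, hdL, hcp⟩ := ext_pair hG hK hP hA hC hAP hCP hd hdis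
  obtain ⟨H', L', -, -, hH', hL', hppH, hppL, -, -, hf, -⟩ :=
    fct_of_cpl hG hK hH hL hHG hLG hcp
  obtain ⟨l, hl, h, hh, rfl⟩ := hf g hg
  have hpA : ∀ X, X ∈ pp H' ↔ X ∈ A := by
    intro X
    rw [hppH, ← mem_pS hH.closed, hpH]
  have hpC : ∀ X ∈ P j, X ∈ pp L' ↔ X ∈ C := by
    intro X hX
    rw [hppL, hpL X hX]
  have hdC : ∀ X ∈ pp L', ∃ Y ∈ C, ∀ Z ∈ P j, (X - Y) * Z = Z * (X - Y) := by
    intro X hX
    exact hdL X ((hppL X).1 hX)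
  have ha : ∀ h ∈ H', ∀ x ∈ UA i A, h.1 i * x * (h⁻¹).1 i ∈ UA i A := by
    intro h hh x hx
    rw [mem_UA, ← cA_em]
    exact stab_gV hA hH' hpA hh hx
  have hc : ∀ l ∈ L', ∀ x ∈ UA i C, l.1 i * x * (l⁻¹).1 i ∈ UA i C := by
    intro l hl x hx
    rw [mem_UA, ← cA_em]
    exact stab_gC hQ hC hCP hL' hpC hdC hl hx
  have ha2 : ∀ x ∈ UA i A, (h⁻¹).1 i * x * h.1 i ∈ UA i A := by
    intro x hx
    have h1 := ha h⁻¹ (H'.inv_mem hh) x hx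
    rwa [inv_inv] at h1
  have hc2 : ∀ x ∈ UA i C, (l⁻¹).1 i * x * l.1 i ∈ UA i C := by
    intro x hx
    have h1 := hc l⁻¹ (L'.inv_mem hl) x hx
    rwa [inv_inv] at h1
  have e5 : ((l * h)⁻¹).1 i = (h⁻¹).1 i * (l⁻¹).1 i := by
    rw [_root_.mul_inv_rev]
    rfl
  rw [e5]
  exact phic_tr (congrFun l.inv_mul i) (congrFun h.mul_inv i) (hPA.cj (la_UA hQ hA hAP) (ha h hh) ha2)
    (hPC.cj (la_UA hQ hC hCP) (hc l hl) hc2)

end Pool.Agent.MP417N
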