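import Pool.Agent.Lib.MP_417c68_gt_N.Defs

/-!
# MP_417c68_gt, project N, module PrjA: orthogonal projections

PROOFS.
* `exists_prj`: the form `mi` is symmetric and positive definite (`mi_self_nonneg`,
  `mi_self_eq_zero`).  Take the inner product space structure on `Mt d` with inner product `mi`
  (`InnerProductSpace.Core`), or transport `Submodule.starProjection` from
  `EuclideanSpace ℝ (Fin d × Fin d)`; or copy the proof of `LTS.exists_proj` (library P).
* `perp`: `mi (P x) (P x) = mi x (P (P x)) = mi x (P x) = 0`.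
* `two`: `mi (P x) (P y) = mi (P (P x)) y = mi (P x) y`.
* `sq`: `mi (P x) (x - P x) = 0`.
* `tr`: `(P x)ᵀ ∈ U` and `xᵀ - (P x)ᵀ` is orthogonal to `U` (`mi_transpose`, `hU.tr`).
* `ad`: `P (bk a x) = bk a (P x)`: `bk a (P x) ∈ U`, and `bk a (x - P x)` is orthogonal to `U` since
  `mi (bk a z) y = mi z (bk aᵀ y)` (`mi_bk`) and `aᵀ ∈ U`.
* `cj`: `g * P x * h ∈ U`, and `g * (x - P x) * h` is orthogonal to `U`: for `y ∈ U`,
  `mi (g * z * h) y = (yᵀ * g * z * h).trace = ((h * yᵀ * g) * z).trace = mi (h * yᵀ * g)ᵀ z = 0`,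
  where `z = x - P x`, as `h * yᵀ * g ∈ U`, so its transpose is in `U`.
-/

noncomputable section

namespace Pool.Agent.MP417N

open Matrix

variable {d : ℕ} {U : Submodule ℝ (Mt d)} {P : Mt d →ₗ[ℝ] Mt d}

/-- the matrices as a Euclidean space -/
private def prjaE (d : ℕ) : Mt d ≃ₗ[ℝ] EuclideanSpace ℝ (Fin d × Fin d) where
  toFun x := WithLp.toLp 2 fun p => x p.1 p.2
  invFun y := fun i j => y (i, j)
  map_add' _ _ := rfl
  map_smul' _ _ := rfl
  left_inv _ := rfl
  right_inv _ := rfl

private theorem prjaE_inner (x y : Mt d) : inner ℝ (prjaE d x) (prjaE d y) = mi x y := by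
  rw [mi_sum, PiLp.inner_apply, Fintype.sum_prod_type, Finset.sum_comm]
  refine Finset.sum_congr rfl fun j _ => Finset.sum_congr rfl fun k _ => ?_
  change y k j * x k j = x k j * y k j
  exact mul_comm _ _

theorem exists_prj (U : Submodule ℝ (Mt d)) : ∃ P : Mt d →ₗ[ℝ] Mt d, Prj U P := by
  refine ⟨(prjaE d).symm.toLinearMap ∘ₗ
    (U.map (prjaE d).toLinearMap).starProjection.toLinearMap ∘ₗ (prjaE d).toLinearMap, ?_, ?_, ?_⟩
  · intro x
    have h := Submodule.starProjection_apply_mem (U.map (prjaE d).toLinearMap) (prjaE d x)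
    obtain ⟨u, hu, hux⟩ := Submodule.mem_map.1 h
    have h2 : (prjaE d).symm ((U.map (prjaE d).toLinearMap).starProjection (prjaE d x)) = u := by
      rw [← hux]
      exact (prjaE d).symm_apply_apply u
    change (prjaE d).symm ((U.map (prjaE d).toLinearMap).starProjection (prjaE d x)) ∈ U
    rw [h2]
    exact hu
  · intro x hx
    have h : (U.map (prjaE d).toLinearMap).starProjection (prjaE d x) = prjaE d x :=
      Submodule.starProjection_eq_self_iff.2 (Submodule.mem_map.2 ⟨x, hx, rfl⟩)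
    change (prjaE d).symm ((U.map (prjaE d).toLinearMap).starProjection (prjaE d x)) = x
    rw [h]
    exact (prjaE d).symm_apply_apply x
  · intro x y
    rw [← prjaE_inner, ← prjaE_inner]
    change inner ℝ ((prjaE d) ((prjaE d).symm
        ((U.map (prjaE d).toLinearMap).starProjection (prjaE d x)))) (prjaE d y) =
      inner ℝ (prjaE d x) ((prjaE d) ((prjaE d).symm
        ((U.map (prjaE d).toLinearMap).starProjection (prjaE d y))))
    rw [LinearEquiv.apply_symm_apply, LinearEquiv.apply_symm_apply]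
    exact Submodule.inner_starProjection_left_eq_right _ _ _

theorem Prj.perp (hP : Prj U P) {x : Mt d} (h : ∀ y ∈ U, mi x y = 0) : P x = 0 := by
  refine mi_self_eq_zero ?_
  rw [hP.sym, hP.fix _ (hP.mem x)]
  exact h _ (hP.mem x)

theorem Prj.two (hP : Prj U P) (x y : Mt d) : mi (P x) (P y) = mi (P x) y := by
  rw [← hP.sym, hP.fix _ (hP.mem x)]

theorem Prj.sq (hP : Prj U P) (x : Mt d) :
    mi x x = mi (P x) (P x) + mi (x - P x) (x - P x) := by
  have h1 : mi (P x) x = mi (P x) (P x) := (hP.two x x).symm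
  have h2 : mi x (P x) = mi (P x) (P x) := by rw [mi_comm, h1]
  rw [mi_sub_left, mi_sub_right, mi_sub_right, h1, h2]
  ring

theorem Prj.eq_self (hP : Prj U P) {x : Mt d} (h : mi (P x) (P x) = mi x x) : P x = x := by
  have h1 := hP.sq x
  rw [h] at h1
  have h2 : x - P x = 0 := mi_self_eq_zero (by linarith)
  exact (sub_eq_zero.1 h2).symm

/-- a decomposition determines the projection -/
private theorem prja_unique (hP : Prj U P) {x u : Mt d} (hu : u ∈ U)
    (h : ∀ y ∈ U, mi (x - u) y = 0) : P x = u := by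
  have h1 := hP.perp h
  rw [map_sub, hP.fix u hu, sub_eq_zero] at h1
  exact h1

private theorem prja_perp (hP : Prj U P) (x : Mt d) {y : Mt d} (hy : y ∈ U) :
    mi (x - P x) y = 0 := by
  rw [mi_sub_left, hP.sym, hP.fix y hy, sub_self]

theorem Prj.tr (hP : Prj U P) (hU : LA U) (x : Mt d) : P xᵀ = (P x)ᵀ := by
  refine prja_unique hP (hU.tr _ (hP.mem x)) fun y hy => ?_
  rw [← Matrix.transpose_sub, ← Matrix.transpose_transpose y, mi_transpose]
  exact prja_perp hP x (hU.tr y hy)

theorem Prj.ad (hP : Prj U P) (hU : LA U) {a : Mt d} (ha : a ∈ U) (x : Mt d) :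
    P (bk a x) = bk a (P x) := by
  refine prja_unique hP (hU.br a ha _ (hP.mem x)) fun y hy => ?_
  have h1 : bk a x - bk a (P x) = bk a (x - P x) := by
    rw [bk, bk, bk, mul_sub, sub_mul]
    abel
  rw [h1, mi_bk]
  exact prja_perp hP x (hU.br _ (hU.tr a ha) y hy)

theorem Prj.cj (hP : Prj U P) (hU : LA U) {g h : Mt d} (h1 : ∀ x ∈ U, g * x * h ∈ U)
    (h2 : ∀ x ∈ U, h * x * g ∈ U) (x : Mt d) : P (g * x * h) = g * P x * h := by
  refine prja_unique hP (h1 _ (hP.mem x)) fun y hy => ?_
  have h3 : g * x * h - g * P x * h = g * (x - P x) * h := by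
    rw [mul_sub, sub_mul]
  rw [h3, mi_mul_right, mi_mul_left]
  refine prja_perp hP x ?_
  have h4 := hU.tr _ (h2 _ (hU.tr y hy))
  rw [Matrix.transpose_mul, Matrix.transpose_mul, Matrix.transpose_transpose] at h4
  exact h4

end Pool.Agent.MP417N
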