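import Pool.Agent.Lib.MP_417c68_gt_N.Defs

/-!
# MP_417c68_gt, project N, module Rot: rotations

PROOFS.
* `rot_fix`: `t Z` commutes with `w`, so `exp (t Z)` does (`Commute.exp_left` for the Banach algebra
  structure of `Mt d`, or `Matrix.exp_conj`), and `exp (t Z) * exp (-(t Z)) = 1`
  (`Matrix.exp_add_of_commute`, `exp_zero`).
* `rot`.  Put `f t = cos (κ t) • x - sin (κ t) • y`.  Then `f' t = bk Z (f t)`:
  `bk Z (f t) = cos (κ t) • (-(κ • y)) - sin (κ t) • (κ • x)`.  So the derivative of
  `g t = exp (-(t Z)) * f t * exp (t Z)` is `exp (-(t Z)) * (f' t - bk Z (f t)) * exp (t Z) = 0` and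
  `g t = g 0 = x` (`is_const_of_deriv_eq_zero`).  For `t = π / κ` this says
  `exp (-(t Z)) * (-x) * exp (t Z) = x`; multiply by `exp (t Z)` and `exp (-(t Z))`.
  (Derivative of `t ↦ exp (t Z)`: `hasDerivAt_exp_smul_const`, with `open scoped Norms.Operator`,
  see `T/GrpT.lean`, lemma `grp_deriv`, or `ConjL.lean`, lemma `cjl_deriv`.)
-/

noncomputable section

namespace Pool.Agent.MP417N

open Matrix NormedSpace

variable {d : ℕ}

private theorem rot_mul_inv (A : Mt d) : exp A * exp (-A) = 1 := by
  rw [← Matrix.exp_add_of_commute _ _ (Commute.neg_right (Commute.refl A)), add_neg_cancel,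
    exp_zero]

private theorem rot_inv_mul (A : Mt d) : exp (-A) * exp A = 1 := by
  rw [← Matrix.exp_add_of_commute _ _ (Commute.neg_left (Commute.refl A)), neg_add_cancel,
    exp_zero]

set_option backward.isDefEq.respectTransparency false in
private theorem rot_comm {A w : Mt d} (h : Commute A w) : Commute (exp A) w := by
  open scoped Norms.Operator in
  exact h.exp_left

theorem rot_fix {Z w : Mt d} (h : bk Z w = 0) (t : ℝ) : exp (t • Z) * w * exp (-(t • Z)) = w := by
  have h1 : Commute (t • Z) w := by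
    have h2 : Z * w = w * Z := sub_eq_zero.1 h
    exact Commute.smul_left h2 t
  rw [(rot_comm h1).eq, Matrix.mul_assoc, rot_mul_inv, Matrix.mul_one]

set_option backward.isDefEq.respectTransparency false in
private theorem rot_const {Z x y : Mt d} {κ : ℝ} (h1 : bk Z x = -(κ • y)) (h2 : bk Z y = κ • x)
    (t : ℝ) :
    exp (-(t • Z)) * (Real.cos (κ * t) • x - Real.sin (κ * t) • y) * exp (t • Z) = x := by
  open scoped Norms.Operator in
  have hd : ∀ s : ℝ, HasDerivAt (fun s : ℝ => exp (s • (-Z)) *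
      (Real.cos (κ * s) • x - Real.sin (κ * s) • y) * exp (s • Z)) 0 s := by
    intro s
    have e1 : HasDerivAt (fun s : ℝ => exp (s • Z)) (Z * exp (s • Z)) s :=
      hasDerivAt_exp_smul_const' (𝕂 := ℝ) Z s
    have e2 : HasDerivAt (fun s : ℝ => exp (s • (-Z))) (exp (s • (-Z)) * (-Z)) s :=
      hasDerivAt_exp_smul_const (𝕂 := ℝ) (-Z) s
    have hl : HasDerivAt (fun s : ℝ => κ * s) κ s := by
      simpa using (hasDerivAt_id s).const_mul κ
    have e3 : HasDerivAt (fun s : ℝ => Real.cos (κ * s) • x - Real.sin (κ * s) • y)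
        ((-Real.sin (κ * s) * κ) • x - (Real.cos (κ * s) * κ) • y) s :=
      (hl.cos.smul_const x).sub (hl.sin.smul_const y)
    refine ((e2.mul e3).mul e1).congr_deriv ?_
    have k1 : Z * x = x * Z - κ • y := by
      have : Z * x - x * Z = -(κ • y) := h1
      rw [sub_eq_iff_eq_add.1 this]
      abel
    have k2 : Z * y = y * Z + κ • x := by
      have : Z * y - y * Z = κ • x := h2
      rw [sub_eq_iff_eq_add.1 this]
      abel
    have k3 : (-Z) * (Real.cos (κ * s) • x - Real.sin (κ * s) • y) +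
        ((-Real.sin (κ * s) * κ) • x - (Real.cos (κ * s) * κ) • y) +
        (Real.cos (κ * s) • x - Real.sin (κ * s) • y) * Z = 0 := by
      rw [neg_mul, mul_sub, sub_mul, Matrix.mul_smul, Matrix.mul_smul, Matrix.smul_mul,
        Matrix.smul_mul, k1, k2, smul_sub, smul_add, smul_smul, smul_smul, neg_mul, neg_smul]
      abel
    have k4 : exp (s • (-Z)) * ((-Z) * (Real.cos (κ * s) • x - Real.sin (κ * s) • y) +
        ((-Real.sin (κ * s) * κ) • x - (Real.cos (κ * s) * κ) • y) +
        (Real.cos (κ * s) • x - Real.sin (κ * s) • y) * Z) * exp (s • Z) = 0 := by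
      rw [k3, mul_zero, zero_mul]
    rw [← k4]
    show (exp (s • (-Z)) * (-Z) * (Real.cos (κ * s) • x - Real.sin (κ * s) • y) +
      exp (s • (-Z)) * ((-Real.sin (κ * s) * κ) • x - (Real.cos (κ * s) * κ) • y)) *
      exp (s • Z) + exp (s • (-Z)) * (Real.cos (κ * s) • x - Real.sin (κ * s) • y) *
      (Z * exp (s • Z)) = _
    generalize Real.cos (κ * s) • x - Real.sin (κ * s) • y = F
    generalize (-Real.sin (κ * s) * κ) • x - (Real.cos (κ * s) * κ) • y = F'
    generalize exp (s • (-Z)) = A
    generalize exp (s • Z) = B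
    rw [mul_add, mul_add, add_mul, add_mul, add_mul]
    simp only [mul_assoc]
  have hc := is_const_of_deriv_eq_zero (fun s => (hd s).differentiableAt)
    (fun s => (hd s).deriv) t 0
  simp only [mul_zero, Real.cos_zero, Real.sin_zero, one_smul, zero_smul, sub_zero, exp_zero,
    one_mul, mul_one, smul_neg, neg_zero] at hc
  exact hc

theorem rot {Z x y : Mt d} {κ : ℝ} (hκ : κ ≠ 0) (h1 : bk Z x = -(κ • y)) (h2 : bk Z y = κ • x) :
    exp ((Real.pi / κ) • Z) * x * exp (-((Real.pi / κ) • Z)) = -x := by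
  have h := rot_const h1 h2 (Real.pi / κ)
  rw [mul_div_cancel₀ _ hκ, Real.cos_pi, Real.sin_pi, zero_smul, sub_zero, neg_one_smul] at h
  set E := exp ((Real.pi / κ) • Z) with hE
  set F := exp (-((Real.pi / κ) • Z)) with hF
  have i1 : E * F = 1 := rot_mul_inv _
  have i2 : F * E = 1 := rot_inv_mul _
  calc E * x * F = E * (F * -x * E) * F := by rw [h]
    _ = (E * F) * -x * (E * F) := by simp only [Matrix.mul_assoc]
    _ = -x := by rw [i1, one_mul, mul_one]

end Pool.Agent.MP417N
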