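import Pool.Agent.Lib.MP_417c68_gt_N.Alt
import Pool.Agent.Lib.MP_417c68_gt_N.Main
import Pool.Agent.Lib.MP_417c68_gt_N.Neg
import Pool.Agent.Lib.MP_417c68_gt_N.Perm
import Pool.Agent.Lib.MP_417c68_gt_N.Match
import Pool.Agent.Lib.MP_417c68_gt_N.PhiC
import Pool.Agent.Lib.MP_417c68_gt_N.Cen
import Pool.Agent.Lib.MP_417c68_gt_N.Orb

/-!
# MP_417c68_gt, project N, module SL: the factors `SL(d, ℝ)` are rigid
-/

noncomputable section

namespace Pool.Agent.MP417N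

open Matrix NormedSpace Pool.Agent.MP_417c68_gt Module

variable {n m : ℕ} {N : Fin n → ℕ} {i : Fin n} {G : Subgroup (Alg N)ˣ}
  {P : Fin m → Submodule ℝ (Alg N)}

private theorem sl_half (hG : SelfAdj G) (hK : Kconn G) (hP : Ideals G P) {j : Fin m}
    (hQ : SLQ i (P j)) {A C : Submodule ℝ (Alg N)} (hA : Trp A) (hC : Trp C) (hAP : A ≤ P j)
    (hCP : C ≤ P j) (hd : finrank ℝ A + finrank ℝ C = finrank ℝ (P j))
    (hdis : ∀ k ∈ G, Orth k → ∀ x ∈ A, ∀ y ∈ C, x = cA k y → x = 0) (hA0 : A ≠ ⊥) (hC0 : C ≠ ⊥)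
    {PA : Mt (N i) →ₗ[ℝ] Mt (N i)} (hPA : Prj (UA i A) PA) (hN : Null PA) : False := by
  rcases null_main (la_UA hQ hA hAP) hPA hN with h | h | ⟨O, hO, ι, h1, h2, h3⟩
  · obtain ⟨X, hX, hX0⟩ := Submodule.exists_mem_ne_zero_of_ne_bot hA0
    have e := hQ.eq (hAP hX)
    refine hX0 ?_
    have h1 : X i ∈ UA i A := by
      rw [mem_UA, ← e]
      exact Submodule.mem_sup_left hX
    rw [e, h (X i) h1 (hA.sym X hX i), map_zero]
  · have hle : P j ≤ A := by
      intro X hX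
      have h1 := (hQ X).1 hX
      rw [hQ.eq hX]
      exact sym_UA hA (h (X i) h1.2.2) h1.2.1
    have h1 : A = P j := le_antisymm hAP hle
    have h2 : finrank ℝ C = 0 := by
      rw [h1] at hd
      omega
    exact hC0 (Submodule.finrank_eq_zero.1 h2)
  · have hO' : O * Oᵀ = 1 := mul_eq_one_comm.1 hO
    obtain ⟨x, y, hx, hy, hxy⟩ := exists_noncom hG hK hP hQ hA hC hAP hCP hd hdis hC0
    obtain ⟨z, hz, hz0, Z, hZ, e⟩ := exists_neg (C := C.comap (em i))
      (fun x hx => by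
        have h1 := hC.sym _ (Submodule.mem_comap.1 hx) i
        rwa [em_same] at h1)
      (fun x hx y hy z hz => by
        rw [Submodule.mem_comap, ← br_em, ← br_em]
        exact hC.tri _ hx _ hy _ hz) ⟨x, hx, y, hy, hxy⟩
    have hzP := hQ.mem.1 (hCP hz)
    obtain ⟨k, hk, hko, c, hc⟩ := orb_diag hG hP hQ hO hzP.1 hzP.2
    have k1 : k.1 i * (k⁻¹).1 i = 1 := congrFun k.mul_inv i
    have k2 : (k⁻¹).1 i * k.1 i = 1 := congrFun k.inv_mul i
    obtain ⟨u, hu, -, hu1, hu2⟩ := orb_skew hG hP hQ hZ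
    have u1 : exp Z * exp (-Z) = 1 := by
      rw [← hu1, ← hu2]
      exact congrFun u.mul_inv i
    obtain ⟨τ, hτ⟩ := neg_perm (c := c) (g := Oᵀ * k.1 i * exp Z * (k⁻¹).1 i * O)
      (h := Oᵀ * k.1 i * exp (-Z) * (k⁻¹).1 i * O) (by
        calc Oᵀ * k.1 i * exp Z * (k⁻¹).1 i * O * (Oᵀ * k.1 i * exp (-Z) * (k⁻¹).1 i * O)
            = Oᵀ * k.1 i * exp Z * (k⁻¹).1 i * (O * Oᵀ) * k.1 i * exp (-Z) * (k⁻¹).1 i * O := by
              simp only [Matrix.mul_assoc]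
          _ = Oᵀ * k.1 i * exp Z * ((k⁻¹).1 i * k.1 i) * exp (-Z) * (k⁻¹).1 i * O := by
              rw [hO', Matrix.mul_one]
              simp only [Matrix.mul_assoc]
          _ = Oᵀ * k.1 i * (exp Z * exp (-Z)) * (k⁻¹).1 i * O := by
              rw [k2, Matrix.mul_one]
              simp only [Matrix.mul_assoc]
          _ = Oᵀ * (k.1 i * (k⁻¹).1 i) * O := by
              rw [u1, Matrix.mul_one]
              simp only [Matrix.mul_assoc]
          _ = 1 := by rw [k1, Matrix.mul_one, hO]) (by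
        have h4 : z = (k⁻¹).1 i * (O * dg c * Oᵀ) * k.1 i := by
          rw [← hc]
          calc z = ((k⁻¹).1 i * k.1 i) * z * ((k⁻¹).1 i * k.1 i) := by
                rw [k2, Matrix.one_mul, Matrix.mul_one]
            _ = _ := by simp only [Matrix.mul_assoc]
        calc Oᵀ * k.1 i * exp Z * (k⁻¹).1 i * O * dg c * (Oᵀ * k.1 i * exp (-Z) * (k⁻¹).1 i * O)
            = Oᵀ * k.1 i * (exp Z * ((k⁻¹).1 i * (O * dg c * Oᵀ) * k.1 i) * exp (-Z)) *
                (k⁻¹).1 i * O := by simp only [Matrix.mul_assoc]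
          _ = Oᵀ * k.1 i * (-z) * (k⁻¹).1 i * O := by rw [← h4, e]
          _ = -(Oᵀ * (k.1 i * z * (k⁻¹).1 i) * O) := by
              simp only [Matrix.mul_assoc, Matrix.mul_neg, Matrix.neg_mul]
          _ = -((Oᵀ * O) * dg c * (Oᵀ * O)) := by
              rw [hc]
              simp only [Matrix.mul_assoc]
          _ = -dg c := by rw [hO, Matrix.one_mul, Matrix.mul_one])
    obtain ⟨σ, hσ⟩ := match_inv hτ h1 h2
    have h5 := h3 (c ∘ σ) hσ
    have h6 : (O * dg (c ∘ σ) * Oᵀ)ᵀ = O * dg (c ∘ σ) * Oᵀ := by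
      rw [Matrix.transpose_mul, Matrix.transpose_mul, Matrix.transpose_transpose, dg_transpose,
        Matrix.mul_assoc]
    have h7 := sym_UA hA h5 h6
    obtain ⟨k', hk', hko', hc'⟩ := perm_orbit
      (R := fun x y => ∃ k ∈ G, Orth k ∧ k.1 i * x * (k⁻¹).1 i = y)
      (fun x => ⟨1, G.one_mem, orth_one, by
        show (1 : Alg N) i * x * ((1 : (Alg N)ˣ)⁻¹).1 i = x
        rw [inv_one]
        show (1 : Mt (N i)) * x * 1 = x
        rw [Matrix.one_mul, Matrix.mul_one]⟩)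
      (by
        rintro x y z ⟨k, hk, ho, rfl⟩ ⟨k', hk', ho', rfl⟩
        refine ⟨k' * k, G.mul_mem hk' hk, orth_mul ho' ho, ?_⟩
        rw [_root_.mul_inv_rev]
        show k'.1 i * k.1 i * x * ((k⁻¹).1 i * (k'⁻¹).1 i) = _
        simp only [Matrix.mul_assoc])
      (fun x Z hZ => by
        obtain ⟨u, hu, huo, hu1, hu2⟩ := orb_skew hG hP hQ hZ
        exact ⟨u, hu, huo, by rw [hu1, hu2]⟩) hO c σ
    have h8 : (em i (O * dg (c ∘ σ) * Oᵀ) : Alg N) = cA (k' * k) (em i z) := by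
      rw [cA_em, ← hc', ← hc, _root_.mul_inv_rev]
      congr 1
      show _ = k'.1 i * k.1 i * z * ((k⁻¹).1 i * (k'⁻¹).1 i)
      simp only [Matrix.mul_assoc]
    have h9 := hdis (k' * k) (G.mul_mem hk' hk) (orth_mul hko' hko) _ h7 _ hz h8
    have h10 : (em i z : Alg N) = 0 := by
      rw [← cA_inv_cA (k' * k) (em i z), ← h8, h9, cA_zero]
    have h11 : (em i z : Alg N) = em i 0 := by rw [h10, map_zero]
    exact hz0 (em_inj h11)

theorem slP (hG : SelfAdj G) (hK : Kconn G) (hP : Ideals G P) {j : Fin m} (hQ : SLQ i (P j)) :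
    RigP G (P j) := by
  intro A C hA hC hAP hCP hd hdis
  by_contra hcon
  rw [not_or] at hcon
  obtain ⟨PA, hPA⟩ := exists_prj (UA i A)
  obtain ⟨PC, hPC⟩ := exists_prj (UA i C)
  have hdis' : ∀ k ∈ G, Orth k → ∀ x ∈ C, ∀ y ∈ A, x = cA k y → x = 0 := by
    intro k hk ho x hx y hy hxy
    have h1 : y = cA k⁻¹ x := by rw [hxy, cA_inv_cA]
    have h2 := hdis k⁻¹ (G.inv_mem hk) (orth_inv ho) y hy x hx h1
    rw [hxy, h2, cA_zero]
  have hd' : finrank ℝ C + finrank ℝ A = finrank ℝ (P j) := by rw [add_comm]; exact hd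
  have hin : ∀ Y : Mt (N i), Yᵀ = Y → Y.trace = 0 → eu (em i Y : Alg N) ∈ G := by
    intro Y hY ht
    have h1 : em i Y ∈ pp G := (hP.sup _).2 (Submodule.mem_iSup_of_mem j (hQ.mem.2 ⟨hY, ht⟩))
    have h2 := h1.2 1
    rwa [one_smul] at h2
  rcases null_alt (P := PC) (Q := PA)
      (𝒢 := {p : Mt (N i) × Mt (N i) | ∃ g ∈ G, p = (g.1 i, (g⁻¹).1 i)})
      (by
        rintro _ ⟨g, hg, rfl⟩ _ ⟨g', hg', rfl⟩
        refine ⟨g * g', G.mul_mem hg hg', ?_⟩
        rw [_root_.mul_inv_rev]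
        rfl)
      (fun Y hY ht => ⟨_, hin Y hY ht, by
        rw [← eu_neg]
        show (exp Y, exp (-Y)) = (exp ((em i Y : Alg N) i), exp ((-(em i Y : Alg N)) i))
        rw [Pi.neg_apply, em_same]⟩)
      (c := LinearMap.trace ℝ (Mt (N i)) (PA ∘ₗ PC))
      (by
        rintro _ ⟨g, hg, rfl⟩
        exact phi_const hG hK hP hQ hA hC hAP hCP hd hdis hPA hPC hg) with h | h
  · exact sl_half hG hK hP hQ hC hA hCP hAP hd' hdis' hcon.2 hcon.1 hPC h
  · exact sl_half hG hK hP hQ hA hC hAP hCP hd hdis hcon.1 hcon.2 hPA h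

end Pool.Agent.MP417N
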